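import Mathlib
import Pool.Agent.Helper78.GroupBound

/-!
# Finite groups with cyclic commutative subgroups: noncyclic `p`-subgroups

In a finite group whose commutative subgroups are cyclic every noncyclic `p`-subgroup contains the
quaternion group of order `8`.
-/

set_option autoImplicit false

namespace Pool.Agent.Helper82.EB

/-- all commutative subgroups are cyclic -/
def AC (G : Type*) [Group G] : Prop :=
  ∀ H : Subgroup G, (∀ x ∈ H, ∀ y ∈ H, x * y = y * x) → IsCyclic H

/-- generators of a quaternion group of order `8` -/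
def Quat {G : Type*} [Group G] (i x : G) : Prop :=
  i ^ 2 ≠ 1 ∧ i ^ 4 = 1 ∧ x ^ 2 = i ^ 2 ∧ x * i = i⁻¹ * x

variable {G : Type*} [Group G]

lemma closure_pair_comm {x y : G} (h : x * y = y * x) :
    ∀ u ∈ Subgroup.closure {x, y}, ∀ v ∈ Subgroup.closure {x, y}, u * v = v * u := by
  have h1 : ∀ u ∈ ({x, y} : Set G), ∀ v ∈ ({x, y} : Set G), u * v = v * u := by
    rintro u (rfl | rfl) v (rfl | rfl)
    · rfl
    · exact h
    · exact h.symm
    · rfl
  intro u hu v hv
  induction hu, hv using Subgroup.closure_induction₂ with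
  | mem a b ha hb => exact h1 a ha b hb
  | one_left x _ => rw [one_mul, mul_one]
  | one_right x _ => rw [one_mul, mul_one]
  | mul_left x y z _ _ _ h1 h2 => rw [mul_assoc, h2, ← mul_assoc, h1, mul_assoc]
  | mul_right y z x _ _ _ h1 h2 => rw [← mul_assoc, h1, mul_assoc, h2, mul_assoc]
  | inv_left x y _ _ h =>
    calc x⁻¹ * y = x⁻¹ * (y * x) * x⁻¹ := by group
      _ = x⁻¹ * (x * y) * x⁻¹ := by rw [h]
      _ = y * x⁻¹ := by group
  | inv_right x y _ _ h =>
    calc x * y⁻¹ = y⁻¹ * (y * x) * y⁻¹ := by group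
      _ = y⁻¹ * (x * y) * y⁻¹ := by rw [h]
      _ = y⁻¹ * x := by group

/-- commuting elements of the same order generate the same subgroup -/
lemma AC.mem_zpowers [Finite G] (hAC : AC G) {x y : G} (h : x * y = y * x)
    (ho : orderOf x = orderOf y) : x ∈ Subgroup.zpowers y := by
  have hc := hAC _ (closure_pair_comm h)
  have hx : x ∈ Subgroup.closure {x, y} := Subgroup.subset_closure (Set.mem_insert _ _)
  have hy : y ∈ Subgroup.closure {x, y} :=
    Subgroup.subset_closure (Set.mem_insert_of_mem _ (Set.mem_singleton _))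
  have ho' : orderOf (⟨x, hx⟩ : Subgroup.closure {x, y})
      = orderOf (⟨y, hy⟩ : Subgroup.closure {x, y}) := by
    rw [Subgroup.orderOf_mk, Subgroup.orderOf_mk, ho]
  obtain ⟨n, hn⟩ := Pool.Agent.Helper78.GroupBound.mem_zpowers_of_orderOf_eq ho'
  refine ⟨n, ?_⟩
  have := congrArg Subtype.val hn
  simpa using this

/-- commuting involutions are equal -/
lemma AC.inv_eq [Finite G] (hAC : AC G) {x y : G} (h : x * y = y * x) (hx : x ^ 2 = 1)
    (hx1 : x ≠ 1) (hy : y ^ 2 = 1) (hy1 : y ≠ 1) : x = y := by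
  have hox : orderOf x = 2 := orderOf_eq_prime hx hx1
  have hoy : orderOf y = 2 := orderOf_eq_prime hy hy1
  obtain ⟨n, hn⟩ := hAC.mem_zpowers h (hox.trans hoy.symm)
  simp only at hn
  rcases Int.even_or_odd' n with ⟨k, hk | hk⟩
  · exfalso
    apply hx1
    rw [← hn, hk, zpow_mul, zpow_ofNat, hy, one_zpow]
  · rw [← hn, hk, zpow_add, zpow_mul, zpow_ofNat, hy, one_zpow, one_mul, zpow_one]

lemma AC.subgroup (hAC : AC G) (K : Subgroup G) : AC K := by
  intro H hH
  have h1 : IsCyclic (H.map K.subtype) := by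
    refine hAC _ ?_
    rintro _ ⟨x, hx, rfl⟩ _ ⟨y, hy, rfl⟩
    rw [← map_mul, ← map_mul, hH x hx y hy]
  have e : H ≃* H.map K.subtype := H.equivMapOfInjective K.subtype K.subtype_injective
  exact isCyclic_of_surjective e.symm e.symm.surjective

/-- powers of a product with central commutator -/
lemma pow_class_two {y b z : G} (h : b * y = z * (y * b)) (hy : z * y = y * z)
    (hb : z * b = b * z) (n : ℕ) : (y * b) ^ n = z ^ (n.choose 2) * (y ^ n * b ^ n) := by
  have hzy : Commute z y := hy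
  have hzb : Commute z b := hb
  have h1 : ∀ n : ℕ, b ^ n * y = z ^ n * (y * b ^ n) := by
    intro n
    induction n with
    | zero => simp
    | succ n ih =>
      have h2 : b * z ^ n = z ^ n * b := ((hzb.pow_left n).eq).symm
      calc b ^ (n + 1) * y = b * (b ^ n * y) := by rw [pow_succ', mul_assoc]
        _ = b * (z ^ n * (y * b ^ n)) := by rw [ih]
        _ = (b * z ^ n) * (y * b ^ n) := by rw [mul_assoc]
        _ = z ^ n * (b * y) * b ^ n := by rw [h2]; simp only [mul_assoc]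
        _ = z ^ n * (z * (y * b)) * b ^ n := by rw [h]
        _ = z ^ (n + 1) * (y * b ^ (n + 1)) := by
          rw [pow_succ z, pow_succ' b]; simp only [mul_assoc]
  induction n with
  | zero => simp
  | succ n ih =>
    have h2 : y ^ n * z ^ n = z ^ n * y ^ n := ((hzy.pow_pow n n).eq).symm
    calc (y * b) ^ (n + 1) = (y * b) ^ n * (y * b) := pow_succ _ _
      _ = z ^ (n.choose 2) * (y ^ n * (b ^ n * y) * b) := by rw [ih]; simp only [mul_assoc]
      _ = z ^ (n.choose 2) * (y ^ n * z ^ n * (y * b ^ n) * b) := by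
        rw [h1]; simp only [mul_assoc]
      _ = z ^ (n.choose 2) * z ^ n * (y ^ (n + 1) * b ^ (n + 1)) := by
        rw [h2, pow_succ y, pow_succ b]; simp only [mul_assoc]
      _ = z ^ ((n + 1).choose 2) * (y ^ (n + 1) * b ^ (n + 1)) := by
        rw [← pow_add, Nat.choose_succ_succ' n 1, Nat.choose_one_right, add_comm]

/-- minimal noncyclic `p`-groups -/
theorem quat_of_minimal [Finite G] (hAC : AC G) (p : ℕ) [hp : Fact p.Prime] (hP : IsPGroup p G)
    (hnc : ¬ IsCyclic G) (hprop : ∀ H : Subgroup G, H ≠ ⊤ → IsCyclic H) :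
    ∃ i x : G, Quat i x := by
  obtain ⟨m, hm⟩ := hP.exists_card_eq
  have hm0 : m ≠ 0 := by
    rintro rfl
    rw [pow_zero] at hm
    have : Subsingleton G := (Nat.card_eq_one_iff_unique.mp hm).1
    exact hnc inferInstance
  obtain ⟨l, rfl⟩ := Nat.exists_eq_succ_of_ne_zero hm0
  rw [Nat.succ_eq_add_one] at hm
  have hpl : 0 < p ^ l := Nat.pow_pos hp.out.pos
  have hlt : p ^ l < p ^ (l + 1) := Nat.pow_lt_pow_right hp.out.one_lt (Nat.lt_succ_self l)
  have hdvd : p ^ l ∣ Nat.card G := by rw [hm]; exact pow_dvd_pow p (Nat.le_succ l)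
  -- subgroups of index `p`
  have hidx : ∀ H : Subgroup G, Nat.card H = p ^ l → H ≠ ⊤ ∧ H.index = p ∧ H.Normal := by
    intro H hH
    have h1 : H.index = p := by
      have h2 := H.card_mul_index
      rw [hH, hm, pow_succ] at h2
      exact Nat.eq_of_mul_eq_mul_left hpl h2
    refine ⟨?_, h1, ?_⟩
    · rintro rfl
      rw [Subgroup.card_top, hm] at hH
      omega
    · refine Subgroup.normal_of_index_eq_minFac_card ?_
      rw [h1, hm, Nat.Prime.pow_minFac hp.out (Nat.succ_ne_zero l)]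
  obtain ⟨M₁, hM₁⟩ := Sylow.exists_subgroup_card_pow_prime p hdvd
  obtain ⟨hM₁t, hM₁i, hM₁n⟩ := hidx M₁ hM₁
  obtain ⟨b₀, hb₀⟩ : ∃ b₀, b₀ ∉ M₁ := by
    by_contra hcon
    push Not at hcon
    exact hM₁t (eq_top_iff.mpr fun x _ => hcon x)
  have hzb₀ : Subgroup.zpowers b₀ ≠ ⊤ := by
    intro h
    apply hnc
    refine ⟨b₀, fun x => ?_⟩
    have h1 : x ∈ Subgroup.zpowers b₀ := by rw [h]; exact Subgroup.mem_top x
    exact h1
  obtain ⟨j, hj⟩ : ∃ j, Nat.card (Subgroup.zpowers b₀) = p ^ j :=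
    (hP.to_subgroup (Subgroup.zpowers b₀)).exists_card_eq
  have hjl : j ≤ l := by
    by_contra hcon
    have h1 : p ^ (l + 1) ≤ Nat.card (Subgroup.zpowers b₀) := by
      rw [hj]; exact Nat.pow_le_pow_right hp.out.pos (by omega)
    exact hzb₀ (Subgroup.eq_top_of_le_card _ (by rw [hm]; exact h1))
  obtain ⟨M₂, hM₂, hb₀M₂⟩ := Sylow.exists_subgroup_card_pow_prime_le p hdvd
    (Subgroup.zpowers b₀) hj hjl
  obtain ⟨hM₂t, hM₂i, hM₂n⟩ := hidx M₂ hM₂
  obtain ⟨⟨a, haM⟩, ha⟩ := (hprop M₁ hM₁t).exists_generator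
  obtain ⟨⟨b, hbM⟩, hb⟩ := (hprop M₂ hM₂t).exists_generator
  have ha' : ∀ x ∈ M₁, x ∈ Subgroup.zpowers a := by
    intro x hx
    obtain ⟨n, hn⟩ := ha ⟨x, hx⟩
    exact ⟨n, by simpa using congrArg Subtype.val hn⟩
  have hb' : ∀ x ∈ M₂, x ∈ Subgroup.zpowers b := by
    intro x hx
    obtain ⟨n, hn⟩ := hb ⟨x, hx⟩
    exact ⟨n, by simpa using congrArg Subtype.val hn⟩
  have hbM₁ : b ∉ M₁ := by
    intro h
    apply hb₀
    have h1 := hb' b₀ (hb₀M₂ (Subgroup.mem_zpowers b₀))
    exact (Subgroup.zpowers_le.mpr h) h1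
  have hcomm_of : ∀ {u x : G}, x ∈ Subgroup.zpowers u → Commute x u := by
    rintro u x ⟨n, rfl⟩
    exact (Commute.refl u).zpow_left n
  -- the commutator
  set c := a * b * a⁻¹ * b⁻¹ with hc
  have hcM₁ : c ∈ M₁ := by
    have h1 : b * a⁻¹ * b⁻¹ ∈ M₁ := hM₁n.conj_mem _ (inv_mem haM) b
    have h2 : c = a * (b * a⁻¹ * b⁻¹) := by rw [hc]; group
    rw [h2]; exact mul_mem haM h1
  have hcM₂ : c ∈ M₂ := by
    have h1 : a * b * a⁻¹ ∈ M₂ := hM₂n.conj_mem _ hbM a
    rw [hc]; exact mul_mem h1 (inv_mem hbM)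
  have hca : Commute c a := hcomm_of (ha' c hcM₁)
  have hcb : Commute c b := hcomm_of (hb' c hcM₂)
  have hapb : Commute (a ^ p) b := by
    refine hcomm_of (hb' _ ?_)
    have := M₂.pow_index_mem a
    rwa [hM₂i] at this
  have hbpM₁ : b ^ p ∈ M₁ := by
    have := M₁.pow_index_mem b
    rwa [hM₁i] at this
  have hc1 : c ≠ 1 := by
    intro h1
    have hab : Commute a b := by
      have h2 : a * b = c * (b * a) := by rw [hc]; group
      rw [h1, one_mul] at h2
      exact h2
    have htop : Subgroup.closure {a, b} = ⊤ := by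
      have h2 : M₁ ≤ Subgroup.closure {a, b} := by
        intro x hx
        have h3 : Subgroup.zpowers a ≤ Subgroup.closure {a, b} := by
          rw [Subgroup.zpowers_le]
          exact Subgroup.subset_closure (Set.mem_insert _ _)
        exact h3 (ha' x hx)
      by_contra hne
      have h3 := hprop _ hne
      have h4 : Nat.card M₁ ∣ Nat.card (Subgroup.closure {a, b}) := Subgroup.card_dvd_of_le h2
      have h5 : Nat.card (Subgroup.closure {a, b}) ∣ Nat.card G := Subgroup.card_subgroup_dvd_card _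
      rw [hM₁] at h4
      rw [hm] at h5
      obtain ⟨q, hq⟩ := h4
      rw [hq, pow_succ, Nat.mul_dvd_mul_iff_left hpl, Nat.dvd_prime hp.out] at h5
      rcases h5 with h5 | h5
      · rw [h5, mul_one, ← hM₁] at hq
        have h6 := Subgroup.eq_of_le_of_card_ge h2 hq.le
        apply hbM₁
        rw [h6]
        exact Subgroup.subset_closure (Set.mem_insert_of_mem _ (Set.mem_singleton _))
      · rw [h5, ← pow_succ, ← hm] at hq
        exact hne (Subgroup.eq_top_of_card_eq _ hq)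
    have h2 := hAC _ (closure_pair_comm hab.eq)
    rw [htop] at h2
    exact hnc (isCyclic_of_surjective (Subgroup.topEquiv (G := G)) Subgroup.topEquiv.surjective)
  have hbab : b * a = c⁻¹ * (a * b) := by rw [hc]; group
  have hcp : c ^ p = 1 := by
    have h1 : b * a * b⁻¹ = c⁻¹ * a := by rw [hc]; group
    have h2 : (b * a * b⁻¹) ^ p = a ^ p := by
      rw [conj_pow, ← hapb.eq]; group
    rw [h1, (hca.inv_left).mul_pow, inv_pow] at h2
    have h3 : (c ^ p)⁻¹ = 1 := by
      have h4 : (c ^ p)⁻¹ * a ^ p = 1 * a ^ p := by rw [h2, one_mul]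
      exact mul_right_cancel h4
    exact inv_eq_one.mp h3
  have hco : orderOf c = p := orderOf_eq_prime hcp hc1
  -- `b ^ p` is a power of `a ^ p`
  obtain ⟨s, hs⟩ := ha' _ hbpM₁
  simp only at hs
  obtain ⟨r, hr⟩ : ∃ r, orderOf a = p ^ r := by
    have h1 : orderOf a ∣ p ^ (l + 1) := by rw [← hm]; exact orderOf_dvd_natCard a
    obtain ⟨r, _, hr⟩ := (Nat.dvd_prime_pow hp.out).mp h1
    exact ⟨r, hr⟩
  have hps : (p : ℤ) ∣ s := by
    by_contra hcon
    have h1 : IsCoprime s ((p : ℤ) ^ r) := by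
      refine IsCoprime.pow_right ?_
      rw [isCoprime_comm]
      exact (Prime.coprime_iff_not_dvd (Nat.prime_iff_prime_int.mp hp.out)).mpr hcon
    obtain ⟨u, v, huv⟩ := h1
    have h2 : a = (b ^ p) ^ u := by
      rw [← hs, ← zpow_mul]
      calc a = a ^ (1 : ℤ) := (zpow_one a).symm
        _ = a ^ (u * s + v * (p : ℤ) ^ r) := by rw [huv]
        _ = a ^ (s * u) * (a ^ ((p : ℤ) ^ r)) ^ v := by
          rw [← zpow_mul, ← zpow_add]; congr 1; ring
        _ = a ^ (s * u) := by
          have h3 : a ^ ((p : ℤ) ^ r) = 1 := by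
            rw [← Nat.cast_pow, ← hr, zpow_natCast, pow_orderOf_eq_one]
          rw [h3, one_zpow, mul_one]
    have h3 : Commute a b := by
      rw [h2]
      exact ((Commute.refl b).pow_left p).zpow_left u
    apply hc1
    rw [hc, h3.eq]; group
  obtain ⟨t, ht⟩ := hps
  set y := a ^ (-t) with hy
  have hyM : y ∈ M₁ := zpow_mem haM _
  have hcy : Commute c y := hca.zpow_right _
  have hby : b * y = c ^ t * (y * b) := by
    have h1 : b * a * b⁻¹ = c⁻¹ * a := by rw [hc]; group
    have h2 : b * y * b⁻¹ = c ^ t * y := by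
      rw [hy, ← conj_zpow, h1, (hca.inv_left).mul_zpow, inv_zpow, zpow_neg, inv_inv]
    calc b * y = (b * y * b⁻¹) * b := by group
      _ = c ^ t * y * b := by rw [h2]
      _ = c ^ t * (y * b) := mul_assoc _ _ _
  have hpow : (y * b) ^ p = (c ^ t) ^ (p.choose 2) := by
    rw [pow_class_two hby (hcy.zpow_left t).eq (hcb.zpow_left t).eq]
    have h1 : y ^ p * b ^ p = 1 := by
      rw [hy, ← hs, ht, ← zpow_natCast (a ^ (-t)), ← zpow_mul, ← zpow_add]
      have : -t * (p : ℤ) + (p : ℤ) * t = 0 := by ring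
      rw [this, zpow_zero]
    rw [h1, mul_one]
  set w := y * b with hw
  have hwM₁ : w ∉ M₁ := by
    intro h
    apply hbM₁
    have h1 : b = y⁻¹ * w := by rw [hw]; group
    rw [h1]; exact mul_mem (inv_mem hyM) h
  have hcw : Commute c w := hcy.mul_right hcb
  have hcontr : w ^ p = 1 → False := by
    intro h1
    have h2 : w ≠ 1 := fun h => hwM₁ (by rw [h]; exact one_mem _)
    have h3 : orderOf w = p := orderOf_eq_prime h1 h2
    have h4 := hAC.mem_zpowers hcw.eq.symm (h3.trans hco.symm)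
    exact hwM₁ ((Subgroup.zpowers_le.mpr hcM₁) h4)
  by_cases hp2 : p = 2
  swap
  · exfalso
    apply hcontr
    have h1 : 2 < p := lt_of_le_of_ne hp.out.two_le (Ne.symm hp2)
    obtain ⟨q, hq⟩ := Nat.Prime.dvd_choose_self hp.out (by norm_num : (2 : ℕ) ≠ 0) h1
    rw [hpow, hq, pow_mul, ← zpow_natCast (c ^ t) p, ← zpow_mul, mul_comm t, zpow_mul,
      zpow_natCast, hcp, one_zpow, one_pow]
  subst hp2
  -- the case `p = 2`
  have hw2 : w ^ 2 = c ^ t := by
    rw [hpow, Nat.choose_self, pow_one]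
  have hct : c ^ t = c := by
    rcases Int.even_or_odd' t with ⟨k, hk | hk⟩
    · exfalso
      apply hcontr
      rw [hw2, hk, zpow_mul, zpow_ofNat, hcp, one_zpow]
    · rw [hk, zpow_add, zpow_mul, zpow_ofNat, hcp, one_zpow, one_mul, zpow_one]
  rw [hct] at hw2
  have hw4 : orderOf w = 4 := by
    have h1 : orderOf w = 2 ^ 2 := by
      refine orderOf_eq_prime_pow ?_ ?_
      · rw [pow_one, hw2]; exact hc1
      · rw [show 2 ^ (1 + 1) = 2 * 2 from rfl, pow_mul, hw2, hcp]
    rw [h1]; norm_num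
  have ha2c : ∀ g : G, g ∈ Subgroup.zpowers (a ^ 2) → Commute g w := by
    rintro g ⟨n, rfl⟩
    refine Commute.zpow_left ?_ n
    exact (((Commute.refl a).pow_left 2).zpow_right _).mul_right hapb
  have ha4 : a ^ 4 = 1 := by
    by_contra hcon
    have hr3 : 3 ≤ r := by
      by_contra h
      apply hcon
      have h1 : orderOf a ∣ 4 := by
        rw [hr, show (4 : ℕ) = 2 ^ 2 from rfl]
        exact pow_dvd_pow 2 (by omega)
      exact orderOf_dvd_iff_pow_eq_one.mp h1
    have h1 : orderOf (a ^ 2 ^ (r - 2)) = 4 := by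
      rw [orderOf_pow_of_dvd (Nat.pow_pos (by norm_num)).ne'
        (by rw [hr]; exact pow_dvd_pow 2 (by omega)), hr,
        Nat.pow_div (by omega) (by norm_num)]
      have : r - (r - 2) = 2 := by omega
      rw [this]
    have h2 : a ^ 2 ^ (r - 2) ∈ Subgroup.zpowers (a ^ 2) := by
      obtain ⟨q, hq⟩ := Nat.exists_eq_add_of_le hr3
      have h3 : r - 2 = q + 1 := by omega
      rw [h3, pow_succ' 2 q, pow_mul]
      exact Subgroup.npow_mem_zpowers _ _
    have h3 := hAC.mem_zpowers (ha2c _ h2).eq.symm (hw4.trans h1.symm)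
    exact hwM₁ ((Subgroup.zpowers_le.mpr (pow_mem haM _)) h3)
  have ha2 : a ^ 2 ≠ 1 := by
    intro h1
    obtain ⟨n, hn⟩ := ha' c hcM₁
    simp only at hn
    have h2 : c = a := by
      rcases Int.even_or_odd' n with ⟨k, hk | hk⟩
      · exfalso
        apply hc1
        rw [← hn, hk, zpow_mul, zpow_ofNat, h1, one_zpow]
      · rw [← hn, hk, zpow_add, zpow_mul, zpow_ofNat, h1, one_zpow, one_mul, zpow_one]
    apply hc1
    have h3 : Commute a b := by rw [← h2]; exact hcb
    rw [hc, h3.eq]; group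
  have hca2 : c = a ^ 2 := by
    refine hAC.inv_eq ((hca.pow_right 2).eq) hcp hc1 ?_ ha2
    rw [← pow_mul]; exact ha4
  refine ⟨a, w, ha2, ha4, by rw [hw2, hca2], ?_⟩
  have h1 : y * a = a * y := ((Commute.refl a).zpow_left (-t)).eq
  have h2 : w * a = c⁻¹ * (a * w) := by
    rw [hw]
    calc y * b * a = y * (b * a) := mul_assoc _ _ _
      _ = y * (c⁻¹ * (a * b)) := by rw [hbab]
      _ = (y * c⁻¹) * (a * b) := by rw [mul_assoc]
      _ = (c⁻¹ * y) * (a * b) := by rw [(hcy.inv_left).eq]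
      _ = c⁻¹ * ((y * a) * b) := by simp only [mul_assoc]
      _ = c⁻¹ * (a * (y * b)) := by rw [h1]; simp only [mul_assoc]
  rw [h2, hca2]
  calc (a ^ 2)⁻¹ * (a * w) = ((a ^ 2)⁻¹ * a) * w := (mul_assoc _ _ _).symm
    _ = a⁻¹ * w := by congr 1; rw [pow_two, mul_inv_rev, mul_assoc, inv_mul_cancel, mul_one]

/-- a noncyclic `p`-subgroup contains the quaternion group -/
theorem quat_of_noncyclic [Finite G] (hAC : AC G) (p : ℕ) [hp : Fact p.Prime] (P : Subgroup G)
    (hP : IsPGroup p P) (hnc : ¬ IsCyclic P) : ∃ i ∈ P, ∃ x ∈ P, Quat i x := by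
  classical
  have hfin : Finite (Subgroup G) := inferInstance
  let S : Set (Subgroup G) := {Q | Q ≤ P ∧ ¬ IsCyclic Q}
  have hS : S.Nonempty := ⟨P, le_rfl, hnc⟩
  obtain ⟨Q, hQ⟩ := Set.Finite.exists_minimal (Set.toFinite S) hS
  obtain ⟨⟨hQP, hQc⟩, hmin⟩ := hQ
  have hQp : IsPGroup p Q := hP.to_le hQP
  obtain ⟨i, x, h1⟩ := quat_of_minimal (hAC.subgroup Q) p hQp hQc (by
    intro H hH
    have h1 : H.map Q.subtype ≤ Q := by
      rintro _ ⟨z, _, rfl⟩
      exact z.2
    have h2 : IsCyclic (H.map Q.subtype) := by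
      by_contra hcon
      have h3 : Q ≤ H.map Q.subtype := hmin ⟨h1.trans hQP, hcon⟩ h1
      apply hH
      rw [eq_top_iff]
      intro z _
      obtain ⟨z', hz', hzz⟩ := h3 z.2
      have : z' = z := Subtype.ext hzz
      rwa [← this]
    have e : H ≃* H.map Q.subtype := H.equivMapOfInjective Q.subtype Q.subtype_injective
    exact isCyclic_of_surjective e.symm e.symm.surjective)
  refine ⟨i, hQP i.2, x, hQP x.2, ?_⟩
  obtain ⟨h1, h2, h3, h4⟩ := h1
  refine ⟨fun h => h1 (Subtype.ext h), congrArg Subtype.val h2, congrArg Subtype.val h3,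
    congrArg Subtype.val h4⟩

end Pool.Agent.Helper82.EB
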