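import Mathlib
import Pool.Agent.Helper78.GroupBound
import Pool.Agent.Helper78.Extension
import Pool.Agent.Helper78.Assembly

/-!
# Explicit constants for the structure of finite groups acting freely on spheres

Rounding of matrix entries gives explicit nets in the orthogonal group, hence explicit bounds for
the index of a cyclic normal subgroup of a finite group acting freely on a sphere and for the number
of extensions with a given generator of a cyclic normal subgroup.
-/

set_option autoImplicit false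

namespace Pool.Agent.Helper82.EB

open Matrix Finset
open Pool.Agent.Helper78.Eigen Pool.Agent.Helper78.JordanFree Pool.Agent.Helper78.Frame
open Pool.Agent.Helper78.GroupBound Pool.Agent.Helper78.Extension Pool.Agent.Helper78
open Pool.Agent.Helper78.Assembly (ExtBound)
open scoped Matrix.Norms.L2Operator

lemma norm_single_le {𝕜 : Type*} [RCLike 𝕜] {N : ℕ} (i j : Fin N) (c : 𝕜) :
    ‖Matrix.single i j c‖ ≤ ‖c‖ := by
  have h1 : ‖Matrix.single i j c‖ * ‖Matrix.single i j c‖ ≤ ‖c‖ * ‖c‖ := by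
    rw [← CStarRing.norm_star_mul_self]
    have h2 : star (Matrix.single i j c) = Matrix.single j i (star c) := by
      rw [Matrix.star_eq_conjTranspose, Matrix.conjTranspose_single]
    rw [h2, Matrix.single_mul_single_same]
    have h3 : Matrix.single j j (star c * c) = Matrix.diagonal (Pi.single j (star c * c)) := by
      rw [Matrix.diagonal_single]
    rw [h3, Matrix.l2_opNorm_diagonal]
    rw [pi_norm_le_iff_of_nonneg (mul_nonneg (norm_nonneg _) (norm_nonneg _))]
    intro l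
    by_cases h : l = j
    · subst h
      rw [Pi.single_eq_same, norm_mul, norm_star]
    · rw [Pi.single_eq_of_ne h, norm_zero]
      exact mul_nonneg (norm_nonneg _) (norm_nonneg _)
  nlinarith [norm_nonneg (Matrix.single i j c), norm_nonneg c]

lemma norm_le_sum {𝕜 : Type*} [RCLike 𝕜] {N : ℕ} (A : Matrix (Fin N) (Fin N) 𝕜) :
    ‖A‖ ≤ ∑ i, ∑ j, ‖A i j‖ := by
  conv_lhs => rw [Matrix.matrix_eq_sum_single A]
  refine (norm_sum_le _ _).trans (Finset.sum_le_sum fun i _ => ?_)
  exact (norm_sum_le _ _).trans (Finset.sum_le_sum fun j _ => norm_single_le i j _)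

lemma norm_lt_half {𝕜 : Type*} [RCLike 𝕜] {N : ℕ} (hN : 0 < N) (A : Matrix (Fin N) (Fin N) 𝕜)
    (h : ∀ i j, ‖A i j‖ < 1 / (2 * (N * N : ℕ))) : ‖A‖ < 1 / 2 := by
  have hne : (univ : Finset (Fin N)).Nonempty := ⟨⟨0, hN⟩, mem_univ _⟩
  refine lt_of_le_of_lt (norm_le_sum A) ?_
  calc ∑ i, ∑ j, ‖A i j‖ < ∑ _i : Fin N, ∑ _j : Fin N, (1 / (2 * (N * N : ℕ)) : ℝ) :=
        Finset.sum_lt_sum_of_nonempty hne fun i _ =>
          Finset.sum_lt_sum_of_nonempty hne fun j _ => h i j
    _ = 1 / 2 := by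
      have hN' : (N : ℝ) ≠ 0 := by exact_mod_cast hN.ne'
      simp only [Finset.sum_const, Finset.card_univ, Fintype.card_fin, nsmul_eq_mul]
      push_cast
      field_simp

/-- the number of cells -/
def JJ (N : ℕ) : ℕ := (4 * (N * N) + 1) ^ (N * N)

lemma entry_le {N : ℕ} (g : Og N) (i j : Fin N) : |(g : Matrix (Fin N) (Fin N) ℝ) i j| ≤ 1 :=
  entry_norm_bound_of_unitary g.2 i j

/-- the cell of an orthogonal matrix -/
noncomputable def cell {N : ℕ} (g : Og N) : Fin N × Fin N → Fin (4 * (N * N) + 1) := fun p =>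
  ⟨⌊((g : Matrix (Fin N) (Fin N) ℝ) p.1 p.2 + 1) * (2 * (N * N : ℕ))⌋₊, by
    have h1 := abs_le.mp (entry_le g p.1 p.2)
    rw [Nat.lt_succ_iff]
    refine Nat.floor_le_of_le ?_
    push_cast
    have h2 : (0 : ℝ) ≤ (N : ℝ) * N := by positivity
    nlinarith [h1.2]⟩

lemma close_of_cell {N : ℕ} (hN : 0 < N) {g g' : Og N} (h : cell g = cell g') (i j : Fin N) :
    |(g : Matrix (Fin N) (Fin N) ℝ) i j - (g' : Matrix (Fin N) (Fin N) ℝ) i j|
      < 1 / (2 * (N * N : ℕ)) := by
  have h1 := congrArg Fin.val (congrFun h (i, j))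
  simp only [cell] at h1
  set x := (g : Matrix (Fin N) (Fin N) ℝ) i j with hx
  set y := (g' : Matrix (Fin N) (Fin N) ℝ) i j with hy
  have hx1 := abs_le.mp (entry_le g i j)
  have hy1 := abs_le.mp (entry_le g' i j)
  rw [← hx] at hx1
  rw [← hy] at hy1
  have hc : (0 : ℝ) < 2 * (N * N : ℕ) := by
    have : 0 < N * N := Nat.mul_pos hN hN
    have h2 : (0 : ℝ) < (N * N : ℕ) := by exact_mod_cast this
    linarith
  have hx2 : 0 ≤ (x + 1) * (2 * (N * N : ℕ)) := mul_nonneg (by linarith [hx1.1]) hc.le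
  have hy2 : 0 ≤ (y + 1) * (2 * (N * N : ℕ)) := mul_nonneg (by linarith [hy1.1]) hc.le
  have h3 := Nat.floor_le hx2
  have h4 := Nat.lt_floor_add_one ((x + 1) * (2 * (N * N : ℕ)))
  have h5 := Nat.floor_le hy2
  have h6 := Nat.lt_floor_add_one ((y + 1) * (2 * (N * N : ℕ)))
  rw [h1] at h3 h4
  have h7 : |x - y| * (2 * (N * N : ℕ))
      = |(x + 1) * (2 * (N * N : ℕ)) - (y + 1) * (2 * (N * N : ℕ))| := by
    rw [← sub_mul, abs_mul, abs_of_pos hc]
    congr 2
    ring
  rw [lt_div_iff₀ hc, h7, abs_lt]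
  constructor <;> linarith

lemma card_cells (N : ℕ) : Fintype.card (Fin N × Fin N → Fin (4 * (N * N) + 1)) = JJ N := by
  rw [Fintype.card_fun, Fintype.card_fin, Fintype.card_prod, Fintype.card_fin, JJ]

lemma norm_toR_lt {N : ℕ} (hN : 0 < N) {g g' : Og N} (h : cell g = cell g') :
    ‖toR N g - toR N g'‖ < 1 / 2 := by
  refine norm_lt_half hN _ fun i j => ?_
  rw [Matrix.sub_apply, Real.norm_eq_abs]
  exact close_of_cell hN h i j

lemma norm_toC_lt {N : ℕ} (hN : 0 < N) {g g' : Og N} (h : cell g = cell g') :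
    ‖toC N g - toC N g'‖ < 1 / 2 := by
  refine norm_lt_half hN _ fun i j => ?_
  have h1 : (toC N g - toC N g') i j
      = (((g : Matrix (Fin N) (Fin N) ℝ) i j - (g' : Matrix (Fin N) (Fin N) ℝ) i j : ℝ) : ℂ) := by
    rw [Matrix.sub_apply, toC_eq, toC_eq, Matrix.map_apply, Matrix.map_apply]
    push_cast
    rfl
  rw [h1, Complex.norm_real, Real.norm_eq_abs]
  exact close_of_cell hN h i j

/-- explicit bound for the index of the core -/
theorem index_bound {N : ℕ} (hN : 0 < N) (Γ : Subgroup (Og N)) [Finite Γ] :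
    (core ((toC N).comp Γ.subtype)).index ≤ JJ N := by
  classical
  set ρ : Γ →* Matrix (Fin N) (Fin N) ℂ := (toC N).comp Γ.subtype with hρ
  have hnorm : ∀ g, ‖ρ g‖ ≤ 1 := fun g => Extension.norm_toC (g : Og N)
  have : Fintype Γ := Fintype.ofFinite Γ
  have : Finite (Γ ⧸ core ρ) := inferInstance
  have : Fintype (Γ ⧸ core ρ) := Fintype.ofFinite _
  rw [Subgroup.index_eq_card, Nat.card_eq_fintype_card, ← card_cells]
  refine Fintype.card_le_of_injective (fun q : Γ ⧸ core ρ => cell ((q.out : Γ) : Og N)) ?_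
  intro p q hpq
  simp only at hpq
  rw [← p.out_eq', ← q.out_eq']
  rw [QuotientGroup.eq]
  apply Subgroup.subset_closure
  change ‖ρ (p.out⁻¹ * q.out) - 1‖ < 1 / 2
  have h1 : ρ (p.out⁻¹ * q.out) - 1 = ρ p.out⁻¹ * (ρ q.out - ρ p.out) := by
    rw [mul_sub, ← map_mul, ← map_mul, inv_mul_cancel, map_one]
  rw [h1]
  have h2 : ‖ρ q.out - ρ p.out‖ < 1 / 2 := norm_toC_lt hN hpq.symm
  calc ‖ρ p.out⁻¹ * (ρ q.out - ρ p.out)‖ ≤ ‖ρ p.out⁻¹‖ * ‖ρ q.out - ρ p.out‖ :=
        norm_mul_le _ _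
    _ ≤ 1 * ‖ρ q.out - ρ p.out‖ := by gcongr; exact hnorm _
    _ < 1 / 2 := by rw [one_mul]; exact h2

/-- `G` has a cyclic normal subgroup of index at most `κ` -/
def HasCN (G : Type*) [Group G] (κ : ℕ) : Prop :=
  ∃ C : Subgroup G, C.Normal ∧ IsCyclic C ∧ C.index ≤ κ

/-- every finite group acting freely has a cyclic normal subgroup of index at most `JJ N` -/
theorem hasCN_JJ {N : ℕ} (hN : 0 < N) (Γ : Subgroup (Og N)) [Finite Γ] (hfree : Free Γ) :
    HasCN Γ (JJ N) := by
  classical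
  let ρ : Γ →* Matrix (Fin N) (Fin N) ℂ := (toC N).comp Γ.subtype
  have hρn : ∀ g, ‖ρ g‖ ≤ 1 := fun g => Extension.norm_toC (g : Og N)
  have hρi : Function.Injective ρ := (toC_injective N).comp Subtype.coe_injective
  refine ⟨core ρ, core_normal ρ hρn, ?_, index_bound hN Γ⟩
  have hCc := core_comm ρ hρn hρi
  have : Nonempty (Fin N) := ⟨⟨0, hN⟩⟩
  refine cyclic_of_free (V := Fin N → ℂ)
    (fun x y => Subtype.ext (hCc x.1 x.2 y.1 y.2))
    ((rep N).comp (Γ.subtype.comp (core ρ).subtype)) ?_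
  intro h hh v hv
  by_contra hv0
  have h1 : (toC N ((h : Γ) : Og N)).mulVec v = v := hv
  obtain ⟨w, hw0, hw⟩ := fixed_real _ v hv0 h1
  exact hw0 (hfree h.1.1 h.1.2 (fun h0 => hh (Subtype.ext (Subtype.ext h0))) w hw)

/-- The structure theorem with explicit constant. -/
theorem structC (N κ : ℕ) (hN : 0 < N) (Γ : Subgroup (Og N)) (hfin : Finite Γ)
    (hfree : Free Γ) (C : Subgroup Γ) (hCn : C.Normal) (hCcyc : IsCyclic C) (hCidx : C.index ≤ κ) :
    ∃ k e : ℕ, 0 < k ∧ k ≤ κ ∧ 0 < e ∧ Nat.card Γ = k * e ∧ ∀ ζ : ℂ, IsPrimitiveRoot ζ e →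
      (∃ g ∈ Γ, ζ ∈ ev g) ∧
      (∀ g ∈ Γ, ζ ∈ ev g → orderOf g = e ∧ ∀ γ ∈ Γ, γ * g ^ k * γ⁻¹ ∈ Subgroup.zpowers (g ^ k)) ∧
      (∀ s : Finset (Og N), (∀ x ∈ s, x ∈ Γ ∧ ζ ∈ ev x) → s.card ≤ N * (k * k)) := by
  classical
  have : Fintype Γ := Fintype.ofFinite Γ
  set k := C.index with hk
  set e := Nat.card C with he
  have hk0 : 0 < k := Nat.pos_of_ne_zero Subgroup.index_ne_zero_of_finite
  have he0 : 0 < e := Nat.card_pos
  have hcard : Nat.card Γ = k * e := by
    rw [mul_comm]; exact (Subgroup.card_mul_index C).symm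
  refine ⟨k, e, hk0, hCidx, he0, hcard, ?_⟩
  intro ζ hζ
  -- order of elements with eigenvalue `ζ`
  have hord : ∀ g ∈ Γ, ζ ∈ ev g → orderOf g = e := by
    intro g hg hgζ
    have h1 := isPrimitiveRoot_of_mem_ev hfree hg (isOfFinOrder_of_mem hg) hgζ
    exact h1.unique hζ
  -- powers in the core
  have hpowC : ∀ g : Γ, g ^ k ∈ C := fun g => Subgroup.pow_index_mem C g
  -- two elements of the core of the same order
  have hCord : ∀ x ∈ C, ∀ y ∈ C, orderOf x = orderOf y → x ∈ Subgroup.zpowers y := by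
    intro x hx y hy hxy
    have h1 : orderOf (⟨x, hx⟩ : C) = orderOf (⟨y, hy⟩ : C) := by
      rw [← Subgroup.orderOf_coe (⟨x, hx⟩ : C), ← Subgroup.orderOf_coe (⟨y, hy⟩ : C)]
      exact hxy
    obtain ⟨n, hn⟩ := mem_zpowers_of_orderOf_eq h1
    refine ⟨n, ?_⟩
    have := congrArg Subtype.val hn
    simpa using this
  refine ⟨?_, ?_, ?_⟩
  · -- existence
    obtain ⟨c, hc⟩ := hCcyc.exists_generator
    have hco : orderOf c = e := by
      rw [he, ← Nat.card_zpowers c]
      have : Subgroup.zpowers c = ⊤ := by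
        rw [eq_top_iff]; intro x _; exact hc x
      rw [this]
      exact Subgroup.card_top
    set c' : Og N := ((c : Γ) : Og N) with hc'
    have hc'Γ : c' ∈ Γ := (c : Γ).2
    have hc'o : orderOf c' = e := by
      rw [hc', Subgroup.orderOf_coe, Subgroup.orderOf_coe, hco]
    have hfo := isOfFinOrder_of_mem (Γ := Γ) hc'Γ
    have hcard : 0 < Multiset.card (ev c') := by rw [card_ev hfo]; exact hN
    obtain ⟨μ, hμ⟩ := Multiset.card_pos_iff_exists_mem.mp hcard
    have hμp := isPrimitiveRoot_of_mem_ev hfree hc'Γ hfo hμ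
    rw [hc'o] at hμp
    have : NeZero e := ⟨he0.ne'⟩
    obtain ⟨u, _, hu⟩ := hμp.eq_pow_of_pow_eq_one hζ.pow_eq_one
    refine ⟨c' ^ u, pow_mem hc'Γ u, ?_⟩
    rw [ev_pow hfo, Multiset.mem_map]
    exact ⟨μ, hμ, hu⟩
  · intro g hg hgζ
    refine ⟨hord g hg hgζ, ?_⟩
    intro γ hγ
    have h1 := hpowC ⟨g, hg⟩
    have h2 := hCn.conj_mem _ h1 ⟨γ, hγ⟩
    have h3 : orderOf ((⟨γ, hγ⟩ : Γ) * (⟨g, hg⟩ : Γ) ^ k * (⟨γ, hγ⟩ : Γ)⁻¹)
        = orderOf ((⟨g, hg⟩ : Γ) ^ k) := by
      have := (MulAut.conj (⟨γ, hγ⟩ : Γ)).orderOf_eq ((⟨g, hg⟩ : Γ) ^ k)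
      rw [MulAut.conj_apply] at this
      exact this
    obtain ⟨n, hn⟩ := hCord _ h2 _ h1 h3
    refine ⟨n, ?_⟩
    have := congrArg Subtype.val hn
    simpa using this
  · intro s hs
    rcases s.eq_empty_or_nonempty with h0 | ⟨g₁, hg₁⟩
    · rw [h0]; simp
    obtain ⟨hg₁Γ, hg₁ζ⟩ := hs g₁ hg₁
    let G₁ : Γ := ⟨g₁, hg₁Γ⟩
    -- the subgroup `D`
    set D : Subgroup Γ := Subgroup.zpowers (G₁ ^ k) with hD
    have hG₁o : orderOf G₁ = e := by
      rw [← Subgroup.orderOf_coe]; exact hord g₁ hg₁Γ hg₁ζ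
    have hcommD : ∀ g : Γ, ζ ∈ ev (g : Og N) → Commute g (G₁ ^ k) := by
      intro g hg
      have h1 : orderOf g = e := by
        rw [← Subgroup.orderOf_coe]; exact hord g g.2 hg
      have h2 : orderOf (G₁ ^ k) = orderOf (g ^ k) := by
        rw [orderOf_pow, orderOf_pow, h1, hG₁o]
      obtain ⟨n, hn⟩ := hCord _ (hpowC G₁) _ (hpowC g) h2
      simp only at hn
      rw [← hn]
      exact ((Commute.refl g).pow_right k).zpow_right n
    have hDcard : Nat.card D = e / Nat.gcd e k := by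
      rw [hD, Nat.card_zpowers, orderOf_pow, hG₁o]
    have hidx : Nat.card (Γ ⧸ D) ≤ k * k := by
      have h1 := Subgroup.card_eq_card_quotient_mul_card_subgroup D
      rw [hcard, hDcard] at h1
      have h2 : Nat.gcd e k ∣ e := Nat.gcd_dvd_left e k
      have h3 : 0 < e / Nat.gcd e k :=
        Nat.div_pos (Nat.le_of_dvd he0 h2) (Nat.gcd_pos_of_pos_left _ he0)
      have h4 : Nat.gcd e k ≤ k := Nat.gcd_le_right _ hk0
      have h5 : Nat.card (Γ ⧸ D) * (e / Nat.gcd e k)
          = (k * Nat.gcd e k) * (e / Nat.gcd e k) := by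
        rw [← h1, mul_assoc, Nat.mul_div_cancel' h2]
      have h6 := Nat.eq_of_mul_eq_mul_right h3 h5
      rw [h6]
      exact Nat.mul_le_mul_left k h4
    have : Fintype (Γ ⧸ D) := Fintype.ofFinite _
    -- work with a finset of `Γ`
    set s' : Finset Γ := univ.filter fun x => (x : Og N) ∈ s with hs'
    have hss : s.card = s'.card := by
      have : s = s'.image Subtype.val := by
        ext x
        rw [mem_image]
        constructor
        · intro hx
          exact ⟨⟨x, (hs x hx).1⟩, by rw [hs', mem_filter]; exact ⟨mem_univ _, hx⟩, rfl⟩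
        · rintro ⟨y, hy, rfl⟩
          exact (mem_filter.mp hy).2
      rw [this, Finset.card_image_of_injective _ Subtype.val_injective]
    rw [hss]
    have hfib : ∀ q ∈ s'.image (fun x : Γ => (QuotientGroup.mk x : Γ ⧸ D)),
        (s'.filter fun x => (QuotientGroup.mk x : Γ ⧸ D) = q).card ≤ N := by
      intro q hq
      obtain ⟨z, hz, rfl⟩ := mem_image.mp hq
      have hzs := (mem_filter.mp hz).2
      have hzζ := (hs _ hzs).2
      -- the commutative group generated by `z` and `D`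
      set H : Subgroup (Og N) := Subgroup.closure {(z : Og N), ((G₁ ^ k : Γ) : Og N)} with hH
      have hHle : H ≤ Γ := by
        rw [hH, Subgroup.closure_le]
        rintro x (rfl | rfl)
        · exact z.2
        · exact (G₁ ^ k).2
      have hHfin : Finite H := Finite.of_injective _ (Subgroup.inclusion_injective hHle)
      have hHfree : Free H := fun g hg => hfree g (hHle hg)
      have hzD : (z : Og N) * ((G₁ ^ k : Γ) : Og N) = ((G₁ ^ k : Γ) : Og N) * (z : Og N) := by
        have := congrArg Subtype.val (hcommD z hzζ).eq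
        simpa using this
      have hHcomm : ∀ x ∈ H, ∀ y ∈ H, x * y = y * x := by
        have h1 : ∀ x ∈ ({(z : Og N), ((G₁ ^ k : Γ) : Og N)} : Set (Og N)),
            ∀ y ∈ ({(z : Og N), ((G₁ ^ k : Γ) : Og N)} : Set (Og N)), x * y = y * x := by
          rintro x (rfl | rfl) y (rfl | rfl)
          · rfl
          · exact hzD
          · exact hzD.symm
          · rfl
        intro x hx y hy
        rw [hH] at hx hy
        induction hx, hy using Subgroup.closure_induction₂ with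
        | mem a b ha hb => exact h1 a ha b hb
        | one_left x _ => rw [one_mul, mul_one]
        | one_right x _ => rw [one_mul, mul_one]
        | mul_left x y z _ _ _ h1 h2 => rw [mul_assoc, h2, ← mul_assoc, h1, mul_assoc]
        | mul_right y z x _ _ _ h1 h2 => rw [← mul_assoc, h1, mul_assoc, h2, mul_assoc]
        | inv_left x y _ _ h =>
          calc x⁻¹ * y = x⁻¹ * (y * x) * x⁻¹ := by group
            _ = x⁻¹ * (x * y) * x⁻¹ := by rw [h]
            _ = y * x⁻¹ := by group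
        | inv_right x y _ _ h =>
          calc x * y⁻¹ = y⁻¹ * (y * x) * y⁻¹ := by group
            _ = y⁻¹ * (x * y) * y⁻¹ := by rw [h]
            _ = y⁻¹ * x := by group
      have h2 := comm_count hN H hHfree hHcomm ζ
        ((s'.filter fun x => (QuotientGroup.mk x : Γ ⧸ D) = QuotientGroup.mk z).image
          Subtype.val) ?_
      · rwa [Finset.card_image_of_injective _ Subtype.val_injective] at h2
      · intro x hx
        obtain ⟨y, hy, rfl⟩ := mem_image.mp hx
        obtain ⟨hy1, hy2⟩ := mem_filter.mp hy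
        refine ⟨?_, (hs _ (mem_filter.mp hy1).2).2⟩
        have h3 : z⁻¹ * y ∈ D := QuotientGroup.eq.mp hy2.symm
        obtain ⟨n, hn⟩ := h3
        have h4 : (y : Og N) = (z : Og N) * ((G₁ ^ k : Γ) : Og N) ^ n := by
          have h5 : ((G₁ ^ k : Γ) : Og N) ^ n = (z : Og N)⁻¹ * (y : Og N) := by
            have h6 := congrArg Subtype.val hn
            simpa using h6
          rw [h5]; group
        have hzH : (z : Og N) ∈ H := Subgroup.subset_closure (Set.mem_insert _ _)
        have hGH : ((G₁ ^ k : Γ) : Og N) ∈ H :=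
          Subgroup.subset_closure (Set.mem_insert_of_mem _ (Set.mem_singleton _))
        rw [h4]
        exact mul_mem hzH (zpow_mem hGH n)
    calc s'.card ≤ N * (s'.image (fun x : Γ => (QuotientGroup.mk x : Γ ⧸ D))).card :=
          Finset.card_le_mul_card_image _ _ hfib
      _ ≤ N * (k * k) := by
          refine Nat.mul_le_mul_left N (le_trans (Finset.card_le_univ _) ?_)
          rw [← Nat.card_eq_fintype_card]
          exact hidx

/-- the bound for the number of extensions -/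
def BE (N m : ℕ) : ℕ := (m ^ m) ^ m * (m ^ m * (N ^ m * ((m ^ m) ^ m * (JJ N) ^ m)))

/-- Bounded number of extensions, with explicit constant. -/
theorem extension' (N m : ℕ) (hN : 0 < N) (hm : 0 < m) : ExtBound N m (BE N m) := by
  classical
  intro c F _ G hfo hF hcard
  set e := orderOf c with he
  have hepos : 0 < e := hfo.orderOf_pos
  have : NeZero e := ⟨hepos.ne'⟩
  -- choose normal frames
  have hfr : ∀ Γ : F, ∃ F' : Fr c e m (G Γ), ∃ ρ : Fin m → Fin m, ∀ i j,
      (m : ZMod e) * F'.x i j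
      = ((ρ i : ℕ) : ZMod e) + F'.r i * ((ρ j : ℕ) : ZMod e) - ((ρ (F'.τ i j) : ℕ) : ZMod e) := by
    intro Γ
    obtain ⟨h1, _, h3, h4⟩ := hF Γ
    obtain ⟨F0⟩ := exists_frame he.symm (G Γ) h1 h3 h4 hm
    exact Fr.exists_normal he.symm F0 hm
  choose fr ρ hρ using hfr
  have hfreec : ∀ Γ : F, ∀ k : ℕ, c ^ k ≠ 1 → ∀ v : Fin N → ℝ,
      ((c ^ k : Og N) : Matrix (Fin N) (Fin N) ℝ).mulVec v = v → v = 0 := by
    intro Γ k hk v hv
    obtain ⟨h1, h2, _, _⟩ := hF Γ
    exact h2 _ (pow_mem h1 k) hk v hv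
  have hr : ∀ Γ : F, ∀ i, (fr Γ).r i ∈ expSet c e := by
    intro Γ i
    unfold expSet
    rw [Finset.mem_filter]
    exact ⟨Finset.mem_univ _, (fr Γ).γ i, (fr Γ).conj i⟩
  let lab : F → (Fin m → Fin m → Fin m) × (Fin m → Fin m) × (Fin m → expSet c e) ×
      (Fin m → Fin m → Fin m) × (Fin m → Fin N × Fin N → Fin (4 * (N * N) + 1)) := fun Γ =>
    ((fr Γ).τ, ρ Γ, fun i => ⟨(fr Γ).r i, hr Γ i⟩,
      fun i j => ⟨(m * ((fr Γ).x i j).val) / e, by
        rw [Nat.div_lt_iff_lt_mul hepos]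
        exact Nat.mul_lt_mul_of_pos_left (ZMod.val_lt _) hm⟩,
      fun i => cell ((fr Γ).γ i))
  have hne : Nonempty F := Fintype.card_pos_iff.mp (by omega)
  obtain ⟨Γ₀⟩ := hne
  have hcardlt : Fintype.card ((Fin m → Fin m → Fin m) × (Fin m → Fin m) × (Fin m → expSet c e) ×
      (Fin m → Fin m → Fin m) × (Fin m → Fin N × Fin N → Fin (4 * (N * N) + 1))) < Fintype.card F := by
    refine lt_of_le_of_lt ?_ hcard
    unfold BE
    rw [Fintype.card_prod, Fintype.card_prod, Fintype.card_prod, Fintype.card_prod,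
      Fintype.card_fun, Fintype.card_fun, Fintype.card_fun, Fintype.card_fun,
      Fintype.card_fin, Fintype.card_coe, card_cells]
    have h1 := card_expSet_le hN c e he.symm (hfreec Γ₀)
    gcongr
  obtain ⟨Γ, Γ', hΓne, hlab⟩ := Fintype.exists_ne_map_eq_of_card_lt lab hcardlt
  simp only [lab, Prod.mk.injEq] at hlab
  obtain ⟨hτ, hρ', hr', hq, hy⟩ := hlab
  have hrr : (fr Γ).r = (fr Γ').r := by
    funext i
    exact congrArg Subtype.val (congrFun hr' i)
  have hxx : (fr Γ).x = (fr Γ').x := by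
    funext i j
    have h1 := hρ Γ i j
    have h2 := hρ Γ' i j
    rw [← hρ', ← hrr, ← hτ] at h2
    have h3 := congrArg Fin.val (congrFun (congrFun hq i) j)
    exact solution_unique hm h1 h2 h3
  refine ⟨Γ, Γ', hΓne, ?_⟩
  obtain ⟨φ, hφ1, hφ2⟩ := exists_hom he.symm (fr Γ) (fr Γ') hτ hrr hxx
  have hfin : Finite (G Γ) := by
    apply Nat.finite_of_card_ne_zero
    rw [(hF Γ).2.2.2]
    exact (Nat.mul_pos hm hepos).ne'
  refine conj_of_close (G Γ) (G Γ') φ hφ2 ?_
  intro y
  obtain ⟨a, i, h1, h2⟩ := hφ1 y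
  have h3 : toR N (φ y) - toR N (y : Og N)
      = toR N (cp c e a) * (toR N ((fr Γ').γ i) - toR N ((fr Γ).γ i)) := by
    rw [h2, h1, mul_sub, map_mul, map_mul]
  rw [h3]
  have h4 : ‖toR N ((fr Γ').γ i) - toR N ((fr Γ).γ i)‖
      < 1 := by
    exact (norm_toR_lt hN (congrFun hy i).symm).trans (by norm_num)
  calc ‖toR N (cp c e a) * (toR N ((fr Γ').γ i)
        - toR N ((fr Γ).γ i))‖
      ≤ ‖toR N (cp c e a)‖ * ‖toR N ((fr Γ').γ i)
        - toR N ((fr Γ).γ i)‖ := norm_mul_le _ _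
    _ ≤ 1 * ‖toR N ((fr Γ').γ i)
        - toR N ((fr Γ).γ i)‖ := by gcongr; exact norm_Og _
    _ < 1 := by rw [one_mul]; exact h4

end Pool.Agent.Helper82.EB
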