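import Mathlib
import Pool.Agent.Helper82.EB.Grp
import Pool.Agent.Helper82.EB.Net

/-!
# Cyclic normal subgroups of small index in finite groups acting freely on spheres

If `4` does not divide `N`, or if the group is solvable, then a finite subgroup of `O(N)` acting
freely on the sphere has a cyclic normal subgroup of index at most `64 N`.
-/

set_option autoImplicit false

namespace Pool.Agent.Helper82.EB

open Matrix Finset
open Pool.Agent.Helper78.Eigen Pool.Agent.Helper78.GroupBound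

lemma HasCN.mono {G : Type*} [Group G] {κ κ' : ℕ} (h : HasCN G κ) (hk : κ ≤ κ') :
    HasCN G κ' := by
  obtain ⟨C, h1, h2, h3⟩ := h
  exact ⟨C, h1, h2, h3.trans hk⟩

lemma hasCN_of_cyclic {G : Type*} [Group G] (h : IsCyclic G) : HasCN G 1 := by
  refine ⟨⊤, inferInstance, ?_, ?_⟩
  · exact isCyclic_of_surjective (Subgroup.topEquiv (G := G)).symm Subgroup.topEquiv.symm.surjective
  · rw [Subgroup.index_top]

lemma ac_of_free {N : ℕ} (hN : 0 < N) (Γ : Subgroup (Og N)) [Finite Γ] (hfree : Free Γ) :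
    AC Γ := by
  intro H hH
  have hle : H.map Γ.subtype ≤ Γ := by
    rintro _ ⟨x, _, rfl⟩
    exact x.2
  have hfin : Finite (H.map Γ.subtype) :=
    Finite.of_injective _ (Subgroup.inclusion_injective hle)
  have h1 : IsCyclic (H.map Γ.subtype) := by
    refine isCyclic_of_comm hN _ (fun g hg => hfree g (hle hg)) ?_
    rintro _ ⟨x, hx, rfl⟩ _ ⟨y, hy, rfl⟩
    rw [← map_mul, ← map_mul, hH x hx y hy]
  have e : H ≃* H.map Γ.subtype := H.equivMapOfInjective Γ.subtype Γ.subtype_injective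
  exact isCyclic_of_surjective e.symm e.symm.surjective

/-- a cyclic normal subgroup has a centralizer of index at most `N` -/
lemma index_centralizer_le {N : ℕ} (hN : 0 < N) (Γ : Subgroup (Og N)) [Finite Γ]
    (hfree : Free Γ) (A : Subgroup Γ) (hAn : A.Normal) (hA : IsCyclic A) :
    (Subgroup.centralizer (A : Set Γ)).index ≤ N := by
  classical
  obtain ⟨⟨a, haA⟩, ha⟩ := hA.exists_generator
  have ha' : ∀ x ∈ A, x ∈ Subgroup.zpowers a := by
    intro x hx
    obtain ⟨n, hn⟩ := ha ⟨x, hx⟩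
    exact ⟨n, by simpa using congrArg Subtype.val hn⟩
  have : Fintype Γ := Fintype.ofFinite Γ
  set C := Subgroup.centralizer (A : Set Γ) with hC
  have : Finite (Γ ⧸ C) := inferInstance
  have : Fintype (Γ ⧸ C) := Fintype.ofFinite _
  have hle : A.map Γ.subtype ≤ Γ := by
    rintro _ ⟨x, _, rfl⟩
    exact x.2
  have hfin : Finite (A.map Γ.subtype) :=
    Finite.of_injective _ (Subgroup.inclusion_injective hle)
  have hafo : IsOfFinOrder (a : Og N) := isOfFinOrder_of_mem a.2
  have hcard : 0 < Multiset.card (ev (a : Og N)) := by rw [card_ev hafo]; exact hN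
  obtain ⟨μ, hμ⟩ := Multiset.card_pos_iff_exists_mem.mp hcard
  let f : Γ ⧸ C → Og N := fun q => ((q.out * a * q.out⁻¹ : Γ) : Og N)
  have hf : Function.Injective f := by
    intro p q hpq
    have h1 : p.out * a * p.out⁻¹ = q.out * a * q.out⁻¹ := Subtype.ext hpq
    rw [← p.out_eq', ← q.out_eq', QuotientGroup.eq]
    have h2 : Commute (p.out⁻¹ * q.out) a := by
      change (p.out⁻¹ * q.out) * a = a * (p.out⁻¹ * q.out)
      calc (p.out⁻¹ * q.out) * a = p.out⁻¹ * (q.out * a * q.out⁻¹) * q.out := by group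
        _ = p.out⁻¹ * (p.out * a * p.out⁻¹) * q.out := by rw [h1]
        _ = a * (p.out⁻¹ * q.out) := by group
    change _ ∈ Subgroup.centralizer (A : Set Γ)
    rw [Subgroup.mem_centralizer_iff]
    intro x hx
    obtain ⟨n, hn⟩ := ha' x hx
    simp only at hn
    rw [← hn]
    exact ((h2.zpow_right n).eq).symm
  have h1 := comm_count hN (A.map Γ.subtype) (fun g hg => hfree g (hle hg)) (by
    rintro _ ⟨x, hx, rfl⟩ _ ⟨y, hy, rfl⟩
    rw [← map_mul, ← map_mul]
    congr 1
    obtain ⟨n, hn⟩ := ha' x hx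
    obtain ⟨m, hm⟩ := ha' y hy
    simp only at hn hm
    rw [← hn, ← hm, ← _root_.zpow_add, ← _root_.zpow_add, add_comm]) μ (univ.image f) (by
    intro x hx
    obtain ⟨q, _, rfl⟩ := mem_image.mp hx
    refine ⟨⟨q.out * a * q.out⁻¹, hAn.conj_mem a haA _, rfl⟩, ?_⟩
    have h2 : ((q.out * a * q.out⁻¹ : Γ) : Og N)
        = (q.out : Og N) * (a : Og N) * (q.out : Og N)⁻¹ := by push_cast; rfl
    change μ ∈ ev ((q.out * a * q.out⁻¹ : Γ) : Og N)
    rw [h2, ev_conj]
    exact hμ)
  rw [Finset.card_image_of_injective _ hf, Finset.card_univ] at h1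
  rw [Subgroup.index_eq_card, Nat.card_eq_fintype_card]
  exact h1

lemma neg_of_invol {N : ℕ} {Γ : Subgroup (Og N)} (hfree : Free Γ) {z : Og N} (hz : z ∈ Γ)
    (h2 : z ^ 2 = 1) (hz1 : z ≠ 1) : (z : Matrix (Fin N) (Fin N) ℝ) = -1 := by
  have h3 : (z : Matrix (Fin N) (Fin N) ℝ) * (z : Matrix (Fin N) (Fin N) ℝ) = 1 := by
    have := congrArg (fun g : Og N => (g : Matrix (Fin N) (Fin N) ℝ)) h2
    rw [pow_two] at this
    exact this
  have h4 : ∀ v : Fin N → ℝ, (z : Matrix (Fin N) (Fin N) ℝ).mulVec v + v = 0 := by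
    intro v
    refine hfree z hz hz1 _ ?_
    rw [Matrix.mulVec_add, Matrix.mulVec_mulVec, h3, Matrix.one_mulVec, add_comm]
  ext i j
  have h5 := congrFun (h4 (Pi.single j 1)) i
  rw [Matrix.mulVec_single_one] at h5
  simp only [Pi.add_apply, Pi.zero_apply, Matrix.col_apply] at h5
  rw [Matrix.neg_apply, Matrix.one_apply]
  by_cases hij : i = j
  · subst hij
    rw [Pi.single_eq_same] at h5
    rw [if_pos rfl]
    linarith
  · rw [Pi.single_eq_of_ne hij] at h5
    rw [if_neg hij]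
    linarith

lemma four_dvd {V : Type*} [AddCommGroup V] [Module ℝ V] (I X : Module.End ℝ V)
    (hI : I * I = -1) (hX : X * X = -1) (h : X * I = -(I * X)) :
    4 ∣ Module.finrank ℝ V := by
  let B : QuaternionAlgebra.Basis (Module.End ℝ V) (-1 : ℝ) 0 (-1) :=
    { i := I
      j := X
      k := I * X
      i_mul_i := by rw [hI]; simp
      j_mul_j := by rw [hX]; simp
      i_mul_j := rfl
      j_mul_i := by rw [h]; simp }
  let f : Quaternion ℝ →ₐ[ℝ] Module.End ℝ V := B.liftHom
  let _ : Module (Quaternion ℝ) V := Module.compHom V (f : Quaternion ℝ →+* Module.End ℝ V)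
  have hst : IsScalarTower ℝ (Quaternion ℝ) V := by
    refine ⟨fun r q v => ?_⟩
    change f (r • q) v = r • f q v
    rw [map_smul]
    rfl
  have h1 := Module.finrank_mul_finrank ℝ (Quaternion ℝ) V
  rw [Quaternion.finrank_eq_four] at h1
  exact Dvd.intro _ h1

lemma quat_dvd {N : ℕ} {Γ : Subgroup (Og N)} (hfree : Free Γ) {i x : Og N} (hi : i ∈ Γ)
    (hq : Quat i x) : 4 ∣ N := by
  obtain ⟨h1, h2, h3, h4⟩ := hq
  have hz := neg_of_invol hfree (pow_mem hi 2) (by rw [← pow_mul]; exact h2) h1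
  have hI : (i : Matrix (Fin N) (Fin N) ℝ) * (i : Matrix (Fin N) (Fin N) ℝ) = -1 := by
    rw [← hz, pow_two]; rfl
  have hX : (x : Matrix (Fin N) (Fin N) ℝ) * (x : Matrix (Fin N) (Fin N) ℝ) = -1 := by
    rw [← hz, ← h3, pow_two]; rfl
  have hinv : ((i⁻¹ : Og N) : Matrix (Fin N) (Fin N) ℝ) = -(i : Matrix (Fin N) (Fin N) ℝ) := by
    have h5 : i⁻¹ = i ^ 2 * i := by
      rw [inv_eq_iff_mul_eq_one, ← pow_succ, ← pow_succ']
      exact h2
    rw [h5]
    change ((i ^ 2 : Og N) : Matrix (Fin N) (Fin N) ℝ) * (i : Matrix (Fin N) (Fin N) ℝ) = _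
    rw [hz, neg_one_mul]
  have hXI : (x : Matrix (Fin N) (Fin N) ℝ) * (i : Matrix (Fin N) (Fin N) ℝ)
      = -((i : Matrix (Fin N) (Fin N) ℝ) * (x : Matrix (Fin N) (Fin N) ℝ)) := by
    have h5 := congrArg (fun g : Og N => (g : Matrix (Fin N) (Fin N) ℝ)) h4
    change (x : Matrix (Fin N) (Fin N) ℝ) * (i : Matrix (Fin N) (Fin N) ℝ)
      = ((i⁻¹ : Og N) : Matrix (Fin N) (Fin N) ℝ) * (x : Matrix (Fin N) (Fin N) ℝ) at h5
    rw [h5, hinv, neg_mul]
  have h6 := four_dvd (V := Fin N → ℝ) (Matrix.toLin' (i : Matrix (Fin N) (Fin N) ℝ))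
    (Matrix.toLin' (x : Matrix (Fin N) (Fin N) ℝ)) (by
      change Matrix.toLin' _ ∘ₗ Matrix.toLin' _ = _
      rw [← Matrix.toLin'_mul, hI, map_neg, Matrix.toLin'_one]; rfl) (by
      change Matrix.toLin' _ ∘ₗ Matrix.toLin' _ = _
      rw [← Matrix.toLin'_mul, hX, map_neg, Matrix.toLin'_one]; rfl) (by
      change Matrix.toLin' _ ∘ₗ Matrix.toLin' _ = -(Matrix.toLin' _ ∘ₗ Matrix.toLin' _)
      rw [← Matrix.toLin'_mul, ← Matrix.toLin'_mul, hXI, map_neg])
  rwa [Module.finrank_fin_fun] at h6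

/-- a normal subgroup whose Sylow subgroups are cyclic -/
lemma hasCN_of_z {N : ℕ} (hN : 0 < N) (Γ : Subgroup (Og N)) [Finite Γ] (hfree : Free Γ)
    (D : Subgroup Γ) (hDn : D.Normal) (hZ : IsZGroup D) : HasCN Γ (N * D.index) := by
  have hAC := ac_of_free hN Γ hfree
  have hA : IsCyclic (⁅D, D⁆ : Subgroup Γ) := by
    have h1 : IsCyclic (commutator D) := IsZGroup.isCyclic_commutator D
    rw [← Subgroup.map_subtype_commutator]
    have e : commutator D ≃* (commutator D).map D.subtype :=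
      (commutator D).equivMapOfInjective D.subtype D.subtype_injective
    exact isCyclic_of_surjective e e.surjective
  have hAn : (⁅D, D⁆ : Subgroup Γ).Normal := Subgroup.commutator_normal D D
  have hidx := index_centralizer_le hN Γ hfree _ hAn hA
  set C := Subgroup.centralizer ((⁅D, D⁆ : Subgroup Γ) : Set Γ) ⊓ D with hC
  have hCn : C.Normal := by
    have h1 : (Subgroup.centralizer ((⁅D, D⁆ : Subgroup Γ) : Set Γ)).Normal := inferInstance
    rw [hC]
    infer_instance
  refine ⟨C, hCn, ?_, ?_⟩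
  · refine hAC C ?_
    have hCD : C ≤ D := inf_le_right
    let f : C →* Abelianization D := Abelianization.of.comp (Subgroup.inclusion hCD)
    have hf : f.ker ≤ Subgroup.center C := by
      intro x hx
      rw [MonoidHom.mem_ker] at hx
      have h1 : Subgroup.inclusion hCD x ∈ commutator D := by
        rw [← Abelianization.ker_of]
        exact hx
      have h2 : (x : Γ) ∈ (⁅D, D⁆ : Subgroup Γ) := by
        rw [← Subgroup.map_subtype_commutator]
        exact ⟨_, h1, rfl⟩
      rw [Subgroup.mem_center_iff]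
      intro y
      have h3 : (y : Γ) ∈ Subgroup.centralizer ((⁅D, D⁆ : Subgroup Γ) : Set Γ) := y.2.1
      rw [Subgroup.mem_centralizer_iff] at h3
      exact Subtype.ext (h3 x h2).symm
    intro x hx y hy
    have h1 := (MonoidHom.isMulCommutative_of_isCyclic_of_ker_le_center f hf).is_comm.comm
      ⟨x, hx⟩ ⟨y, hy⟩
    exact congrArg Subtype.val h1
  · exact Subgroup.index_inf_le.trans (Nat.mul_le_mul_right _ hidx)

/-- if `4` does not divide `N` -/
theorem hasCN_not_four {N : ℕ} (hN : 0 < N) (h4 : ¬ 4 ∣ N) (Γ : Subgroup (Og N)) [Finite Γ]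
    (hfree : Free Γ) : HasCN Γ N := by
  have hAC := ac_of_free hN Γ hfree
  have hZ : IsZGroup (⊤ : Subgroup Γ) := by
    have h1 : IsZGroup Γ := by
      refine ⟨fun p hp P => ?_⟩
      by_contra hnc
      have : Fact p.Prime := ⟨hp⟩
      obtain ⟨i, _, x, _, hq⟩ := quat_of_noncyclic hAC p (P : Subgroup Γ) P.2 hnc
      refine h4 (quat_dvd hfree i.2 (x := (x : Og N)) ?_)
      obtain ⟨h1, h2, h3, h4⟩ := hq
      exact ⟨fun h => h1 (Subtype.ext h), congrArg Subtype.val h2, congrArg Subtype.val h3,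
        congrArg Subtype.val h4⟩
    infer_instance
  have h1 := hasCN_of_z hN Γ hfree ⊤ inferInstance hZ
  rwa [Subgroup.index_top, mul_one] at h1

end Pool.Agent.Helper82.EB
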