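import Mathlib
import Pool.Agent.Helper82.EB.Cn

/-!
# Cyclic normal subgroups of small index in solvable groups acting freely on spheres
-/

set_option autoImplicit false

namespace Pool.Agent.Helper82.EB

open Pool.Agent.Helper78.Eigen Pool.Agent.Helper78.GroupBound

section abstract

variable {G : Type*} [Group G]

/-- there is at most one involution -/
def UI (G : Type*) [Group G] : Prop :=
  ∀ u v : G, u ^ 2 = 1 → u ≠ 1 → v ^ 2 = 1 → v ≠ 1 → u = v

lemma UI.central (hU : UI G) {z : G} (hz : z ^ 2 = 1) (hz1 : z ≠ 1) (g : G) :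
    g * z = z * g := by
  have h1 : g * z * g⁻¹ = z := by
    refine hU _ _ ?_ ?_ hz hz1
    · rw [conj_pow, hz, mul_one, mul_inv_cancel]
    · intro h
      apply hz1
      have h2 : z = g⁻¹ * (g * z * g⁻¹) * g := by group
      rw [h2, h]
      group
  calc g * z = (g * z * g⁻¹) * g := by group
    _ = z * g := by rw [h1]

lemma UI.cases (hU : UI G) {z : G} (hz : z ^ 2 = 1) (hz1 : z ≠ 1) {u : G} (hu : u ^ 2 = 1) :
    u = 1 ∨ u = z := by
  by_cases h : u = 1
  · exact Or.inl h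
  · exact Or.inr (hU _ _ hu h hz hz1)

/-- the elements of the quaternion group -/
noncomputable def Q8 (i x : G) : Finset G := by
  classical
  exact {1, i, i ^ 2, i ^ 2 * i, x, i ^ 2 * x, i * x, i ^ 2 * (i * x)}

lemma card_Q8 (i x : G) : (Q8 i x).card ≤ 8 := by
  classical
  rw [Q8]
  have h1 : ∀ (a : G) (t : Finset G) (n : ℕ), t.card ≤ n → (insert a t).card ≤ n + 1 :=
    fun a t n h => (Finset.card_insert_le a t).trans (Nat.add_le_add_right h 1)
  refine h1 _ _ 7 (h1 _ _ 6 (h1 _ _ 5 (h1 _ _ 4 (h1 _ _ 3 (h1 _ _ 2 (h1 _ _ 1 ?_))))))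
  rw [Finset.card_singleton]

lemma mem_Q8_comm {i x g : G} (hg : g ∈ Q8 i x) {y : G} (h1 : y * i = i * y)
    (h2 : y * x = x * y) : y * g = g * y := by
  classical
  have hi : Commute y i := h1
  have hx : Commute y x := h2
  simp only [Q8, Finset.mem_insert, Finset.mem_singleton] at hg
  rcases hg with rfl | rfl | rfl | rfl | rfl | rfl | rfl | rfl
  · rw [mul_one, one_mul]
  · exact h1
  · exact (hi.pow_right 2).eq
  · exact ((hi.pow_right 2).mul_right hi).eq
  · exact h2
  · exact ((hi.pow_right 2).mul_right hx).eq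
  · exact (hi.mul_right hx).eq
  · exact ((hi.pow_right 2).mul_right (hi.mul_right hx)).eq

lemma eq_of_mul_sq (hU : UI G) {z g u : G} (hz : z ^ 2 = 1) (hz1 : z ≠ 1) (hu : u * u = z)
    (h : (g * u) ^ 2 = 1) : g = z * u ∨ g = u := by
  have hinv : u⁻¹ = z * u := by
    refine inv_eq_of_mul_eq_one_left ?_
    rw [mul_assoc, hu, ← pow_two, hz]
  rcases hU.cases hz hz1 h with h1 | h1
  · left
    rw [← hinv]
    exact eq_inv_of_mul_eq_one_left h1
  · right
    have h2 : g = z * u⁻¹ := eq_mul_inv_of_mul_eq h1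
    rw [h2, hinv, ← mul_assoc, ← pow_two, hz, one_mul]

/-- elements of order dividing `4` with central commutators -/
lemma mem_Q8 (hU : UI G) {i x g : G} (hq : Quat i x) (hg : g ^ 4 = 1)
    (h1 : (g * i * g⁻¹ * i⁻¹) * i = i * (g * i * g⁻¹ * i⁻¹))
    (h2 : (g * x * g⁻¹ * x⁻¹) * x = x * (g * x * g⁻¹ * x⁻¹)) : g ∈ Q8 i x := by
  classical
  obtain ⟨hi2, hi4, hx2, hxi⟩ := hq
  obtain ⟨z, hz⟩ : ∃ z, z = i ^ 2 := ⟨_, rfl⟩
  rw [← hz] at hi2 hx2
  have hz2 : z ^ 2 = 1 := by rw [hz, ← pow_mul]; exact hi4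
  have hzz : z * z = 1 := by rw [← pow_two]; exact hz2
  have hii : i * i = z := by rw [hz, pow_two]
  have hxx : x * x = z := by rw [← hx2, pow_two]
  have hcz : ∀ y : G, y * z = z * y := fun y => hU.central hz2 hi2 y
  -- the commutator with an element of square `z`
  have key : ∀ u : G, u * u = z → (g * u * g⁻¹ * u⁻¹) * u = u * (g * u * g⁻¹ * u⁻¹) →
      g * u = u * g ∨ g * u = z * (u * g) := by
    intro u hu hc
    obtain ⟨e, he⟩ : ∃ e, e = g * u * g⁻¹ * u⁻¹ := ⟨_, rfl⟩
    rw [← he] at hc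
    have hgu : g * u = e * (u * g) := by rw [he]; group
    have hconj : g * u * g⁻¹ = e * u := by rw [he]; group
    have h3 : (g * u * g⁻¹) * (g * u * g⁻¹) = z := by
      calc (g * u * g⁻¹) * (g * u * g⁻¹) = g * (u * u) * g⁻¹ := by group
        _ = z := by rw [hu, hcz]; group
    rw [hconj] at h3
    have h4 : e ^ 2 * z = 1 * z := by
      rw [one_mul]
      calc e ^ 2 * z = e * e * (u * u) := by rw [pow_two, hu]
        _ = e * (e * u) * u := by simp only [mul_assoc]
        _ = e * (u * e) * u := by rw [hc]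
        _ = (e * u) * (e * u) := by simp only [mul_assoc]
        _ = z := h3
    rcases hU.cases hz2 hi2 (mul_right_cancel h4) with h5 | h5
    · left; rw [hgu, h5, one_mul]
    · right; rw [hgu, h5]
  have hg2 : (g ^ 2) ^ 2 = 1 := by rw [← pow_mul]; exact hg
  simp only [Q8, Finset.mem_insert, Finset.mem_singleton]
  rw [← hz]
  rcases hU.cases hz2 hi2 hg2 with h3 | h3
  · rcases hU.cases hz2 hi2 h3 with h4 | h4
    · exact Or.inl h4
    · exact Or.inr (Or.inr (Or.inl h4))
  rw [pow_two] at h3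
  have hsq : ∀ u : G, u * u = z → g * u = u * g → (g * u) ^ 2 = 1 := by
    intro u hu hc
    calc (g * u) ^ 2 = g * (u * g) * u := by rw [pow_two]; simp only [mul_assoc]
      _ = g * (g * u) * u := by rw [hc]
      _ = (g * g) * (u * u) := by simp only [mul_assoc]
      _ = 1 := by rw [h3, hu, hzz]
  rcases key i hii h1 with h4 | h4
  · rcases eq_of_mul_sq hU hz2 hi2 hii (hsq i hii h4) with h5 | h5
    · exact Or.inr (Or.inr (Or.inr (Or.inl h5)))
    · exact Or.inr (Or.inl h5)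
  rcases key x hxx h2 with h5 | h5
  · rcases eq_of_mul_sq hU hz2 hi2 hxx (hsq x hxx h5) with h6 | h6
    · exact Or.inr (Or.inr (Or.inr (Or.inr (Or.inr (Or.inl h6)))))
    · exact Or.inr (Or.inr (Or.inr (Or.inr (Or.inl h6))))
  have hix : (i * x) * (i * x) = z := by
    calc (i * x) * (i * x) = i * (x * i) * x := by simp only [mul_assoc]
      _ = i * (i⁻¹ * x) * x := by rw [hxi]
      _ = x * x := by group
      _ = z := hxx
  have hc : g * (i * x) = (i * x) * g := by
    calc g * (i * x) = (g * i) * x := by rw [mul_assoc]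
      _ = z * (i * (g * x)) := by rw [h4]; simp only [mul_assoc]
      _ = z * ((i * z) * (x * g)) := by rw [h5]; simp only [mul_assoc]
      _ = (z * z) * (i * (x * g)) := by rw [hcz i]; simp only [mul_assoc]
      _ = (i * x) * g := by rw [hzz, one_mul, mul_assoc]
  rcases eq_of_mul_sq hU hz2 hi2 hix (hsq _ hix hc) with h6 | h6
  · exact Or.inr (Or.inr (Or.inr (Or.inr (Or.inr (Or.inr (Or.inr h6))))))
  · exact Or.inr (Or.inr (Or.inr (Or.inr (Or.inr (Or.inr (Or.inl h6))))))

lemma Quat.ne_comm {i x : G} (hq : Quat i x) : i * x ≠ x * i := by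
  obtain ⟨h1, _, _, h4⟩ := hq
  intro h
  apply h1
  have h5 : i * x = i⁻¹ * x := by rw [h, h4]
  have h6 : i = i⁻¹ := mul_right_cancel h5
  rw [pow_two]
  nth_rewrite 2 [h6]
  exact mul_inv_cancel i

/-- the centralizer of the elements of order dividing `4` of a normal subgroup with central
commutators -/
lemma exists_z [Finite G] (hAC : AC G) (hU : UI G) (M : Subgroup G) (hMn : M.Normal)
    (hM : ∀ g ∈ M, ∀ h ∈ M, ∀ u ∈ M, (g * h * g⁻¹ * h⁻¹) * u = u * (g * h * g⁻¹ * h⁻¹))
    {i x : G} (hi : i ∈ M) (hx : x ∈ M) (hq : Quat i x) :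
    ∃ D : Subgroup G, D.Normal ∧ IsZGroup D ∧ D.index ≤ 64 := by
  classical
  have hT : ∀ g ∈ M, g ^ 4 = 1 → g ∈ Q8 i x := fun g hg h4 =>
    mem_Q8 hU hq h4 (hM g hg i hi i hi) (hM g hg x hx x hx)
  have hx4 : x ^ 4 = 1 := by
    have h1 : x ^ 4 = (x ^ 2) ^ 2 := by rw [← pow_mul]
    rw [h1, hq.2.2.1, ← pow_mul]
    exact hq.2.1
  let T : Set G := {g | g ∈ M ∧ g ^ 4 = 1}
  have hTc : ∀ g : G, ∀ t ∈ T, g * t * g⁻¹ ∈ T := by
    rintro g t ⟨ht, ht4⟩
    refine ⟨hMn.conj_mem t ht g, ?_⟩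
    rw [conj_pow, ht4, mul_one, mul_inv_cancel]
  have hD : ∀ y : G, y ∈ Subgroup.centralizer T ↔ y * i = i * y ∧ y * x = x * y := by
    intro y
    rw [Subgroup.mem_centralizer_iff]
    constructor
    · intro h
      exact ⟨(h i ⟨hi, hq.2.1⟩).symm, (h x ⟨hx, hx4⟩).symm⟩
    · rintro ⟨h1, h2⟩ t ⟨ht, ht4⟩
      exact (mem_Q8_comm (hT t ht ht4) h1 h2).symm
  refine ⟨Subgroup.centralizer T, ?_, ?_, ?_⟩
  · refine ⟨fun y hy g => ?_⟩
    rw [Subgroup.mem_centralizer_iff] at hy ⊢
    intro t ht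
    have h1 := hy (g⁻¹ * t * g) (by
      have h2 := hTc g⁻¹ t ht
      rwa [inv_inv] at h2)
    calc t * (g * y * g⁻¹) = g * ((g⁻¹ * t * g) * y) * g⁻¹ := by group
      _ = g * (y * (g⁻¹ * t * g)) * g⁻¹ := by rw [h1]
      _ = g * y * g⁻¹ * t := by group
  · refine ⟨fun p hp P => ?_⟩
    by_contra hnc
    have : Fact p.Prime := ⟨hp⟩
    obtain ⟨j, _, y, _, hjy⟩ := quat_of_noncyclic (hAC.subgroup (Subgroup.centralizer T)) p
      (P : Subgroup (Subgroup.centralizer T)) P.2 hnc
    have hj := (hD j).mp j.2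
    have hj2 : (j : G) ^ 2 ≠ 1 := fun h => hjy.1 (Subtype.ext h)
    have hj4 : (j : G) ^ 4 = 1 := congrArg Subtype.val hjy.2.1
    obtain ⟨hi2, hi4, hx2, hxi⟩ := hq
    have hjz : (j : G) ^ 2 = i ^ 2 := by
      refine hU _ _ ?_ hj2 ?_ hi2
      · rw [← pow_mul]; exact hj4
      · rw [← pow_mul]; exact hi4
    have h1 : ((j : G) * i) ^ 2 = 1 := by
      have hc : Commute (j : G) i := hj.1
      rw [hc.mul_pow, hjz, ← pow_add]
      exact hi4
    have hz2 : (i ^ 2) ^ 2 = 1 := by rw [← pow_mul]; exact hi4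
    have hxz : x * i ^ 2 = i ^ 2 * x := hU.central hz2 hi2 x
    have hxj : x * (j : G) = (j : G) * x := hj.2.symm
    refine Quat.ne_comm ⟨hi2, hi4, hx2, hxi⟩ ?_
    rcases eq_of_mul_sq hU hz2 hi2 (pow_two i).symm h1 with h2 | h2
    · rw [h2] at hxj
      have h3 : i ^ 2 * (x * i) = i ^ 2 * (i * x) := by
        calc i ^ 2 * (x * i) = (i ^ 2 * x) * i := (mul_assoc _ _ _).symm
          _ = x * (i ^ 2 * i) := by rw [← hxz, mul_assoc]
          _ = i ^ 2 * i * x := hxj
          _ = i ^ 2 * (i * x) := mul_assoc _ _ _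
      exact (mul_left_cancel h3).symm
    · rw [← h2]; exact hj.2
  · have : Fintype G := Fintype.ofFinite G
    have : Fintype (G ⧸ Subgroup.centralizer T) := Fintype.ofFinite _
    let f : G ⧸ Subgroup.centralizer T → G × G := fun q =>
      (q.out * i * q.out⁻¹, q.out * x * q.out⁻¹)
    have hf : Function.Injective f := by
      intro p q hpq
      have h1 : p.out * i * p.out⁻¹ = q.out * i * q.out⁻¹ := congrArg Prod.fst hpq
      have h2 : p.out * x * p.out⁻¹ = q.out * x * q.out⁻¹ := congrArg Prod.snd hpq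
      rw [← p.out_eq', ← q.out_eq', QuotientGroup.eq, hD]
      refine ⟨?_, ?_⟩
      · calc (p.out⁻¹ * q.out) * i = p.out⁻¹ * (q.out * i * q.out⁻¹) * q.out := by group
          _ = p.out⁻¹ * (p.out * i * p.out⁻¹) * q.out := by rw [h1]
          _ = i * (p.out⁻¹ * q.out) := by group
      · calc (p.out⁻¹ * q.out) * x = p.out⁻¹ * (q.out * x * q.out⁻¹) * q.out := by group
          _ = p.out⁻¹ * (p.out * x * p.out⁻¹) * q.out := by rw [h2]
          _ = x * (p.out⁻¹ * q.out) := by group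
    have h1 : (Finset.univ.image f) ⊆ Q8 i x ×ˢ Q8 i x := by
      intro y hy
      obtain ⟨q, _, rfl⟩ := Finset.mem_image.mp hy
      rw [Finset.mem_product]
      have h2 := hTc q.out i ⟨hi, hq.2.1⟩
      have h3 := hTc q.out x ⟨hx, hx4⟩
      exact ⟨hT _ h2.1 h2.2, hT _ h3.1 h3.2⟩
    have h2 := Finset.card_le_card h1
    rw [Finset.card_image_of_injective _ hf, Finset.card_univ, Finset.card_product] at h2
    rw [Subgroup.index_eq_card, Nat.card_eq_fintype_card]
    have h3 := card_Q8 i x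
    calc _ ≤ _ := h2
      _ ≤ 8 * 8 := Nat.mul_le_mul h3 h3
      _ = 64 := by norm_num

end abstract

/-- the derived series of a subgroup -/
def dser {G : Type*} [Group G] (S : Subgroup G) : ℕ → Subgroup G
  | 0 => S
  | n + 1 => ⁅dser S n, dser S n⁆

lemma dser_succ {G : Type*} [Group G] (S : Subgroup G) (n : ℕ) :
    dser S (n + 1) = ⁅dser S n, dser S n⁆ := rfl

lemma dser_normal {G : Type*} [Group G] (S : Subgroup G) (hS : S.Normal) (n : ℕ) :
    (dser S n).Normal := by
  induction n with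
  | zero => exact hS
  | succ n ih => rw [dser_succ]; exact Subgroup.commutator_normal _ _

lemma dser_eq {G : Type*} [Group G] (S : Subgroup G) (n : ℕ) :
    dser S n = (derivedSeries S n).map S.subtype := by
  induction n with
  | zero =>
    rw [derivedSeries_zero, ← MonoidHom.range_eq_map, Subgroup.range_subtype]
    rfl
  | succ n ih => rw [dser_succ, ih, derivedSeries_succ, Subgroup.map_commutator]

/-- finite groups acting freely on spheres, with a solvable normal subgroup -/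
theorem hasCN_solvable {N : ℕ} (hN : 0 < N) (Γ : Subgroup (Og N)) [Finite Γ]
    (hfree : Free Γ) (R : Subgroup Γ) (hRn : R.Normal) (hs : Group.IsSolvable R) :
    HasCN Γ (64 * N * R.index) := by
  classical
  have hRi : R.index ≠ 0 := Subgroup.index_ne_zero_of_finite
  have hAC := ac_of_free hN Γ hfree
  have hU : UI Γ := by
    intro u v hu hu1 hv hv1
    have h1 := neg_of_invol hfree u.2 (congrArg Subtype.val hu) (fun h => hu1 (Subtype.ext h))
    have h2 := neg_of_invol hfree v.2 (congrArg Subtype.val hv) (fun h => hv1 (Subtype.ext h))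
    exact Subtype.ext (Subtype.ext (h1.trans h2.symm))
  let S : Set (Subgroup Γ) := {A | A.Normal ∧ A ≤ R ∧ ∀ x ∈ A, ∀ y ∈ A, x * y = y * x}
  have hS : S.Nonempty := by
    refine ⟨⊥, inferInstance, bot_le, ?_⟩
    intro x hx y hy
    rw [Subgroup.mem_bot] at hx hy
    rw [hx, hy]
  obtain ⟨A, ⟨hAn, hAR, hAc⟩, hmax⟩ := Set.Finite.exists_maximal (Set.toFinite S) hS
  have hA : IsCyclic A := hAC A hAc
  have hidx := index_centralizer_le hN Γ hfree A hAn hA
  obtain ⟨H, hH⟩ : ∃ H, H = Subgroup.centralizer (A : Set Γ) ⊓ R := ⟨_, rfl⟩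
  have hidxH : H.index ≤ N * R.index := by
    rw [hH]
    exact Subgroup.index_inf_le.trans (Nat.mul_le_mul_right _ hidx)
  have hHmem : ∀ u, u ∈ H → ∀ a ∈ A, a * u = u * a := by
    intro u hu
    rw [hH] at hu
    exact (Subgroup.mem_centralizer_iff.mp hu.1)
  have hHn : H.Normal := by rw [hH]; infer_instance
  have hAH : A ≤ H := by
    intro a ha
    rw [hH]
    refine ⟨?_, hAR ha⟩
    change a ∈ Subgroup.centralizer (A : Set Γ)
    rw [Subgroup.mem_centralizer_iff]
    exact fun b hb => hAc b hb a ha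
  by_cases hHA : H ≤ A
  · refine ⟨A, hAn, hA, ?_⟩
    have h1 : A.index ∣ H.index := Subgroup.index_dvd_of_le hHA
    have h2 : H.index ≠ 0 := Subgroup.index_ne_zero_of_finite
    have h3 := Nat.le_of_dvd (Nat.pos_of_ne_zero h2) h1
    calc A.index ≤ H.index := h3
      _ ≤ N * R.index := hidxH
      _ = 1 * (N * R.index) := (one_mul _).symm
      _ ≤ 64 * (N * R.index) := Nat.mul_le_mul_right _ (by norm_num)
      _ = 64 * N * R.index := (mul_assoc _ _ _).symm
  obtain ⟨m, hm⟩ := hs.solvable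
  have hex : ∃ n, H ⊓ dser R n ≤ A :=
    ⟨m, by rw [dser_eq, hm, Subgroup.map_bot, inf_bot_eq]; exact bot_le⟩
  obtain ⟨n, hn, hmin⟩ : ∃ n, H ⊓ dser R n ≤ A ∧ ∀ k < n, ¬ (H ⊓ dser R k ≤ A) :=
    ⟨Nat.find hex, Nat.find_spec hex, fun k hk => Nat.find_min hex hk⟩
  obtain ⟨k, rfl⟩ : ∃ k, n = k + 1 := by
    cases n with
    | zero =>
      have h1 : H ≤ R := by rw [hH]; exact inf_le_right
      exact absurd ((le_inf le_rfl h1).trans hn) hHA
    | succ k => exact ⟨k, rfl⟩
  have hKA := hmin k (Nat.lt_succ_self k)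
  obtain ⟨K, hK⟩ : ∃ K, K = H ⊓ dser R k := ⟨_, rfl⟩
  rw [← hK] at hKA
  have hdn : (dser R k).Normal := dser_normal R hRn k
  have hKn : K.Normal := by rw [hK]; infer_instance
  have hKH : K ≤ H := by rw [hK]; exact inf_le_left
  have hKd : K ≤ dser R k := by rw [hK]; exact inf_le_right
  have hKK : ∀ b ∈ K, ∀ d ∈ K, b * d * b⁻¹ * d⁻¹ ∈ A := by
    intro b hb d hd
    apply hn
    refine ⟨?_, ?_⟩
    · change b * d * b⁻¹ * d⁻¹ ∈ H
      exact mul_mem (mul_mem (mul_mem (hKH hb) (hKH hd)) (inv_mem (hKH hb))) (inv_mem (hKH hd))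
    · change _ ∈ dser R (k + 1)
      rw [dser_succ]
      exact Subgroup.commutator_mem_commutator (hKd hb) (hKd hd)
  have hMn : (A ⊔ K).Normal := inferInstance
  have hMH : A ⊔ K ≤ H := sup_le hAH hKH
  have hMA : ∀ g ∈ A ⊔ K, ∀ h ∈ A ⊔ K, g * h * g⁻¹ * h⁻¹ ∈ A := by
    intro g hg h hh
    obtain ⟨a, ha, b, hb, rfl⟩ := Subgroup.mem_sup_of_normal_left.mp hg
    obtain ⟨c, hc, d, hd, rfl⟩ := Subgroup.mem_sup_of_normal_left.mp hh
    have h1 : a * b * (c * d) * (a * b)⁻¹ * (c * d)⁻¹ = b * d * b⁻¹ * d⁻¹ := by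
      have e1 : Commute a b := hHmem b (hKH hb) a ha
      have e2 : Commute a c := hHmem c (hAH hc) a ha
      have e3 : Commute a d := hHmem d (hKH hd) a ha
      have e4 : Commute c b := hHmem b (hKH hb) c hc
      have e5 : Commute c d := hHmem d (hKH hd) c hc
      have e6 : Commute (a * c) (b * d * (d * b)⁻¹) := by
        have h2 : Commute a (b * d * (d * b)⁻¹) :=
          (e1.mul_right e3).mul_right (e3.mul_right e1).inv_right
        have h3 : Commute c (b * d * (d * b)⁻¹) :=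
          (e4.mul_right e5).mul_right (e5.mul_right e4).inv_right
        exact h2.mul_left h3
      have h2 : a * b * (c * d) = (a * c) * (b * d) := by
        calc a * b * (c * d) = a * (b * c) * d := by simp only [mul_assoc]
          _ = a * (c * b) * d := by rw [e4.eq]
          _ = (a * c) * (b * d) := by simp only [mul_assoc]
      have h3 : c * d * (a * b) = (a * c) * (d * b) := by
        calc c * d * (a * b) = c * (d * a) * b := by simp only [mul_assoc]
          _ = c * (a * d) * b := by rw [e3.eq]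
          _ = (c * a) * (d * b) := by simp only [mul_assoc]
          _ = (a * c) * (d * b) := by rw [e2.eq]
      calc a * b * (c * d) * (a * b)⁻¹ * (c * d)⁻¹
          = (a * b * (c * d)) * (c * d * (a * b))⁻¹ := by group
        _ = (a * c) * (b * d) * ((a * c) * (d * b))⁻¹ := by rw [h2, h3]
        _ = (a * c) * (b * d * (d * b)⁻¹) * (a * c)⁻¹ := by group
        _ = b * d * (d * b)⁻¹ := by rw [e6.eq, mul_inv_cancel_right]
        _ = b * d * b⁻¹ * d⁻¹ := by group
    rw [h1]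
    exact hKK b hb d hd
  have hMc : ∀ g ∈ A ⊔ K, ∀ h ∈ A ⊔ K, ∀ u ∈ A ⊔ K,
      (g * h * g⁻¹ * h⁻¹) * u = u * (g * h * g⁻¹ * h⁻¹) :=
    fun g hg h hh u hu => hHmem u (hMH hu) _ (hMA g hg h hh)
  obtain ⟨M, hMeq⟩ : ∃ M, M = A ⊔ K := ⟨_, rfl⟩
  rw [← hMeq] at hMn hMA hMc hMH
  have hnc : ¬ IsZGroup M := by
    intro hZ
    have hnil : Group.IsNilpotent M := by
      refine Subgroup.isNilpotent_of_ker_le_center (Abelianization.of (G := M)) ?_
      rw [Abelianization.ker_of]
      rw [commutator_def, Subgroup.commutator_le]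
      intro g _ h _
      rw [Subgroup.mem_center_iff]
      intro u
      exact Subtype.ext (hMc g g.2 h h.2 u u.2).symm
    have hcyc : IsCyclic M := inferInstance
    have hcomm : ∀ x ∈ M, ∀ y ∈ M, x * y = y * x := by
      intro x hx y hy
      obtain ⟨⟨g, hgM⟩, hg⟩ := hcyc.exists_generator
      obtain ⟨a, ha⟩ := hg ⟨x, hx⟩
      obtain ⟨b, hb⟩ := hg ⟨y, hy⟩
      have ha' : g ^ a = x := by simpa using congrArg Subtype.val ha
      have hb' : g ^ b = y := by simpa using congrArg Subtype.val hb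
      rw [← ha', ← hb', ← _root_.zpow_add, ← _root_.zpow_add, add_comm]
    have hHR : H ≤ R := by rw [hH]; exact inf_le_right
    have h1 : M ≤ A := hmax ⟨hMn, hMH.trans hHR, hcomm⟩ (by rw [hMeq]; exact le_sup_left)
    exact hKA ((by rw [hMeq]; exact le_sup_right : K ≤ M).trans h1)
  obtain ⟨p, hp, P, hP⟩ : ∃ p : ℕ, p.Prime ∧ ∃ P : Sylow p M, ¬ IsCyclic P := by
    by_contra hcon
    push Not at hcon
    exact hnc ⟨fun p hp P => hcon p hp P⟩
  have : Fact p.Prime := ⟨hp⟩
  obtain ⟨i, _, x, _, hq⟩ := quat_of_noncyclic (hAC.subgroup M) p (P : Subgroup M) P.2 hP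
  obtain ⟨D, hDn, hZ, hD⟩ := exists_z hAC hU M hMn hMc i.2 x.2
    ⟨fun h => hq.1 (Subtype.ext h), congrArg Subtype.val hq.2.1, congrArg Subtype.val hq.2.2.1,
      congrArg Subtype.val hq.2.2.2⟩
  refine (hasCN_of_z hN Γ hfree D hDn hZ).mono ?_
  calc N * D.index ≤ N * 64 := Nat.mul_le_mul_left N hD
    _ = 64 * N * 1 := by ring
    _ ≤ 64 * N * R.index := Nat.mul_le_mul_left _ (Nat.one_le_iff_ne_zero.mpr hRi)

end Pool.Agent.Helper82.EB
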