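import Mathlib
import Pool.Agent.Helper78.Kernel

/-!
# Bases taken from a family of integer vectors

A family of integer vectors with a basis of its span completed by standard basis vectors, and the
bound for the order of a coordinate which is determined by monomial relations.
-/

set_option autoImplicit false

namespace Pool.Agent.Helper82.EB

open Finset
open Pool.Agent.Helper78.Kernel (Alt)

/-- the matrix with rows taken from a family of vectors and from the standard basis -/
def rowMat {ι V : Type*} [DecidableEq V] (l : ι → V → ℤ) (ρ : V → ι ⊕ V) : Matrix V V ℤ :=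
  Matrix.of fun r => Sum.elim l (fun w => Pi.single w 1) (ρ r)

theorem cram {ι V : Type*} [Fintype ι] [DecidableEq ι] [Fintype V] [DecidableEq V]
    (l : ι → V → ℤ) (R : Finset ι) :
    ∃ ρ : V → ι ⊕ V, (rowMat l ρ).det ≠ 0 ∧ (∀ r p, ρ r = Sum.inl p → p ∈ R) ∧
      ∀ v N, Alt (fun i : R => l i) v N → ∀ r w, ρ r = Sum.inr w →
        (rowMat l ρ).adjugate v r = 0 := by
  classical
  let x : ι ⊕ V → (V → ℚ) := Sum.elim (fun p w => (l p w : ℚ)) (fun w => Pi.single w 1)
  let t₀ : Set (ι ⊕ V) := {y | ∃ p ∈ R, y = Sum.inl p}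
  let t₁ : Set (ι ⊕ V) := {y | ∀ p, y = Sum.inl p → p ∈ R}
  obtain ⟨b₀, hb₀t, -, hb₀s, hb₀i⟩ := exists_linearIndepOn_extension (K := ℚ) (v := x)
    (s := ∅) (t := t₀) (linearIndepOn_empty ℚ x) (Set.empty_subset _)
  have h01 : b₀ ⊆ t₁ := by
    intro y hy p hp
    obtain ⟨p', hp', hy'⟩ := hb₀t hy
    rw [hy'] at hp
    cases hp
    exact hp'
  obtain ⟨b, hbt, hbb, hbs, hbi⟩ := exists_linearIndepOn_extension hb₀i h01
  have htop : Submodule.span ℚ (x '' b) = ⊤ := by
    rw [eq_top_iff]
    have h1 : (⊤ : Submodule ℚ (V → ℚ)) = Submodule.span ℚ (Set.range fun w : V => Pi.single w (1 : ℚ)) := by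
      have := (Pi.basisFun ℚ V).span_eq
      rw [← this]
      congr 1
      ext z
      simp [Pi.basisFun_apply]
    rw [h1, Submodule.span_le]
    rintro _ ⟨w, rfl⟩
    refine hbs ⟨Sum.inr w, ?_, rfl⟩
    intro p hp
    cases hp
  let bas : Module.Basis b ℚ (V → ℚ) := Module.Basis.mk (v := fun i : b => x i) hbi (by
    rw [← htop, Set.image_eq_range])
  let eV : V ≃ b := (Pi.basisFun ℚ V).indexEquiv bas
  let ρ : V → ι ⊕ V := fun r => (eV r : ι ⊕ V)
  have hrow : ∀ r w, ((rowMat l ρ r w : ℤ) : ℚ) = x (ρ r) w := by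
    intro r w
    simp only [rowMat, Matrix.of_apply, x]
    cases ρ r with
    | inl p => rfl
    | inr w' =>
      simp only [Sum.elim_inr]
      by_cases h : w' = w
      · subst h; simp
      · rw [Pi.single_eq_of_ne (Ne.symm h), Pi.single_eq_of_ne (Ne.symm h)]; simp
  have hdet : (rowMat l ρ).det ≠ 0 := by
    intro h0
    have h1 : ((rowMat l ρ).map (Int.cast : ℤ → ℚ)).det = 0 := by
      have h2 : ((rowMat l ρ).map (Int.cast : ℤ → ℚ)) = (Int.castRingHom ℚ).mapMatrix (rowMat l ρ) :=
        rfl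
      rw [h2, ← RingHom.map_det, h0, map_zero]
    have h3 : LinearIndependent ℚ ((rowMat l ρ).map (Int.cast : ℤ → ℚ)).row := by
      have h4 : ((rowMat l ρ).map (Int.cast : ℤ → ℚ)).row = (fun i : b => x i) ∘ eV := by
        funext r w
        exact hrow r w
      rw [h4]
      exact LinearIndependent.comp hbi eV eV.injective
    rw [Matrix.linearIndependent_rows_iff_isUnit, Matrix.isUnit_iff_isUnit_det, h1] at h3
    exact not_isUnit_zero h3
  refine ⟨ρ, hdet, ?_, ?_⟩
  · intro r p hp
    exact hbt (eV r).2 p hp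
  · intro v N hN r w hr
    obtain ⟨hN0, n, hn⟩ := hN
    -- the vector in the span
    have h1 : (Pi.single v (N : ℚ) : V → ℚ) ∈ Submodule.span ℚ (x '' b₀) := by
      have h2 : (Pi.single v (N : ℚ) : V → ℚ) = ∑ i : R, (n i : ℚ) • x (Sum.inl i) := by
        funext w
        rw [Finset.sum_apply]
        have h3 := congrArg (Int.cast : ℤ → ℚ) (hn w)
        push_cast at h3
        simp only [Pi.smul_apply, smul_eq_mul, x, Sum.elim_inl]
        rw [h3]
        by_cases h : w = v
        · subst h; simp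
        · rw [Pi.single_eq_of_ne h, if_neg h]
      rw [h2]
      refine Submodule.sum_mem _ fun i _ => Submodule.smul_mem _ _ ?_
      exact hb₀s ⟨Sum.inl i, ⟨i, i.2, rfl⟩, rfl⟩
    rw [Finsupp.mem_span_image_iff_linearCombination] at h1
    obtain ⟨c, hc, hcv⟩ := h1
    have hc' : ∀ i, c i ≠ 0 → i ∈ b₀ := by
      intro i hi
      exact (Finsupp.mem_supported ℚ c).mp hc (Finsupp.mem_support_iff.mpr hi)
    have h2 : ∀ w, ∑ r, c (ρ r) * x (ρ r) w = (Pi.single v (N : ℚ) : V → ℚ) w := by
      intro w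
      rw [← hcv, Finsupp.linearCombination_apply, Finsupp.sum, Finset.sum_apply]
      have h3 : ∑ r, c (ρ r) * x (ρ r) w = ∑ i ∈ univ.image ρ, c i * x i w := by
        rw [Finset.sum_image]
        intro r _ r' _ h
        exact eV.injective (Subtype.ext h)
      rw [h3]
      symm
      refine Finset.sum_subset ?_ ?_
      · intro i hi
        rw [Finsupp.mem_support_iff] at hi
        have hib := hbb (hc' i hi)
        rw [mem_image]
        refine ⟨eV.symm ⟨i, hib⟩, mem_univ _, ?_⟩
        simp only [ρ, Equiv.apply_symm_apply]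
      · intro i _ hi
        rw [Finsupp.notMem_support_iff] at hi
        simp [hi]
    have hcr : c (ρ r) = 0 := by
      by_contra hne
      obtain ⟨p, _, hp⟩ := hb₀t (hc' _ hne)
      rw [hr] at hp
      cases hp
    -- multiply by the adjugate
    set Bq : Matrix V V ℚ := (Int.castRingHom ℚ).mapMatrix (rowMat l ρ) with hBq
    have h4 : Matrix.vecMul (fun r => c (ρ r)) Bq = Pi.single v (N : ℚ) := by
      funext w
      rw [← h2 w]
      simp only [Matrix.vecMul, dotProduct]
      refine Finset.sum_congr rfl fun r _ => ?_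
      rw [← hrow]; rfl
    have h5 : Matrix.vecMul (Pi.single v (N : ℚ)) Bq.adjugate = fun r => c (ρ r) * Bq.det := by
      rw [← h4, Matrix.vecMul_vecMul, Matrix.mul_adjugate, Matrix.vecMul_smul, Matrix.vecMul_one]
      funext r
      rw [Pi.smul_apply, smul_eq_mul, mul_comm]
    have h6 := congrFun h5 r
    rw [hcr, zero_mul, Matrix.single_vecMul] at h6
    have hN' : (N : ℚ) ≠ 0 := by exact_mod_cast hN0.ne'
    have h7 : Bq.adjugate v r = 0 := by
      rcases mul_eq_zero.mp (show (N : ℚ) * Bq.adjugate v r = 0 from h6) with h | h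
      · exact absurd h hN'
      · exact h
    rw [hBq, ← RingHom.map_adjugate] at h7
    have h8 : (((rowMat l ρ).adjugate v r : ℤ) : ℚ) = 0 := h7
    exact_mod_cast h8

/-- a coordinate determined by monomial relations has order dividing the determinant -/
theorem pow_det {ι V : Type*} [Fintype V] [DecidableEq V] (l : ι → V → ℤ) (ρ : V → ι ⊕ V)
    (η : V → ℂ) (hη : ∀ v, η v ≠ 0) (h : ∀ r p, ρ r = Sum.inl p → ∏ w, η w ^ l p w = 1) (v : V)
    (hv : ∀ r w, ρ r = Sum.inr w → (rowMat l ρ).adjugate v r = 0) :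
    η v ^ (rowMat l ρ).det.natAbs = 1 := by
  classical
  set B := rowMat l ρ with hB
  have h1 : ∏ r, (∏ w, η w ^ B r w) ^ B.adjugate v r = 1 := by
    refine Finset.prod_eq_one fun r _ => ?_
    rcases hr : ρ r with p | w
    · have h2 : ∏ w, η w ^ B r w = 1 := by
        rw [← h r p hr]
        refine Finset.prod_congr rfl fun w _ => ?_
        rw [hB, rowMat, Matrix.of_apply, hr, Sum.elim_inl]
      rw [h2, one_zpow]
    · rw [hv r w hr, zpow_zero]
  have h2 : ∏ r, (∏ w, η w ^ B r w) ^ B.adjugate v r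
      = ∏ w, η w ^ (∑ r, B.adjugate v r * B r w) := by
    have h3 : ∀ r, (∏ w, η w ^ B r w) ^ B.adjugate v r
        = ∏ w, η w ^ (B.adjugate v r * B r w) := by
      intro r
      rw [← Finset.prod_zpow]
      refine Finset.prod_congr rfl fun w _ => ?_
      rw [← zpow_mul, mul_comm]
    simp only [h3]
    rw [Finset.prod_comm]
    refine Finset.prod_congr rfl fun w _ => ?_
    have hw := hη w
    induction (univ : Finset V) using Finset.cons_induction with
    | empty => simp
    | cons a s ha ih => rw [Finset.prod_cons, Finset.sum_cons, zpow_add₀ hw, ih]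
  have h3 : ∀ w, ∑ r, B.adjugate v r * B r w = if v = w then B.det else 0 := by
    intro w
    have := congrFun (congrFun (Matrix.adjugate_mul B) v) w
    rw [Matrix.mul_apply] at this
    rw [this, Matrix.smul_apply, Matrix.one_apply]
    split_ifs <;> simp
  rw [h2] at h1
  simp only [h3] at h1
  rw [Finset.prod_eq_single v] at h1
  · simp only [if_true] at h1
    rcases Int.natAbs_eq B.det with h4 | h4
    · rw [h4] at h1
      rwa [zpow_natCast] at h1
    · rw [h4, zpow_neg, inv_eq_one] at h1
      rwa [zpow_natCast] at h1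
  · intro w _ hw
    rw [if_neg (Ne.symm hw), zpow_zero]
  · intro h; exact absurd (mem_univ v) h

theorem det_bound {ι V : Type*} [Fintype V] [DecidableEq V] (l : ι → V → ℤ) (ρ : V → ι ⊕ V)
    (hl : ∀ r p, ρ r = Sum.inl p → ∀ w, |l p w| ≤ 2) :
    (rowMat l ρ).det.natAbs ≤ (Fintype.card V).factorial * 2 ^ Fintype.card V := by
  have h1 := Matrix.det_le (A := rowMat l ρ) (abv := AbsoluteValue.abs) (x := (2 : ℤ)) (by
    intro r w
    change |rowMat l ρ r w| ≤ 2
    rw [rowMat, Matrix.of_apply]
    rcases hr : ρ r with p | w'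
    · rw [Sum.elim_inl]; exact hl r p hr w
    · rw [Sum.elim_inr]
      by_cases h : w = w'
      · subst h; simp
      · rw [Pi.single_eq_of_ne h]; simp)
  have h2 : |(rowMat l ρ).det| ≤ (Fintype.card V).factorial • (2 : ℤ) ^ Fintype.card V := h1
  rw [nsmul_eq_mul] at h2
  have h3 : (((rowMat l ρ).det.natAbs : ℕ) : ℤ) = |(rowMat l ρ).det| := Int.natCast_natAbs _
  have h4 : (((rowMat l ρ).det.natAbs : ℕ) : ℤ) ≤ (((Fintype.card V).factorial * 2 ^ Fintype.card V : ℕ) : ℤ) := by
    rw [h3]; push_cast; exact h2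
  exact_mod_cast h4

end Pool.Agent.Helper82.EB
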