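import Mathlib
import Pool.Agent.Helper78.TheoremA

/-!
# Expansion of the relation between two arrays of roots of unity in monomials
-/

set_option autoImplicit false

namespace Pool.Agent.Helper82.EB

open Finset Filter Topology
open Pool.Agent.Helper78.TheoremA (num den rowP)

variable {K n : ℕ}

/-- the index set of the variables: the root of unity `ζ` and the entries of two arrays -/
abbrev VV (K n : ℕ) := (Fin K × Fin n) ⊕ (Fin K × Fin n)

/-- the factor of a variable -/
noncomputable def Ff (ξ : Option (VV K n) → ℂ) (v : VV K n) : ℂ :=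
  ξ none + (ξ none)⁻¹ - ξ (some v) - (ξ (some v))⁻¹

/-- the factors which are missing in a summand -/
def ms (b : Bool) (i : Fin K) : VV K n → Bool :=
  Sum.elim (fun v => b && decide (v.1 = i)) (fun v => !b && decide (v.1 = i))

/-- coefficients -/
def kap (m : Bool) : Fin 4 → ℚ := if m then ![1, 0, 0, 0] else ![1, 1, -1, -1]

/-- exponents -/
def mu (m : Bool) (v : VV K n) : Fin 4 → Option (VV K n) → ℤ :=
  if m then fun _ _ => 0 else
    ![Pi.single none 1, Pi.single none (-1), Pi.single (some v) 1, Pi.single (some v) (-1)]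

/-- the index set of the summands -/
abbrev SS (K n : ℕ) := Bool × Fin K × (VV K n → Fin 4)

/-- coefficients of the monomials -/
def cof (s : SS K n) : ℚ := (if s.1 then 1 else -1) * ∏ v, kap (ms s.1 s.2.1 v) (s.2.2 v)

/-- exponents of the monomials -/
def alp (s : SS K n) (w : Option (VV K n)) : ℤ := ∑ v, mu (ms s.1 s.2.1 v) v (s.2.2 v) w

lemma prod_single {W : Type*} [Fintype W] [DecidableEq W] (ξ : W → ℂ) (w₀ : W) (a : ℤ) :
    ∏ w, ξ w ^ (Pi.single w₀ a : W → ℤ) w = ξ w₀ ^ a := by
  rw [Finset.prod_eq_single w₀]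
  · rw [Pi.single_eq_same]
  · intro w _ hw
    rw [Pi.single_eq_of_ne hw, zpow_zero]
  · intro h; exact absurd (mem_univ _) h

lemma factor (ξ : Option (VV K n) → ℂ) (m : Bool) (v : VV K n) :
    ∑ c : Fin 4, (kap m c : ℂ) * ∏ w, ξ w ^ mu m v c w = if m then 1 else Ff ξ v := by
  cases m with
  | true =>
    simp [Fin.sum_univ_four, kap, mu]
  | false =>
    rw [Fin.sum_univ_four]
    have h0 : mu false v 0 = Pi.single none 1 := by simp [mu]
    have h1 : mu false v 1 = Pi.single none (-1) := by simp [mu]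
    have h2 : mu false v 2 = Pi.single (some v) 1 := by simp [mu]
    have h3 : mu false v 3 = Pi.single (some v) (-1) := by simp [mu]
    rw [h0, h1, h2, h3, prod_single, prod_single, prod_single, prod_single]
    simp only [kap, Ff, zpow_one, zpow_neg]
    simp
    ring

lemma expand (ξ : Option (VV K n) → ℂ) (hξ : ∀ w, ξ w ≠ 0) (m : VV K n → Bool) :
    ∏ v, (if m v then 1 else Ff ξ v) =
      ∑ f : VV K n → Fin 4, ((∏ v, kap (m v) (f v) : ℚ) : ℂ) *
        ∏ w, ξ w ^ ∑ v, mu (m v) v (f v) w := by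
  have h1 : ∀ v, (if m v then 1 else Ff ξ v)
      = ∑ c : Fin 4, (kap (m v) c : ℂ) * ∏ w, ξ w ^ mu (m v) v c w := fun v => (factor ξ (m v) v).symm
  simp only [h1]
  rw [Finset.prod_univ_sum, Fintype.piFinset_univ]
  refine Finset.sum_congr rfl fun f _ => ?_
  rw [Finset.prod_mul_distrib]
  push_cast
  congr 1
  rw [Finset.prod_comm]
  refine Finset.prod_congr rfl fun w _ => ?_
  have hw := hξ w
  induction (univ : Finset (VV K n)) using Finset.cons_induction with
  | empty => simp
  | cons a s ha ih => rw [Finset.prod_cons, Finset.sum_cons, zpow_add₀ hw, ih]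

lemma num_eq (F : Fin K × Fin n → ℂ) : num F = ∑ i, ∏ v, if v.1 = i then 1 else F v := by
  rw [num]
  refine Finset.sum_congr rfl fun i _ => ?_
  rw [Fintype.prod_prod_type]
  rw [← Finset.mul_prod_erase univ _ (mem_univ i)]
  have h1 : (∏ y : Fin n, if ((i, y) : Fin K × Fin n).1 = i then (1 : ℂ) else F (i, y)) = 1 :=
    Finset.prod_eq_one fun y _ => by rw [if_pos rfl]
  rw [h1, one_mul]
  refine Finset.prod_congr rfl fun i' hi' => ?_
  rw [rowP]
  refine Finset.prod_congr rfl fun j _ => ?_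
  rw [if_neg (Finset.ne_of_mem_erase hi')]

lemma den_eq (F : Fin K × Fin n → ℂ) : den F = ∏ v, F v := by
  rw [den, Fintype.prod_prod_type]
  rfl

/-- the relation as a sum of monomials -/
theorem total (ξ : Option (VV K n) → ℂ) (hξ : ∀ w, ξ w ≠ 0) :
    num (fun v => Ff ξ (Sum.inl v)) * den (fun v => Ff ξ (Sum.inr v))
      - num (fun v => Ff ξ (Sum.inr v)) * den (fun v => Ff ξ (Sum.inl v))
      = ∑ s : SS K n, (cof s : ℂ) * ∏ w, ξ w ^ alp s w := by
  rw [Fintype.sum_prod_type, Fintype.sum_bool]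
  have h1 : ∀ b : Bool, ∑ y : Fin K × (VV K n → Fin 4), (cof (b, y) : ℂ) * ∏ w, ξ w ^ alp (b, y) w
      = (if b then 1 else -1) * ∑ i, ∏ v, (if ms b i v then 1 else Ff ξ v) := by
    intro b
    rw [Fintype.sum_prod_type, Finset.mul_sum]
    refine Finset.sum_congr rfl fun i _ => ?_
    rw [expand ξ hξ, Finset.mul_sum]
    refine Finset.sum_congr rfl fun f _ => ?_
    rw [cof]
    simp only [alp]
    push_cast
    rw [mul_assoc]
    congr 1
    cases b <;> simp
  rw [h1, h1]
  have h2 : ∑ i, ∏ v : VV K n, (if ms true i v then 1 else Ff ξ v)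
      = num (fun v => Ff ξ (Sum.inl v)) * den (fun v => Ff ξ (Sum.inr v)) := by
    rw [num_eq, den_eq, Finset.sum_mul]
    refine Finset.sum_congr rfl fun i _ => ?_
    rw [Fintype.prod_sum_type]
    simp [ms]
  have h3 : ∑ i, ∏ v : VV K n, (if ms false i v then 1 else Ff ξ v)
      = num (fun v => Ff ξ (Sum.inr v)) * den (fun v => Ff ξ (Sum.inl v)) := by
    rw [num_eq, den_eq, Finset.sum_mul]
    refine Finset.sum_congr rfl fun i _ => ?_
    rw [Fintype.prod_sum_type, mul_comm]
    simp [ms]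
  rw [h2, h3]
  simp
  ring

lemma mu_sum_abs (m : Bool) (v : VV K n) (c : Fin 4) : ∑ w, |mu m v c w| ≤ 1 := by
  cases m with
  | true => simp [mu]
  | false =>
    have h1 : ∀ (w₀ : Option (VV K n)) (a : ℤ), |a| ≤ 1 →
        ∑ w, |(Pi.single w₀ a : Option (VV K n) → ℤ) w| ≤ 1 := by
      intro w₀ a ha
      rw [Finset.sum_eq_single w₀]
      · rw [Pi.single_eq_same]; exact ha
      · intro w _ hw
        rw [Pi.single_eq_of_ne hw, abs_zero]
      · intro h; exact absurd (mem_univ _) h
    fin_cases c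
    · exact h1 none 1 (by simp)
    · exact h1 none (-1) (by simp)
    · exact h1 (some v) 1 (by simp)
    · exact h1 (some v) (-1) (by simp)

lemma alp_sum_abs (s : SS K n) : ∑ w, |alp s w| ≤ ((2 * (K * n) : ℕ) : ℤ) := by
  calc ∑ w, |alp s w| ≤ ∑ w, ∑ v, |mu (ms s.1 s.2.1 v) v (s.2.2 v) w| :=
        Finset.sum_le_sum fun w _ => Finset.abs_sum_le_sum_abs _ _
    _ = ∑ v, ∑ w, |mu (ms s.1 s.2.1 v) v (s.2.2 v) w| := Finset.sum_comm
    _ ≤ ∑ _v : VV K n, (1 : ℤ) := Finset.sum_le_sum fun v _ => mu_sum_abs _ _ _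
    _ = ((2 * (K * n) : ℕ) : ℤ) := by
      simp
      ring

lemma alp_some (s : SS K n) (v : VV K n) : |alp s (some v)| ≤ 1 := by
  have h1 : alp s (some v) = mu (ms s.1 s.2.1 v) v (s.2.2 v) (some v) := by
    rw [alp]
    rw [Finset.sum_eq_single v]
    · intro v' _ hv'
      generalize s.2.2 v' = c
      generalize ms s.1 s.2.1 v' = m
      cases m with
      | true => simp [mu]
      | false =>
        have h2 : (some v : Option (VV K n)) ≠ some v' := fun h => hv' (Option.some_injective _ h).symm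
        fin_cases c
        · exact Pi.single_eq_of_ne (Option.some_ne_none v) (1 : ℤ)
        · exact Pi.single_eq_of_ne (Option.some_ne_none v) (-1 : ℤ)
        · have h3 : (Pi.single (some v') (1 : ℤ) : Option (VV K n) → ℤ) (some v) = 0 :=
            Pi.single_eq_of_ne h2 _
          exact h3
        · have h3 : (Pi.single (some v') (-1 : ℤ) : Option (VV K n) → ℤ) (some v) = 0 :=
            Pi.single_eq_of_ne h2 _
          exact h3
    · intro h; exact absurd (mem_univ _) h
  rw [h1]
  calc |mu (ms s.1 s.2.1 v) v (s.2.2 v) (some v)|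
      ≤ ∑ w, |mu (ms s.1 s.2.1 v) v (s.2.2 v) w| :=
        Finset.single_le_sum (f := fun w => |mu (ms s.1 s.2.1 v) v (s.2.2 v) w|)
          (fun _ _ => abs_nonneg _) (mem_univ _)
    _ ≤ 1 := mu_sum_abs _ _ _

lemma card_SS : Fintype.card (SS K n) = 2 * K * 16 ^ (K * n) := by
  simp only [Fintype.card_prod, Fintype.card_bool, Fintype.card_fin, Fintype.card_pi,
    Finset.prod_const, Finset.card_univ, Fintype.card_sum]
  rw [← mul_assoc]
  congr 1
  rw [← two_mul, pow_mul]
  norm_num

end Pool.Agent.Helper82.EB
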