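import Mathlib

/-!
# Counting the good exponents
-/

set_option autoImplicit false

namespace Pool.Agent.Helper82.EB

open Finset

/-- The product of the primes of a set. -/
theorem totient_prod_primes (P : Finset ℕ) (hP : ∀ p ∈ P, p.Prime) :
    Nat.totient (∏ p ∈ P, p) = ∏ p ∈ P, (p - 1) := by
  classical
  induction P using Finset.induction_on with
  | empty => simp
  | insert a s ha ih =>
    rw [prod_insert ha, prod_insert ha, Nat.totient_mul, ih fun p hp => hP p (mem_insert_of_mem hp),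
      Nat.totient_prime (hP a (mem_insert_self a s))]
    rw [Nat.coprime_prod_right_iff]
    intro b hb
    exact (Nat.coprime_primes (hP a (mem_insert_self a s)) (hP b (mem_insert_of_mem hb))).mpr
      fun h => ha (h ▸ hb)

theorem prod_le_mul (k : ℕ) (hk : 1 ≤ k) (P : Finset ℕ) (hP : ∀ p ∈ P, p.Prime ∧ p ≤ k) :
    ∏ p ∈ P, p ≤ k * ∏ p ∈ P, (p - 1) := by
  classical
  have h1 : ∀ n : ℕ, 1 ≤ n → ∏ j ∈ Finset.Ico 2 (n + 1), ((j : ℚ) / (j - 1)) = n := by
    intro n hn
    induction n, hn using Nat.le_induction with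
    | base => simp
    | succ n hn ih =>
      rw [Finset.prod_Ico_succ_top (by omega), ih]
      push_cast
      have h0 : (n : ℚ) ≠ 0 := by positivity
      have h1 : (n : ℚ) + 1 - 1 = n := by ring
      rw [h1, mul_div_assoc', mul_div_cancel_left₀ _ h0]
  have h2 : ∏ p ∈ P, ((p : ℚ) / (p - 1)) ≤ k := by
    rw [← h1 k hk]
    refine Finset.prod_le_prod_of_subset_of_one_le ?_ ?_ ?_
    · intro p hp
      rw [Finset.mem_Ico]
      exact ⟨(hP p hp).1.two_le, by have := (hP p hp).2; omega⟩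
    · intro p hp
      have h3 : (2 : ℚ) ≤ p := by exact_mod_cast (hP p hp).1.two_le
      exact div_nonneg (by linarith) (by linarith)
    · intro j hj _
      rw [Finset.mem_Ico] at hj
      have h3 : (2 : ℚ) ≤ j := by exact_mod_cast hj.1
      rw [le_div_iff₀ (by linarith)]
      linarith
  rw [Finset.prod_div_distrib] at h2
  have h4 : (0 : ℚ) < ∏ p ∈ P, ((p : ℚ) - 1) := by
    refine Finset.prod_pos fun p hp => ?_
    have h3 : (2 : ℚ) ≤ p := by exact_mod_cast (hP p hp).1.two_le
    linarith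
  rw [div_le_iff₀ h4] at h2
  have h5 : ∏ p ∈ P, ((p : ℚ) - 1) = ((∏ p ∈ P, (p - 1) : ℕ) : ℚ) := by
    push_cast
    refine Finset.prod_congr rfl fun p hp => ?_
    rw [Nat.cast_sub (by have := (hP p hp).1.two_le; omega)]
    simp
  have h6 : ∏ p ∈ P, (p : ℚ) = ((∏ p ∈ P, p : ℕ) : ℚ) := by push_cast; rfl
  rw [h5, h6] at h2
  exact_mod_cast h2

/-- For `c ≥ 1`, at least `e / k` of the numbers `t < e` are such that `1 + c t` has no prime
factor `p ≤ k` in common with `e`. -/
theorem card_good (k e c : ℕ) (hk : 1 ≤ k) (he : 0 < e) :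
    ∃ T : Finset ℕ, T ⊆ range e ∧
      (∀ t ∈ T, ∀ p : ℕ, p.Prime → p ∣ 1 + c * t → p ∣ e → k < p) ∧ e ≤ k * T.card := by
  classical
  refine ⟨(range e).filter fun t => ∀ p : ℕ, p.Prime → p ∣ 1 + c * t → p ∣ e → k < p,
    filter_subset _ _, fun t ht => (mem_filter.mp ht).2, ?_⟩
  set P : Finset ℕ := (range (k + 1)).filter fun p => p.Prime ∧ p ∣ e ∧ ¬ p ∣ c with hPdef
  have hP : ∀ p ∈ P, p.Prime ∧ p ≤ k := by
    intro p hp
    rw [hPdef, mem_filter, mem_range] at hp
    exact ⟨hp.2.1, by omega⟩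
  set m := ∏ p ∈ P, p with hm
  have hm0 : 0 < m := Finset.prod_pos fun p hp => (hP p hp).1.pos
  have hme : m ∣ e := by
    refine Finset.prod_primes_dvd _ (fun p hp => (hP p hp).1.prime) fun p hp => ?_
    rw [hPdef, mem_filter] at hp
    exact hp.2.2.1
  have hcm : Nat.Coprime c m := by
    rw [hm, Nat.coprime_prod_right_iff]
    intro p hp
    rw [Nat.coprime_comm, Nat.Prime.coprime_iff_not_dvd (hP p hp).1]
    rw [hPdef, mem_filter] at hp
    exact hp.2.2.2
  obtain ⟨f, hf⟩ := hme
  have hf0 : 0 < f := by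
    rcases Nat.eq_zero_or_pos f with h | h
    · rw [h, mul_zero] at hf; omega
    · exact h
  have : NeZero m := ⟨hm0.ne'⟩
  -- the injection
  let u : (ZMod m)ˣ := ZMod.unitOfCoprime c hcm
  let g : (ZMod m)ˣ × Fin f → ℕ := fun x =>
    (((x.1 : ZMod m) - 1) * ((u⁻¹ : (ZMod m)ˣ) : ZMod m)).val + m * x.2.val
  have hginj : Function.Injective g := by
    intro x y hxy
    have h1 : (g x) % m = (g y) % m := by rw [hxy]
    have h2 : (g x) / m = (g y) / m := by rw [hxy]
    have hlx : (((x.1 : ZMod m) - 1) * ((u⁻¹ : (ZMod m)ˣ) : ZMod m)).val < m := ZMod.val_lt _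
    have hly : (((y.1 : ZMod m) - 1) * ((u⁻¹ : (ZMod m)ˣ) : ZMod m)).val < m := ZMod.val_lt _
    simp only [g] at h1 h2
    rw [Nat.add_mul_mod_self_left, Nat.add_mul_mod_self_left, Nat.mod_eq_of_lt hlx,
      Nat.mod_eq_of_lt hly] at h1
    rw [Nat.add_mul_div_left _ _ hm0, Nat.add_mul_div_left _ _ hm0, Nat.div_eq_of_lt hlx,
      Nat.div_eq_of_lt hly, zero_add, zero_add] at h2
    have h3 := ZMod.val_injective m h1
    have h4 : ((x.1 : ZMod m) - 1) = ((y.1 : ZMod m) - 1) := (Units.mul_left_inj u⁻¹).mp h3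
    refine Prod.ext (Units.ext ?_) (Fin.ext h2)
    exact sub_left_injective h4
  have hgmem : ∀ x ∈ (univ : Finset ((ZMod m)ˣ × Fin f)), g x ∈ ((range e).filter
      fun t => ∀ p : ℕ, p.Prime → p ∣ 1 + c * t → p ∣ e → k < p) := by
    intro x _
    rw [mem_filter, mem_range]
    have hlx : (((x.1 : ZMod m) - 1) * ((u⁻¹ : (ZMod m)ˣ) : ZMod m)).val < m := ZMod.val_lt _
    refine ⟨?_, ?_⟩
    · have h1 : x.2.val + 1 ≤ f := x.2.2
      have h2 : m * (x.2.val + 1) ≤ m * f := Nat.mul_le_mul_left m h1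
      rw [hf]
      simp only [g]
      rw [mul_add, mul_one] at h2
      omega
    · intro p hp hpd hpe
      by_contra hkp
      push Not at hkp
      by_cases hpc : p ∣ c
      · have h1 : p ∣ c * g x := Dvd.dvd.mul_right hpc _
        have h2 : p ∣ 1 := (Nat.dvd_add_left h1).mp hpd
        exact hp.one_lt.ne' (Nat.dvd_one.mp h2)
      · have hpP : p ∈ P := by
          rw [hPdef, mem_filter, mem_range]
          exact ⟨by omega, hp, hpe, hpc⟩
        have hpm : p ∣ m := Finset.dvd_prod_of_mem _ hpP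
        have h1 : ((1 + c * g x : ℕ) : ZMod m) = (x.1 : ZMod m) := by
          have h2 : ((c : ℕ) : ZMod m) = ((u : (ZMod m)ˣ) : ZMod m) := rfl
          simp only [g]
          push_cast
          rw [ZMod.natCast_self, zero_mul, add_zero, ZMod.natCast_val, ZMod.cast_id, h2]
          rw [mul_comm ((x.1 : ZMod m) - 1), ← mul_assoc, ← Units.val_mul, mul_inv_cancel,
            Units.val_one, one_mul]
          ring
        have h3 : Nat.Coprime (1 + c * g x) m := by
          rw [← ZMod.isUnit_iff_coprime, h1]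
          exact x.1.isUnit
        have h4 : p ∣ Nat.gcd (1 + c * g x) m := Nat.dvd_gcd hpd hpm
        rw [Nat.Coprime] at h3
        rw [h3] at h4
        exact hp.one_lt.ne' (Nat.dvd_one.mp h4)
  have hcard := Finset.card_le_card_of_injOn g hgmem hginj.injOn
  rw [Finset.card_univ, Fintype.card_prod, ZMod.card_units_eq_totient, Fintype.card_fin] at hcard
  have h5 : m ≤ k * Nat.totient m := by
    rw [hm, totient_prod_primes P fun p hp => (hP p hp).1]
    exact prod_le_mul k hk P hP
  calc e = m * f := hf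
    _ ≤ (k * Nat.totient m) * f := Nat.mul_le_mul_right f h5
    _ = k * (Nat.totient m * f) := by ring
    _ ≤ _ := Nat.mul_le_mul_left k hcard

end Pool.Agent.Helper82.EB
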