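import Mathlib

/-!
# Simultaneous approximation
-/

set_option autoImplicit false

namespace Pool.Agent.Helper82.EB

open Finset

theorem box_close {e Y a b : ℕ} (he : 0 < e) (h : Y * a / e = Y * b / e) :
    |(b : ℤ) - a| * Y < e := by
  have h1 := Nat.div_add_mod (Y * a) e
  have h2 := Nat.div_add_mod (Y * b) e
  have h3 := Nat.mod_lt (Y * a) he
  have h4 := Nat.mod_lt (Y * b) he
  rw [h] at h1
  set q := e * (Y * b / e)
  have h5 : |(b : ℤ) - a| * Y = |(Y * b : ℤ) - Y * a| := by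
    rw [← mul_sub, abs_mul, Nat.abs_cast, mul_comm]
  rw [h5, abs_lt]
  constructor
  · have : (Y * a : ℕ) < Y * b + e := by omega
    have : ((Y * a : ℕ) : ℤ) < ((Y * b : ℕ) : ℤ) + e := by exact_mod_cast this
    push_cast at this
    linarith
  · have : (Y * b : ℕ) < Y * a + e := by omega
    have : ((Y * b : ℕ) : ℤ) < ((Y * a : ℕ) : ℤ) + e := by exact_mod_cast this
    push_cast at this
    linarith

theorem dirichlet {W : Type*} [Fintype W] (e Y : ℕ) (he : 0 < e) (hY : 1 ≤ Y) (x : W → ℕ) :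
    ∃ c : ℕ, 1 ≤ c ∧ c ≤ Y ^ Fintype.card W ∧ ∃ v : W → ℤ, (∀ w, |v w| * Y < e) ∧
      ∀ w, ∃ m : ℤ, (c : ℤ) * x w = v w + m * e := by
  classical
  have hlt : ∀ a, a < e → Y * a / e < Y := by
    intro a ha
    rw [Nat.div_lt_iff_lt_mul he]
    exact Nat.mul_lt_mul_of_pos_left ha (by omega)
  let f : Fin (Y ^ Fintype.card W + 1) → (W → Fin Y) := fun j w =>
    ⟨Y * ((j.val * x w) % e) / e, hlt _ (Nat.mod_lt _ he)⟩
  have hcard : Fintype.card (W → Fin Y) < Fintype.card (Fin (Y ^ Fintype.card W + 1)) := by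
    rw [Fintype.card_fun, Fintype.card_fin, Fintype.card_fin]
    exact Nat.lt_succ_self _
  obtain ⟨i, j, hij, hf⟩ := Fintype.exists_ne_map_eq_of_card_lt f hcard
  have key : ∀ i j : Fin (Y ^ Fintype.card W + 1), i < j → f i = f j →
      ∃ c : ℕ, 1 ≤ c ∧ c ≤ Y ^ Fintype.card W ∧ ∃ v : W → ℤ, (∀ w, |v w| * Y < e) ∧
      ∀ w, ∃ m : ℤ, (c : ℤ) * x w = v w + m * e := by
    intro i j hij hf
    have hlt : i.val < j.val := hij
    refine ⟨j.val - i.val, by omega, by have := j.2; omega,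
      fun w => (((j.val * x w) % e : ℕ) : ℤ) - (((i.val * x w) % e : ℕ) : ℤ), fun w => ?_,
      fun w => ⟨((j.val * x w / e : ℕ) : ℤ) - ((i.val * x w / e : ℕ) : ℤ), ?_⟩⟩
    · exact box_close he (congrArg Fin.val (congrFun hf w))
    · have h1 := Nat.div_add_mod (j.val * x w) e
      have h2 := Nat.div_add_mod (i.val * x w) e
      have h1' : ((e : ℤ) * ((j.val * x w / e : ℕ) : ℤ)) + ((j.val * x w % e : ℕ) : ℤ)
          = (j.val : ℤ) * x w := by exact_mod_cast h1
      have h2' : ((e : ℤ) * ((i.val * x w / e : ℕ) : ℤ)) + ((i.val * x w % e : ℕ) : ℤ)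
          = (i.val : ℤ) * x w := by exact_mod_cast h2
      rw [Nat.cast_sub hlt.le, sub_mul]
      linear_combination h2' - h1'
  rcases lt_or_gt_of_ne hij with h | h
  · exact key i j h hf
  · exact key j i h hf.symm

end Pool.Agent.Helper82.EB
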