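import Mathlib
import Pool.Agent.Helper78.Mann

/-!
# Rational relations between few roots of unity

If a rational combination of at most `k` roots of unity of order dividing `e` vanishes, then it
still vanishes when all the roots are raised to a power `t` that has no prime factor `p ≤ k` in
common with `e`.
-/

set_option autoImplicit false

namespace Pool.Agent.Helper82.EB

open Finset Pool.Agent.Helper78.Mann

theorem conj_rel {S : Type*} (k t : ℕ) (e : ℕ) (he : 0 < e) (s : Finset S) (c : S → ℚ)
    (ξ : S → ℂ) (hk : s.card ≤ k) (hξ : ∀ i ∈ s, ξ i ^ e = 1)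
    (h0 : ∑ i ∈ s, (c i : ℂ) * ξ i = 0)
    (ht : ∀ p : ℕ, p.Prime → p ∣ t → p ∣ e → k < p) :
    ∑ i ∈ s, (c i : ℂ) * ξ i ^ t = 0 := by
  classical
  induction e using Nat.strong_induction_on generalizing s ξ with
  | _ e ih =>
    by_cases hex : ∃ p : ℕ, p.Prime ∧ p ∣ t ∧ p ∣ e
    · obtain ⟨p, hp, hpt, Q, rfl⟩ := hex
      have hkp : k < p := ht p hp hpt (Dvd.intro Q rfl)
      have hQ : 0 < Q := by
        rcases Nat.eq_zero_or_pos Q with h | h
        · subst h; simp at he
        · exact h
      have hlt : Q < p * Q := by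
        have := hp.two_le
        nlinarith
      have hg := group_vanish hQ hp s c ξ hξ h0 (Or.inr (lt_of_le_of_lt hk hkp))
      set Y := s.image (fun i => ξ i ^ Q) with hY
      have h2 : ∀ i ∈ s, ξ i ^ Q ∈ Y := fun i hi => Finset.mem_image_of_mem _ hi
      rw [← Finset.sum_fiberwise_of_maps_to h2]
      refine Finset.sum_eq_zero fun y _ => ?_
      set T := s.filter (fun i => ξ i ^ Q = y) with hT
      rcases T.eq_empty_or_nonempty with hem | ⟨i₀, hi₀⟩
      · rw [hem]; simp
      have hi₀' := Finset.mem_filter.mp hi₀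
      have hξ0 : ξ i₀ ≠ 0 := by
        intro h
        have := hξ i₀ hi₀'.1
        rw [h, zero_pow he.ne'] at this
        exact zero_ne_one this
      have hy0 : y ≠ 0 := by
        rw [← hi₀'.2]; exact pow_ne_zero _ hξ0
      have h3 := ih Q hlt hQ T (fun i => ξ i / ξ i₀)
        (le_trans (Finset.card_le_card (Finset.filter_subset _ _)) hk) (by
          intro i hi
          have := (Finset.mem_filter.mp hi).2
          rw [div_pow, this, hi₀'.2, div_self hy0]) (by
          have h4 : ∑ i ∈ T, (c i : ℂ) * (ξ i / ξ i₀) = (∑ i ∈ T, (c i : ℂ) * ξ i) / ξ i₀ := by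
            rw [Finset.sum_div]
            exact Finset.sum_congr rfl fun i _ => by ring
          rw [h4, hg y, zero_div])
        (fun q hq hqt hqQ => ht q hq hqt (Dvd.dvd.mul_left hqQ p))
      have h6 : ∑ i ∈ T, (c i : ℂ) * (ξ i / ξ i₀) ^ t
          = (∑ i ∈ T, (c i : ℂ) * ξ i ^ t) / ξ i₀ ^ t := by
        rw [Finset.sum_div]
        exact Finset.sum_congr rfl fun i _ => by rw [div_pow]; ring
      rw [h6, div_eq_zero_iff] at h3
      exact h3.resolve_right (pow_ne_zero _ hξ0)
    · have hcop : Nat.Coprime t e := by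
        by_contra hne
        exact hex (Nat.Prime.not_coprime_iff_dvd.mp hne)
      exact galois_sum he s c ξ hξ h0 hcop

end Pool.Agent.Helper82.EB
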