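import Mathlib
import Pool.Agent.Helper82.EB.Gal
import Pool.Agent.Helper82.EB.Cnt
import Pool.Agent.Helper82.EB.Dir

/-!
# Relations between monomials in roots of unity

A relation between monomials in roots of unity breaks up into relations between monomials whose
quotients are roots of unity of bounded order; the bound does not depend on the order of the
given roots of unity.
-/

set_option autoImplicit false

namespace Pool.Agent.Helper82.EB

open Finset Polynomial

theorem step {S W : Type*} [Fintype S] [Fintype W] (k A : ℕ) (c : S → ℚ) (α : S → W → ℤ)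
    (hk : Fintype.card S ≤ k) (hk1 : 1 ≤ k) (hA : ∀ s, ∑ w, |α s w| ≤ A) (e : ℕ) (he : 0 < e)
    (ξ : W → ℂ) (hξ : ∀ w, ξ w ^ e = 1)
    (hrel : ∑ s, (c s : ℂ) * ∏ w, ξ w ^ α s w = 0) :
    ∃ n : ℕ, 1 ≤ n ∧ n ≤ (2 * A * k + 1) ^ Fintype.card W ∧ ∃ a : S → ℤ,
      (∀ s s', a s = a s' → (∏ w, ξ w ^ α s w) ^ n = (∏ w, ξ w ^ α s' w) ^ n) ∧
      ∀ b : ℤ, ∑ s with a s = b, (c s : ℂ) * ∏ w, ξ w ^ α s w = 0 := by
  classical
  have hω : IsPrimitiveRoot (Complex.exp (2 * Real.pi * Complex.I / e)) e :=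
    Complex.isPrimitiveRoot_exp e he.ne'
  set ω := Complex.exp (2 * Real.pi * Complex.I / e) with hωdef
  have hω0 : ω ≠ 0 := Complex.exp_ne_zero _
  have : NeZero e := ⟨he.ne'⟩
  have hx : ∀ w, ∃ x : ℕ, ω ^ x = ξ w := by
    intro w
    obtain ⟨x, _, hx⟩ := hω.eq_pow_of_pow_eq_one (hξ w)
    exact ⟨x, hx⟩
  choose x hx using hx
  obtain ⟨n, hn1, hn2, v, hv, hm⟩ := dirichlet e (2 * A * k + 1) he (by omega) x
  choose m hm using hm
  set τ : S → ℂ := fun s => ∏ w, ξ w ^ α s w with hτ
  set a : S → ℤ := fun s => ∑ w, α s w * v w with ha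
  have hτω : ∀ s, τ s = ω ^ (∑ w, α s w * x w) := by
    intro s
    have h1 : ∀ w, ξ w ^ α s w = ω ^ (α s w * x w) := by
      intro w
      rw [← hx w, ← zpow_natCast ω (x w), ← zpow_mul, mul_comm]
    rw [hτ]
    simp only [h1]
    generalize (univ : Finset W) = U
    induction U using Finset.induction_on with
    | empty => simp
    | insert w U hw ih => rw [prod_insert hw, sum_insert hw, zpow_add₀ hω0, ih]
  have hτn : ∀ s, τ s ^ n = ω ^ a s := by
    intro s
    have h1 : (∑ w, α s w * x w) * (n : ℤ) = a s + (∑ w, α s w * m w) * e := by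
      rw [ha]
      simp only
      rw [Finset.sum_mul, Finset.sum_mul, ← Finset.sum_add_distrib]
      refine Finset.sum_congr rfl fun w _ => ?_
      linear_combination α s w * hm w
    rw [hτω, ← zpow_natCast, ← zpow_mul, h1, zpow_add₀ hω0, mul_comm (∑ w, α s w * m w),
      zpow_mul, zpow_natCast, hω.pow_eq_one, one_zpow, mul_one]
  have hτe : ∀ s, τ s ^ e = 1 := by
    intro s
    rw [hτω, ← zpow_natCast, ← zpow_mul, mul_comm, zpow_mul, zpow_natCast, hω.pow_eq_one,
      one_zpow]
  refine ⟨n, hn1, hn2, a, fun s s' hss => ?_, fun b => ?_⟩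
  · change τ s ^ n = τ s' ^ n
    rw [hτn, hτn, hss]
  -- the polynomial
  obtain ⟨T, hTe, hTp, hTc⟩ := card_good k e n hk1 he
  set A' : ℕ := univ.sup fun s => (a s).natAbs with hA'
  have haA' : ∀ s, (a s).natAbs ≤ A' := fun s =>
    Finset.le_sup (f := fun s => (a s).natAbs) (mem_univ s)
  have haY : ∀ s, (a s).natAbs * (2 * A * k + 1) ≤ A * e := by
    intro s
    have h1 : |a s| * ((2 * A * k + 1 : ℕ) : ℤ) ≤ A * e := by
      calc |a s| * ((2 * A * k + 1 : ℕ) : ℤ)
          ≤ (∑ w, |α s w * v w|) * ((2 * A * k + 1 : ℕ) : ℤ) := by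
            gcongr
            exact Finset.abs_sum_le_sum_abs _ _
        _ = ∑ w, |α s w| * (|v w| * ((2 * A * k + 1 : ℕ) : ℤ)) := by
            rw [Finset.sum_mul]
            refine Finset.sum_congr rfl fun w _ => ?_
            rw [abs_mul]; ring
        _ ≤ ∑ w, |α s w| * e := by
            refine Finset.sum_le_sum fun w _ => ?_
            exact mul_le_mul_of_nonneg_left (hv w).le (abs_nonneg _)
        _ = (∑ w, |α s w|) * e := (Finset.sum_mul _ _ _).symm
        _ ≤ A * e := by
            gcongr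
            exact_mod_cast hA s
    have h2 : (((a s).natAbs * (2 * A * k + 1) : ℕ) : ℤ) ≤ ((A * e : ℕ) : ℤ) := by
      push_cast
      push_cast at h1
      exact h1
    exact_mod_cast h2
  have hA'Y : A' * (2 * A * k + 1) ≤ A * e := by
    rcases (univ : Finset S).eq_empty_or_nonempty with h | h
    · rw [hA', h, Finset.sup_empty]
      simp
    · obtain ⟨s, _, hs⟩ := Finset.exists_mem_eq_sup _ h fun s => (a s).natAbs
      rw [hA', hs]
      exact haY s
  have hdeg : 2 * A' < T.card := by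
    by_contra hcon
    push Not at hcon
    have h1 : e ≤ k * (2 * A') := le_trans hTc (Nat.mul_le_mul_left k hcon)
    have h2 : e * (2 * A * k + 1) ≤ 2 * A * k * e := by
      calc e * (2 * A * k + 1) ≤ (k * (2 * A')) * (2 * A * k + 1) := Nat.mul_le_mul_right _ h1
        _ = 2 * k * (A' * (2 * A * k + 1)) := by ring
        _ ≤ 2 * k * (A * e) := Nat.mul_le_mul_left _ hA'Y
        _ = 2 * A * k * e := by ring
    nlinarith
  let d : S → ℕ := fun s => (a s + A').toNat
  have hd : ∀ s, (d s : ℤ) = a s + A' := by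
    intro s
    have h1 := haA' s
    simp only [d]
    rw [Int.toNat_of_nonneg]
    omega
  set P : ℂ[X] := ∑ s, C ((c s : ℂ) * τ s) * X ^ d s with hP
  have hPdeg : P.natDegree ≤ 2 * A' := by
    refine Polynomial.natDegree_sum_le_of_forall_le _ _ fun s _ => ?_
    refine le_trans (Polynomial.natDegree_C_mul_X_pow_le _ _) ?_
    have h1 := haA' s
    have h2 := hd s
    omega
  have hroot : ∀ t ∈ T, P.eval (ω ^ t) = 0 := by
    intro t ht
    have h1 := conj_rel k (1 + n * t) e he univ c τ (by rw [Finset.card_univ]; exact hk)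
      (fun s _ => hτe s) hrel (hTp t ht)
    have h2 : ∀ s, (c s : ℂ) * τ s ^ (1 + n * t) * (ω ^ t) ^ A'
        = (C ((c s : ℂ) * τ s) * X ^ d s : ℂ[X]).eval (ω ^ t) := by
      intro s
      rw [eval_mul, eval_C, eval_pow, eval_X, pow_add, pow_one, pow_mul, hτn]
      have h3 : (ω ^ t) ^ d s = (ω ^ a s) ^ t * (ω ^ t) ^ A' := by
        rw [← zpow_natCast (ω ^ t) (d s), hd s, zpow_add₀ (pow_ne_zero _ hω0), zpow_natCast]
        congr 1
        rw [← zpow_natCast ω t, ← zpow_mul, ← zpow_natCast (ω ^ a s) t, ← zpow_mul, mul_comm]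
      rw [h3]
      ring
    rw [hP, eval_finsetSum]
    rw [← Finset.sum_congr rfl fun s _ => h2 s, ← Finset.sum_mul, h1, zero_mul]
  have hPz : P = 0 := by
    refine Polynomial.eq_zero_of_natDegree_lt_card_of_eval_eq_zero' P (T.image fun t => ω ^ t) ?_ ?_
    · intro y hy
      obtain ⟨t, ht, rfl⟩ := mem_image.mp hy
      exact hroot t ht
    · rw [Finset.card_image_of_injOn]
      · omega
      · intro t ht t' ht' htt
        exact hω.pow_inj (mem_range.mp (hTe ht)) (mem_range.mp (hTe ht')) htt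
  by_cases hb : ∃ s, a s = b
  · obtain ⟨s₀, hs₀⟩ := hb
    have h1 : P.coeff (d s₀) = 0 := by rw [hPz, coeff_zero]
    rw [hP, finsetSum_coeff] at h1
    rw [← h1, Finset.sum_filter]
    refine Finset.sum_congr rfl fun s _ => ?_
    rw [coeff_C_mul, coeff_X_pow]
    have h2 : (a s = b) ↔ (d s₀ = d s) := by
      have h3 := hd s
      have h4 := hd s₀
      rw [← hs₀]
      omega
    by_cases h5 : a s = b
    · rw [if_pos h5, if_pos (h2.mp h5), mul_one]
    · rw [if_neg h5, if_neg fun h => h5 (h2.mpr h), mul_zero]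
  · rw [Finset.filter_false_of_mem, Finset.sum_empty]
    intro s _ hs
    exact hb ⟨s, hs⟩

end Pool.Agent.Helper82.EB
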