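import Mathlib
import Pool.Agent.Helper82.EB.Step
import Pool.Agent.Helper82.EB.Cram
import Pool.Agent.Helper82.EB.Exp

/-!
# Explicit rigidity of sums of products of the reciprocals `(ζ + ζ⁻¹ - u - u⁻¹)⁻¹`
-/

set_option autoImplicit false

namespace Pool.Agent.Helper82.EB

open Finset Filter Topology
open Pool.Agent.Helper78.TheoremA (num den rowP sum_inv_eq den_ne_zero tendsto_factor
  tendsto_inv_zero)
open Pool.Agent.Helper78.Kernel (Alt generic)

/-- along a curve which moves every row the sum tends to zero -/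
theorem limit_zero {K n : ℕ} (ζ : ℂ) (u : Fin K × Fin n → ℂ) (h : Fin K × Fin n → ℤ)
    (hnorm : ∀ v, ‖u v‖ = 1) (hf : ∀ v, ζ + ζ⁻¹ - u v - (u v)⁻¹ ≠ 0) (a b : ℂ) (hb : b ≠ 0)
    (hrel : ∀ t : ℂ, t ≠ 0 →
      num (fun v => ζ + ζ⁻¹ - u v * t ^ h v - (u v * t ^ h v)⁻¹) * b
        - a * den (fun v => ζ + ζ⁻¹ - u v * t ^ h v - (u v * t ^ h v)⁻¹) = 0)
    (hmove : ∀ i, ∃ j, h (i, j) ≠ 0) : a / b = 0 := by
  let Ft : ℝ → Fin K × Fin n → ℂ := fun t v =>
    ζ + ζ⁻¹ - u v * (t : ℂ) ^ h v - (u v * (t : ℂ) ^ h v)⁻¹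
  have hFt : ∀ v, Tendsto (fun t => (Ft t v)⁻¹) atTop
      (𝓝 (if h v = 0 then (ζ + ζ⁻¹ - u v - (u v)⁻¹)⁻¹ else 0)) := by
    intro v
    by_cases hv : h v = 0
    · simp only [Ft, hv, zpow_zero, mul_one, if_true]
      exact tendsto_const_nhds
    · rw [if_neg hv]
      exact tendsto_inv_zero _ (tendsto_factor (ζ + ζ⁻¹) (u v) (hnorm v) (h v) hv)
  have hsum0 : Tendsto (fun t => ∑ i, (rowP (Ft t) i)⁻¹) atTop (𝓝 0) := by
    have h3 : Tendsto (fun t => ∑ i, ∏ j, (Ft t (i, j))⁻¹) atTop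
        (𝓝 (∑ i : Fin K, ∏ j : Fin n, (if h (i, j) = 0 then
          (ζ + ζ⁻¹ - u (i, j) - (u (i, j))⁻¹)⁻¹ else 0))) := by
      refine tendsto_finsetSum _ fun i _ => ?_
      refine tendsto_finsetProd _ fun j _ => ?_
      exact hFt (i, j)
    have h4 : (∑ i : Fin K, ∏ j : Fin n, (if h (i, j) = 0 then
          (ζ + ζ⁻¹ - u (i, j) - (u (i, j))⁻¹)⁻¹ else (0 : ℂ))) = 0 := by
      refine Finset.sum_eq_zero fun i _ => ?_
      obtain ⟨j, hj⟩ := hmove i
      refine Finset.prod_eq_zero (Finset.mem_univ j) ?_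
      rw [if_neg hj]
    rw [h4] at h3
    refine h3.congr fun t => ?_
    refine Finset.sum_congr rfl fun i _ => ?_
    rw [rowP, Finset.prod_inv_distrib]
  have hev : ∀ᶠ t : ℝ in atTop, ∀ v, Ft t v ≠ 0 := by
    rw [eventually_all]
    intro v
    by_cases hv : h v = 0
    · refine Eventually.of_forall fun t => ?_
      simp only [Ft, hv, zpow_zero, mul_one]
      exact hf v
    · filter_upwards [(tendsto_factor (ζ + ζ⁻¹) (u v) (hnorm v) (h v) hv).eventually_gt_atTop 0]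
        with t ht
      exact norm_pos_iff.mp ht
  have hconst : ∀ᶠ t : ℝ in atTop, ∑ i, (rowP (Ft t) i)⁻¹ = a / b := by
    filter_upwards [hev, eventually_gt_atTop 0] with t ht htpos
    rw [sum_inv_eq _ ht]
    have h3 := hrel (t : ℂ) (by exact_mod_cast htpos.ne')
    have h5 : den (Ft t) ≠ 0 := den_ne_zero _ ht
    rw [div_eq_div_iff h5 hb]
    linear_combination h3
  have hlim : Tendsto (fun t => ∑ i, (rowP (Ft t) i)⁻¹) atTop (𝓝 (a / b)) :=
    tendsto_const_nhds.congr' (hconst.mono fun t ht => ht.symm)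
  exact tendsto_nhds_unique hlim hsum0

/-- the number of monomials -/
def kk (K n : ℕ) : ℕ := 2 * K * 16 ^ (K * n) + 1

/-- bound for the exponents -/
def XX (K n : ℕ) : ℕ := (2 * (2 * (K * n)) * kk K n + 1) ^ (2 * (K * n) + 1)

/-- bound for the determinants -/
def DD (K n : ℕ) : ℕ := (K * n).factorial * 2 ^ (K * n)

/-- bound for the number of arrays -/
def BR (K n : ℕ) : ℕ :=
  XX K n * (K * (kk K n * kk K n + K * n) ^ (K * n)) * (XX K n * DD K n) ^ n

/-- values of the variables -/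
def xi {K n : ℕ} (ζ : ℂ) (u₀ u : Fin K × Fin n → ℂ) : Option (VV K n) → ℂ :=
  fun w => Option.elim w ζ (Sum.elim u u₀)

/-- the exponents of the entries of the first array in the quotients of two monomials -/
def lv {K n : ℕ} (p : SS K n × SS K n) (v : Fin K × Fin n) : ℤ :=
  alp p.1 (some (Sum.inl v)) - alp p.2 (some (Sum.inl v))

lemma prod_option_sum {α β : Type*} [Fintype α] [Fintype β] (f : Option (α ⊕ β) → ℂ) :
    ∏ w, f w = f none * ((∏ v, f (some (Sum.inl v))) * ∏ v, f (some (Sum.inr v))) := by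
  rw [Fintype.prod_option, Fintype.prod_sum_type]

/-- the data attached to a solution -/
theorem pattern {K n : ℕ} (e : ℕ) (he : 0 < e) (ζ : ℂ) (hζ : ζ ^ e = 1)
    (u₀ u : Fin K × Fin n → ℂ) (hu₀ : ∀ v, u₀ v ^ e = 1) (hu : ∀ v, u v ^ e = 1)
    (hf₀ : ∀ v, ζ + ζ⁻¹ - u₀ v - (u₀ v)⁻¹ ≠ 0) (hf : ∀ v, ζ + ζ⁻¹ - u v - (u v)⁻¹ ≠ 0)
    (hsum : num (fun v => ζ + ζ⁻¹ - u v - (u v)⁻¹) * den (fun v => ζ + ζ⁻¹ - u₀ v - (u₀ v)⁻¹)
      - num (fun v => ζ + ζ⁻¹ - u₀ v - (u₀ v)⁻¹) * den (fun v => ζ + ζ⁻¹ - u v - (u v)⁻¹) = 0)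
    (hG : num (fun v => ζ + ζ⁻¹ - u₀ v - (u₀ v)⁻¹)
      / den (fun v => ζ + ζ⁻¹ - u₀ v - (u₀ v)⁻¹) ≠ 0) :
    ∃ m : ℕ, 1 ≤ m ∧ m ≤ XX K n ∧ ∃ i : Fin K, ∃ ρ : Fin K × Fin n → (SS K n × SS K n) ⊕ (Fin K × Fin n),
      (rowMat lv ρ).det ≠ 0 ∧
      (∀ r p, ρ r = Sum.inl p → (∏ w, xi ζ u₀ u w ^ alp p.1 w) ^ m
        = (∏ w, xi ζ u₀ u w ^ alp p.2 w) ^ m) ∧
      ∀ j, ∀ r w, ρ r = Sum.inr w → (rowMat lv ρ).adjugate (i, j) r = 0 := by
  classical
  have hζ0 : ζ ≠ 0 := by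
    intro h0
    rw [h0, zero_pow he.ne'] at hζ
    exact zero_ne_one hζ
  have hu0 : ∀ v, u v ≠ 0 := by
    intro v h0
    have := hu v
    rw [h0, zero_pow he.ne'] at this
    exact zero_ne_one this
  have hu₀0 : ∀ v, u₀ v ≠ 0 := by
    intro v h0
    have := hu₀ v
    rw [h0, zero_pow he.ne'] at this
    exact zero_ne_one this
  have hnorm : ∀ v, ‖u v‖ = 1 := fun v => Complex.norm_eq_one_of_pow_eq_one (hu v) he.ne'
  have hxe : ∀ w, xi ζ u₀ u w ^ e = 1 := by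
    rintro (_ | v | v)
    · exact hζ
    · exact hu v
    · exact hu₀ v
  have hx0 : ∀ w, xi ζ u₀ u w ≠ 0 := by
    rintro (_ | v | v)
    · exact hζ0
    · exact hu0 v
    · exact hu₀0 v
  have hFl : ∀ z : Fin K × Fin n → ℂ, (fun v => Ff (xi ζ u₀ z) (Sum.inl v))
      = fun v => ζ + ζ⁻¹ - z v - (z v)⁻¹ := fun z => rfl
  have hFr : ∀ z : Fin K × Fin n → ℂ, (fun v => Ff (xi ζ u₀ z) (Sum.inr v))
      = fun v => ζ + ζ⁻¹ - u₀ v - (u₀ v)⁻¹ := fun z => rfl
  have hrel : ∑ s : SS K n, (cof s : ℂ) * ∏ w, xi ζ u₀ u w ^ alp s w = 0 := by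
    rw [← total _ hx0, hFl, hFr]
    exact hsum
  obtain ⟨m, hm1, hm2, a, ha1, ha2⟩ := step (kk K n) (2 * (K * n)) cof alp (by
    rw [card_SS, kk]; exact Nat.le_succ _) (by rw [kk]; exact Nat.succ_le_succ (Nat.zero_le _))
    alp_sum_abs e he (xi ζ u₀ u) hxe hrel
  have hcardW : Fintype.card (Option (VV K n)) = 2 * (K * n) + 1 := by
    simp only [Fintype.card_option, Fintype.card_sum, Fintype.card_prod, Fintype.card_fin]
    ring
  rw [hcardW] at hm2
  set R : Finset (SS K n × SS K n) := univ.filter fun p => a p.1 = a p.2 with hR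
  obtain ⟨ρ, hρ1, hρ2, hρ3⟩ := cram (lv (K := K) (n := n)) R
  obtain ⟨h, hh1, hh2⟩ := generic (fun i : R => lv (K := K) (n := n) i)
  -- some row is fixed
  have hrow : ∃ i, ∀ j, h (i, j) = 0 := by
    by_contra hcon
    push Not at hcon
    refine hG (limit_zero ζ u h hnorm hf _ _ (den_ne_zero _ hf₀) ?_ hcon)
    intro t ht
    set z : Fin K × Fin n → ℂ := fun v => u v * t ^ h v with hz
    have hz0 : ∀ w, xi ζ u₀ z w ≠ 0 := by
      rintro (_ | v | v)
      · exact hζ0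
      · exact mul_ne_zero (hu0 v) (zpow_ne_zero _ ht)
      · exact hu₀0 v
    have h1 := total _ hz0
    rw [hFl, hFr] at h1
    rw [h1]
    have h2 : ∀ s : SS K n, ∏ w, xi ζ u₀ z w ^ alp s w
        = (∏ w, xi ζ u₀ u w ^ alp s w) * t ^ (∑ v, alp s (some (Sum.inl v)) * h v) := by
      intro s
      rw [prod_option_sum, prod_option_sum]
      have h3 : ∏ v, xi ζ u₀ z (some (Sum.inl v)) ^ alp s (some (Sum.inl v))
          = (∏ v, xi ζ u₀ u (some (Sum.inl v)) ^ alp s (some (Sum.inl v)))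
            * t ^ (∑ v, alp s (some (Sum.inl v)) * h v) := by
        have h4 : t ^ (∑ v, alp s (some (Sum.inl v)) * h v)
            = ∏ v, (t ^ h v) ^ alp s (some (Sum.inl v)) := by
          induction (univ : Finset (Fin K × Fin n)) using Finset.cons_induction with
          | empty => simp
          | cons b s' hb ih =>
            rw [Finset.prod_cons, Finset.sum_cons, zpow_add₀ ht, ih, ← zpow_mul, mul_comm (h b)]
        rw [h4, ← Finset.prod_mul_distrib]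
        refine Finset.prod_congr rfl fun v _ => ?_
        exact mul_zpow (u v) (t ^ h v) (alp s (some (Sum.inl v)))
      rw [h3]
      have h5 : xi ζ u₀ z none = xi ζ u₀ u none := rfl
      have h6 : ∀ v, xi ζ u₀ z (some (Sum.inr v)) = xi ζ u₀ u (some (Sum.inr v)) := fun v => rfl
      simp only [h5, h6]
      ring
    simp only [h2]
    have h3 : ∀ s ∈ (univ : Finset (SS K n)), a s ∈ (univ : Finset (SS K n)).image a :=
      fun s _ => mem_image_of_mem _ (mem_univ s)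
    rw [← Finset.sum_fiberwise_of_maps_to h3]
    refine Finset.sum_eq_zero fun b hb => ?_
    obtain ⟨s₀, _, hs₀⟩ := mem_image.mp hb
    have h4 : ∀ s ∈ univ.filter (fun s => a s = b),
        (cof s : ℂ) * ((∏ w, xi ζ u₀ u w ^ alp s w) * t ^ (∑ v, alp s (some (Sum.inl v)) * h v))
        = ((cof s : ℂ) * ∏ w, xi ζ u₀ u w ^ alp s w)
          * t ^ (∑ v, alp s₀ (some (Sum.inl v)) * h v) := by
      intro s hs
      have hs' := (mem_filter.mp hs).2
      have hmem : (s, s₀) ∈ R := by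
        rw [hR, mem_filter]
        exact ⟨mem_univ _, hs'.trans hs₀.symm⟩
      have h5 := hh1 ⟨(s, s₀), hmem⟩
      simp only [lv] at h5
      have h6 : ∑ v, alp s (some (Sum.inl v)) * h v = ∑ v, alp s₀ (some (Sum.inl v)) * h v := by
        have h7 : ∑ v, (alp s (some (Sum.inl v)) - alp s₀ (some (Sum.inl v))) * h v
            = ∑ v, alp s (some (Sum.inl v)) * h v - ∑ v, alp s₀ (some (Sum.inl v)) * h v := by
          rw [← Finset.sum_sub_distrib]
          exact Finset.sum_congr rfl fun v _ => by ring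
        rw [h7] at h5
        linarith
      rw [h6, mul_assoc]
    rw [Finset.sum_congr rfl h4, ← Finset.sum_mul, ha2 b, zero_mul]
  obtain ⟨i, hi⟩ := hrow
  refine ⟨m, hm1, hm2, i, ρ, hρ1, ?_, ?_⟩
  · intro r p hp
    have h1 := hρ2 r p hp
    rw [hR, mem_filter] at h1
    exact ha1 _ _ h1.2
  · intro j r w hr
    obtain ⟨N, hN⟩ := hh2 (i, j) (hi j)
    exact hρ3 (i, j) N hN r w hr

end Pool.Agent.Helper82.EB
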