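import Mathlib
import Pool.Agent.Helper82.EB.Row

/-!
# Monotonicity of the bounds
-/

set_option autoImplicit false

namespace Pool.Agent.Helper82.EB

lemma kk_pos (K n : ℕ) : 0 < kk K n := Nat.succ_pos _

lemma XX_pos (K n : ℕ) : 0 < XX K n := Nat.pow_pos (Nat.succ_pos _)

lemma DD_pos (K n : ℕ) : 0 < DD K n := Nat.mul_pos (Nat.factorial_pos _) (Nat.pow_pos (by norm_num))

lemma kk_mono {K K' n n' : ℕ} (hK : K ≤ K') (hn : n ≤ n') : kk K n ≤ kk K' n' := by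
  unfold kk
  have h1 : K * n ≤ K' * n' := Nat.mul_le_mul hK hn
  have h2 : 16 ^ (K * n) ≤ 16 ^ (K' * n') := Nat.pow_le_pow_right (by norm_num) h1
  gcongr

lemma XX_mono {K K' n n' : ℕ} (hK : K ≤ K') (hn : n ≤ n') : XX K n ≤ XX K' n' := by
  unfold XX
  have h1 : K * n ≤ K' * n' := Nat.mul_le_mul hK hn
  have h2 := kk_mono hK hn
  refine (Nat.pow_le_pow_left (m := 2 * (2 * (K' * n')) * kk K' n' + 1) ?_ _).trans
    (Nat.pow_le_pow_right (Nat.succ_pos _) ?_)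
  · gcongr
  · omega

lemma DD_mono {K K' n n' : ℕ} (hK : K ≤ K') (hn : n ≤ n') : DD K n ≤ DD K' n' := by
  unfold DD
  have h1 : K * n ≤ K' * n' := Nat.mul_le_mul hK hn
  exact Nat.mul_le_mul (Nat.factorial_le h1) (Nat.pow_le_pow_right (by norm_num) h1)

lemma BR_mono {K K' n n' : ℕ} (hK : K ≤ K') (hn : n ≤ n') : BR K n ≤ BR K' n' := by
  unfold BR
  have h1 : K * n ≤ K' * n' := Nat.mul_le_mul hK hn
  have h2 := kk_mono hK hn
  have h3 := XX_mono hK hn
  have h4 := DD_mono hK hn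
  refine Nat.mul_le_mul (Nat.mul_le_mul h3 (Nat.mul_le_mul hK ?_)) ?_
  · refine (Nat.pow_le_pow_left (m := kk K' n' * kk K' n' + K' * n') ?_ _).trans
      (Nat.pow_le_pow_right ?_ h1)
    · exact Nat.add_le_add (Nat.mul_le_mul h2 h2) h1
    · exact Nat.add_pos_left (Nat.mul_pos (kk_pos _ _) (kk_pos _ _)) _
  · refine (Nat.pow_le_pow_left (m := XX K' n' * DD K' n') ?_ _).trans
      (Nat.pow_le_pow_right ?_ hn)
    · exact Nat.mul_le_mul h3 h4
    · exact Nat.mul_pos (XX_pos _ _) (DD_pos _ _)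

end Pool.Agent.Helper82.EB
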