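import Mathlib
import Pool.Agent.Helper82.EB.Row
import Pool.Agent.Helper78.Assembly

/-!
# The explicit rigidity theorem
-/

set_option autoImplicit false

namespace Pool.Agent.Helper82.EB

open Finset
open Pool.Agent.Helper78.TheoremA (num den rowP sum_inv_eq den_ne_zero)
open Pool.Agent.Helper78.Assembly (RowBound)

/-- two solutions with the same data -/
lemma same_data {K n : ℕ} (e : ℕ) (he : 0 < e) (ζ : ℂ) (hζ : ζ ^ e = 1)
    (u₀ u u' : Fin K × Fin n → ℂ) (hu₀ : ∀ v, u₀ v ^ e = 1) (hu : ∀ v, u v ^ e = 1)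
    (hu' : ∀ v, u' v ^ e = 1) (m : ℕ)
    (ρ : Fin K × Fin n → (SS K n × SS K n) ⊕ (Fin K × Fin n))
    (h : ∀ r p, ρ r = Sum.inl p → (∏ w, xi ζ u₀ u w ^ alp p.1 w) ^ m
        = (∏ w, xi ζ u₀ u w ^ alp p.2 w) ^ m)
    (h' : ∀ r p, ρ r = Sum.inl p → (∏ w, xi ζ u₀ u' w ^ alp p.1 w) ^ m
        = (∏ w, xi ζ u₀ u' w ^ alp p.2 w) ^ m)
    (v : Fin K × Fin n) (hv : ∀ r w, ρ r = Sum.inr w → (rowMat lv ρ).adjugate v r = 0) :
    (u v / u' v) ^ (m * (rowMat lv ρ).det.natAbs) = 1 := by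
  have hζ0 : ζ ≠ 0 := by
    intro h0
    rw [h0, zero_pow he.ne'] at hζ
    exact zero_ne_one hζ
  have hne : ∀ z : Fin K × Fin n → ℂ, (∀ v, z v ^ e = 1) → ∀ v, z v ≠ 0 := by
    intro z hz v h0
    have := hz v
    rw [h0, zero_pow he.ne'] at this
    exact zero_ne_one this
  have hu0 := hne u hu
  have hu'0 := hne u' hu'
  have hu₀0 := hne u₀ hu₀
  rw [pow_mul]
  refine pow_det lv ρ (fun v => (u v / u' v) ^ m) (fun v => pow_ne_zero _
    (div_ne_zero (hu0 v) (hu'0 v))) ?_ v hv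
  intro r p hp
  have hx0 : ∀ w, xi ζ u₀ u w ≠ 0 := by
    rintro (_ | v | v)
    · exact hζ0
    · exact hu0 v
    · exact hu₀0 v
  have hx'0 : ∀ w, xi ζ u₀ u' w ≠ 0 := by
    rintro (_ | v | v)
    · exact hζ0
    · exact hu'0 v
    · exact hu₀0 v
  have hq : ∀ s : SS K n, (∏ w, xi ζ u₀ u w ^ alp s w) / (∏ w, xi ζ u₀ u' w ^ alp s w)
      = ∏ v, (u v / u' v) ^ alp s (some (Sum.inl v)) := by
    intro s
    rw [← Finset.prod_div_distrib, prod_option_sum]
    have h1 : xi ζ u₀ u none ^ alp s none / xi ζ u₀ u' none ^ alp s none = 1 :=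
      div_self (zpow_ne_zero _ hζ0)
    have h2 : ∏ v, xi ζ u₀ u (some (Sum.inr v)) ^ alp s (some (Sum.inr v))
        / xi ζ u₀ u' (some (Sum.inr v)) ^ alp s (some (Sum.inr v)) = 1 :=
      Finset.prod_eq_one fun v _ => div_self (zpow_ne_zero _ (hu₀0 v))
    rw [h1, h2, one_mul, mul_one]
    refine Finset.prod_congr rfl fun v _ => ?_
    exact (div_zpow (u v) (u' v) _).symm
  have hp0 : ∀ s : SS K n, ∏ w, xi ζ u₀ u' w ^ alp s w ≠ 0 := fun s =>
    Finset.prod_ne_zero_iff.mpr fun w _ => zpow_ne_zero _ (hx'0 w)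
  have h3 : (∏ v, (u v / u' v) ^ alp p.1 (some (Sum.inl v))) ^ m
      = (∏ v, (u v / u' v) ^ alp p.2 (some (Sum.inl v))) ^ m := by
    rw [← hq, ← hq, div_pow, div_pow, h r p hp, h' r p hp]
  have h4 : ∀ s : SS K n, (∏ v, (u v / u' v) ^ alp s (some (Sum.inl v))) ^ m
      = ∏ v, ((u v / u' v) ^ m) ^ alp s (some (Sum.inl v)) := by
    intro s
    rw [← Finset.prod_pow]
    refine Finset.prod_congr rfl fun v _ => ?_
    rw [← zpow_natCast, ← zpow_natCast, ← zpow_mul, ← zpow_mul, mul_comm]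
  rw [h4, h4] at h3
  simp only [lv]
  have h5 : ∀ v, ((u v / u' v) ^ m) ^ (alp p.1 (some (Sum.inl v)) - alp p.2 (some (Sum.inl v)))
      = ((u v / u' v) ^ m) ^ alp p.1 (some (Sum.inl v))
        / ((u v / u' v) ^ m) ^ alp p.2 (some (Sum.inl v)) := fun v =>
    zpow_sub₀ (pow_ne_zero _ (div_ne_zero (hu0 v) (hu'0 v))) _ _
  simp only [h5]
  rw [Finset.prod_div_distrib, h3, div_self]
  exact Finset.prod_ne_zero_iff.mpr fun v _ => zpow_ne_zero _ (pow_ne_zero _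
    (div_ne_zero (hu0 v) (hu'0 v)))

/-- The rigidity theorem with an explicit bound. -/
theorem rowBound (K n : ℕ) : RowBound K n (BR K n) := by
  classical
  intro e ζ G U he hζ hG hU hf hsum hcard
  have hne : U.Nonempty := Finset.card_pos.mp (by omega)
  obtain ⟨u₀, hu₀⟩ := hne
  have hG0 : ∀ u ∈ U, num (fun v => ζ + ζ⁻¹ - u v - (u v)⁻¹)
      / den (fun v => ζ + ζ⁻¹ - u v - (u v)⁻¹) = G := by
    intro u hu
    rw [← sum_inv_eq _ (hf u hu), ← hsum u hu]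
    refine Finset.sum_congr rfl fun i _ => ?_
    rw [rowP, Finset.prod_inv_distrib]
  have hd : ∀ u ∈ U, den (fun v => ζ + ζ⁻¹ - u v - (u v)⁻¹) ≠ 0 := fun u hu =>
    den_ne_zero _ (hf u hu)
  have hpat : ∀ u : Fin K × Fin n → ℂ, ∃ q : ℕ × Fin K ×
      (Fin K × Fin n → (SS K n × SS K n) ⊕ (Fin K × Fin n)), u ∈ U →
      (1 ≤ q.1 ∧ q.1 ≤ XX K n) ∧ (rowMat lv q.2.2).det ≠ 0 ∧
      (∀ r p, q.2.2 r = Sum.inl p → (∏ w, xi ζ u₀ u w ^ alp p.1 w) ^ q.1
        = (∏ w, xi ζ u₀ u w ^ alp p.2 w) ^ q.1) ∧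
      ∀ j, ∀ r w, q.2.2 r = Sum.inr w → (rowMat lv q.2.2).adjugate (q.2.1, j) r = 0 := by
    intro u
    by_cases hu : u ∈ U
    · have h1 := hG0 u hu
      have h2 := hG0 u₀ hu₀
      rw [← h2, div_eq_div_iff (hd u hu) (hd u₀ hu₀)] at h1
      obtain ⟨m, hm1, hm2, i, ρ, h3, h4, h5⟩ := pattern e he ζ hζ u₀ u (hU u₀ hu₀) (hU u hu)
        (hf u₀ hu₀) (hf u hu) (by rw [h1]; ring) (by rw [h2]; exact hG)
      exact ⟨(m, i, ρ), fun _ => ⟨⟨hm1, hm2⟩, h3, h4, h5⟩⟩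
    · by_cases hK : Nonempty (Fin K)
      · obtain ⟨i⟩ := hK
        exact ⟨(0, i, fun r => Sum.inr r), fun h => absurd h hu⟩
      · exfalso
        have hK0 : K = 0 := by
          by_contra h
          exact hK ⟨⟨0, Nat.pos_of_ne_zero h⟩⟩
        subst hK0
        have h1 := hsum u₀ hu₀
        rw [Finset.univ_eq_empty, Finset.sum_empty] at h1
        exact hG h1.symm
  choose q hq using hpat
  have hmaps : ∀ u ∈ U, q u ∈ Finset.Icc 1 (XX K n) ×ˢ
      (univ : Finset (Fin K × (Fin K × Fin n → (SS K n × SS K n) ⊕ (Fin K × Fin n)))) := by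
    intro u hu
    rw [mem_product, Finset.mem_Icc]
    exact ⟨(hq u hu).1, mem_univ _⟩
  have hpc : (Finset.Icc 1 (XX K n) ×ˢ
      (univ : Finset (Fin K × (Fin K × Fin n → (SS K n × SS K n) ⊕ (Fin K × Fin n))))).card
      ≤ XX K n * (K * (kk K n * kk K n + K * n) ^ (K * n)) := by
    rw [Finset.card_product, Nat.card_Icc, Finset.card_univ, Nat.add_sub_cancel]
    have h0 : Fintype.card (Fin K × (Fin K × Fin n → (SS K n × SS K n) ⊕ (Fin K × Fin n)))
        = K * (Fintype.card (SS K n) * Fintype.card (SS K n) + K * n) ^ (K * n) := by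
      rw [Fintype.card_prod (Fin K), Fintype.card_fin, Fintype.card_fun, Fintype.card_sum,
        Fintype.card_prod (SS K n), Fintype.card_prod (Fin K) (Fin n), Fintype.card_fin,
        Fintype.card_fin]
    rw [h0]
    have h1 : Fintype.card (SS K n) ≤ kk K n := by
      rw [card_SS, kk]; exact Nat.le_succ _
    gcongr
  have hlt : (Finset.Icc 1 (XX K n) ×ˢ
      (univ : Finset (Fin K × (Fin K × Fin n → (SS K n × SS K n) ⊕ (Fin K × Fin n))))).card
      * (XX K n * DD K n) ^ n < U.card := by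
    refine lt_of_le_of_lt ?_ hcard
    rw [BR]
    gcongr
  obtain ⟨⟨m, i, ρ⟩, _, hfib⟩ := Finset.exists_lt_card_fiber_of_mul_lt_card_of_maps_to hmaps hlt
  set F := U.filter (fun u => q u = (m, i, ρ)) with hF
  have hFm : ∀ u ∈ F, u ∈ U ∧ (1 ≤ m ∧ m ≤ XX K n) ∧ (rowMat lv ρ).det ≠ 0 ∧
      (∀ r p, ρ r = Sum.inl p → (∏ w, xi ζ u₀ u w ^ alp p.1 w) ^ m
        = (∏ w, xi ζ u₀ u w ^ alp p.2 w) ^ m) ∧
      ∀ j, ∀ r w, ρ r = Sum.inr w → (rowMat lv ρ).adjugate (i, j) r = 0 := by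
    intro u hu
    obtain ⟨h1, h2⟩ := mem_filter.mp hu
    have h3 := hq u h1
    rw [h2] at h3
    exact ⟨h1, h3⟩
  have hFne : F.Nonempty := Finset.card_pos.mp (by omega)
  obtain ⟨u₁, hu₁⟩ := hFne
  obtain ⟨hu₁U, ⟨hm1, hm2⟩, hdet, h₁, hadj⟩ := hFm u₁ hu₁
  set D := (rowMat lv ρ).det.natAbs with hD
  have hDle : D ≤ DD K n := by
    have h1 := det_bound lv ρ (by
      intro r p _ w
      simp only [lv]
      have h2 := alp_some p.1 (Sum.inl w)
      have h3 := alp_some p.2 (Sum.inl w)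
      calc |alp p.1 (some (Sum.inl w)) - alp p.2 (some (Sum.inl w))|
          ≤ |alp p.1 (some (Sum.inl w))| + |alp p.2 (some (Sum.inl w))| := abs_sub _ _
        _ ≤ 2 := by linarith)
    rw [Fintype.card_prod, Fintype.card_fin, Fintype.card_fin] at h1
    exact h1
  have hDpos : 0 < D := Int.natAbs_pos.mpr hdet
  have hmD : 0 < m * D := Nat.mul_pos hm1 hDpos
  let g : (Fin K × Fin n → ℂ) → Fin n → ℂ := fun u j => u (i, j) / u₁ (i, j)
  have hg : ∀ u ∈ F, g u ∈ Fintype.piFinset fun _ : Fin n =>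
      Polynomial.nthRootsFinset (m * D) (1 : ℂ) := by
    intro u hu
    obtain ⟨huU, -, -, h2, -⟩ := hFm u hu
    rw [Fintype.mem_piFinset]
    intro j
    rw [Polynomial.mem_nthRootsFinset hmD]
    exact same_data e he ζ hζ u₀ u u₁ (hU u₀ hu₀) (hU u huU) (hU u₁ hu₁U) m ρ h2 h₁ (i, j)
      (hadj j)
  have hgc : (Fintype.piFinset fun _ : Fin n => Polynomial.nthRootsFinset (m * D) (1 : ℂ)).card
      < F.card := by
    rw [Fintype.card_piFinset]
    refine lt_of_le_of_lt ?_ hfib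
    rw [Finset.prod_const, Finset.card_univ, Fintype.card_fin]
    refine Nat.pow_le_pow_left ?_ n
    calc (Polynomial.nthRootsFinset (m * D) (1 : ℂ)).card
        ≤ Multiset.card (Polynomial.nthRoots (m * D) (1 : ℂ)) := by
          rw [Polynomial.nthRootsFinset_def]
          exact Multiset.toFinset_card_le _
      _ ≤ m * D := Polynomial.card_nthRoots _ _
      _ ≤ XX K n * DD K n := Nat.mul_le_mul hm2 hDle
  obtain ⟨u, hu, u', hu', hne, hgeq⟩ := Finset.exists_ne_map_eq_of_card_lt_of_maps_to hgc hg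
  refine ⟨u, (hFm u hu).1, u', (hFm u' hu').1, hne, i, fun j => ?_⟩
  have h1 := congrFun hgeq j
  simp only [g] at h1
  have h2 : u₁ (i, j) ≠ 0 := by
    intro h0
    have := hU u₁ hu₁U (i, j)
    rw [h0, zero_pow he.ne'] at this
    exact zero_ne_one this
  exact (div_left_inj' h2).mp h1

end Pool.Agent.Helper82.EB
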