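import Mathlib
import Pool.Agent.Helper82.EB.Mono
import Pool.Agent.Helper82.EB.RowB
import Pool.Agent.Helper78.Main
import Pool.Agent.Helper82.EB.Net

/-!
# Explicit bound for isospectral sets of spherical space forms
-/

set_option autoImplicit false

namespace Pool.Agent.Helper82.EB

open Finset
open Pool.Agent.Helper78.Eigen Pool.Agent.Helper78.Harm Pool.Agent.Helper78.Molien
open Pool.Agent.Helper78.Limit Pool.Agent.Helper78.Assembly Pool.Agent.Helper78

lemma pow_self_mono {m M : ℕ} (hm : 0 < m) (h : m ≤ M) : m ^ m ≤ M ^ M :=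
  (Nat.pow_le_pow_left h m).trans (Nat.pow_le_pow_right (lt_of_lt_of_le hm h) h)

lemma pow_pow_mono {m M : ℕ} (hm : 0 < m) (h : m ≤ M) : (m ^ m) ^ m ≤ (M ^ M) ^ M :=
  (Nat.pow_le_pow_left (pow_self_mono hm h) m).trans
    (Nat.pow_le_pow_right (Nat.pow_pos (lt_of_lt_of_le hm h)) h)

lemma JJ_pos (N : ℕ) : 0 < JJ N := Nat.pow_pos (Nat.succ_pos _)

lemma BE_mono {N m M : ℕ} (hN : 0 < N) (hm : 0 < m) (h : m ≤ M) : BE N m ≤ BE N M := by
  unfold BE
  have h1 := pow_pow_mono hm h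
  have h2 := pow_self_mono hm h
  have h3 : N ^ m ≤ N ^ M := Nat.pow_le_pow_right hN h
  have h4 : (JJ N) ^ m ≤ (JJ N) ^ M := Nat.pow_le_pow_right (JJ_pos N) h
  exact Nat.mul_le_mul h1 (Nat.mul_le_mul h2 (Nat.mul_le_mul h3 (Nat.mul_le_mul h1 h4)))

/-- the bound for all extensions -/
def XE (N κ : ℕ) : ℕ := BE N (κ * κ + 2 * κ)

/-- the bound for all row types -/
def YR (N κ : ℕ) : ℕ := BR (N * (κ * κ)) (N / 2)

/-- the bound for spherical space forms whose groups have a cyclic normal subgroup of index at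
most `κ` -/
def BG (N κ : ℕ) : ℕ := ((κ + 1) * ((N + 1) * (N * (κ * κ) + 1))) *
  (YR N κ * (N * (κ * κ)) * XE N κ + XE N κ)

/-- Among more than `BG N κ` isospectral spherical space forms, whose groups have cyclic normal
subgroups of index at most `κ`, two are isometric. -/
theorem gen_main (N κ : ℕ) (hN : 0 < N) (ι : Type) [Fintype ι]
    (G : ι → Subgroup (Og N)) (hfin : ∀ i, Finite (G i)) (hfree : ∀ i, Free (G i))
    (hcn : ∀ i, HasCN (G i) κ)
    (hiso : ∀ i j k, Module.finrank ℂ (harmInv (G i) k) = Module.finrank ℂ (harmInv (G j) k))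
    (hbig : BG N κ < Fintype.card ι) : ∃ i j, i ≠ j ∧ Conj (G i) (G j) := by
  classical
  choose C hC1 hC2 hC3 using hcn
  have hJ := fun i => structC N κ hN (G i) (hfin i) (hfree i) (C i) (hC1 i) (hC2 i) (hC3 i)
  set J := κ with hJdef
  have hXm : ∀ m, 0 < m → m ≤ J * J + 2 * J → ExtBound N m (XE N κ) := by
    intro m hm hm2
    exact Main.ExtBound.mono (extension' N m hN hm) (BE_mono hN hm hm2)
  have hYm : ∀ K n, K ≤ N * (J * J) → n ≤ N / 2 → RowBound K n (YR N κ) := by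
    intro K n hK hn
    exact Main.RowBound.mono (rowBound K n) (BR_mono hK hn)
  set X := XE N κ with hX
  set Y := YR N κ with hY
  have hcard : ∀ i j, Nat.card (G i) = Nat.card (G j) := fun i j =>
    card_eq hN (G i) (G j) (hfree i) (hfree j) (hiso i j)
  choose k e hk hkJ he hke hζ using hJ
  let A : ι → ℕ := fun i =>
    ((Set.toFinite (G i : Set (Og N))).toFinset).sup fun g => (ev g).count (zet (e i))
  have hmemE : ∀ i g, g ∈ (Set.toFinite (G i : Set (Og N))).toFinset ↔ g ∈ G i := by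
    intro i g
    rw [Set.Finite.mem_toFinset, SetLike.mem_coe]
  have hAle : ∀ i, ∀ g ∈ G i, (ev g).count (zet (e i)) ≤ A i := fun i g hg =>
    Finset.le_sup (f := fun g => (ev g).count (zet (e i))) ((hmemE i g).mpr hg)
  have hAN : ∀ i, A i ≤ N := by
    intro i
    refine Finset.sup_le fun g hg => ?_
    rw [hmemE] at hg
    calc (ev g).count (zet (e i)) ≤ Multiset.card (ev g) := Multiset.count_le_card _ _
      _ = N := card_ev (GroupBound.isOfFinOrder_of_mem hg)
  have hA1 : ∀ i, 1 ≤ A i := by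
    intro i
    obtain ⟨g, hg, hgζ⟩ := (hζ i (zet (e i)) (zet_prim (he i))).1
    exact le_trans (Multiset.one_le_count_iff_mem.mpr hgζ) (hAle i g hg)
  let K : ι → ℕ := fun i => (top (G i) (zet (e i)) (A i)).card
  have hKpos : ∀ i, 0 < K i := by
    intro i
    have hne : ((Set.toFinite (G i : Set (Og N))).toFinset).Nonempty :=
      ⟨1, (hmemE i 1).mpr (one_mem _)⟩
    obtain ⟨g, hg, hgA⟩ := Finset.exists_mem_eq_sup _ hne fun g => (ev g).count (zet (e i))
    exact Finset.card_pos.mpr ⟨g, mem_top.mpr ⟨(hmemE i g).mp hg, hgA.symm⟩⟩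
  have hKle : ∀ i, K i ≤ N * (J * J) := by
    intro i
    refine le_trans ((hζ i (zet (e i)) (zet_prim (he i))).2.2 _ fun x hx => ?_) ?_
    · rw [mem_top] at hx
      refine ⟨hx.1, ?_⟩
      rw [← Multiset.one_le_count_iff_mem, hx.2]
      exact hA1 i
    · exact Nat.mul_le_mul_left N (Nat.mul_le_mul (hkJ i) (hkJ i))
  -- pigeonhole
  have hmaps : ∀ i ∈ (univ : Finset ι), (k i, A i, K i) ∈
      range (J + 1) ×ˢ (range (N + 1) ×ˢ range (N * (J * J) + 1)) := by
    intro i _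
    refine Finset.mk_mem_product (mem_range.mpr (Nat.lt_succ_of_le (hkJ i))) ?_
    exact Finset.mk_mem_product (mem_range.mpr (Nat.lt_succ_of_le (hAN i)))
      (mem_range.mpr (Nat.lt_succ_of_le (hKle i)))
  have hlt : (range (J + 1) ×ˢ (range (N + 1) ×ˢ range (N * (J * J) + 1))).card *
      (Y * (N * (J * J)) * X + X) < (univ : Finset ι).card := by
    rw [Finset.card_product, Finset.card_product, card_range, card_range, card_range,
      Finset.card_univ]
    exact hbig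
  obtain ⟨⟨k₀, A₀, K₀⟩, _, hfib⟩ := Finset.exists_lt_card_fiber_of_mul_lt_card_of_maps_to hmaps hlt
  set F₁ := univ.filter (fun i => (k i, A i, K i) = (k₀, A₀, K₀)) with hF₁
  have hF₁mem : ∀ i : F₁, k i = k₀ ∧ A i = A₀ ∧ K i = K₀ := by
    intro i
    have := (Finset.mem_filter.mp i.2).2
    simp only [Prod.mk.injEq] at this
    exact this
  have hF₁ne : F₁.Nonempty := Finset.card_pos.mp (by omega)
  obtain ⟨i₀, hi₀⟩ := hF₁ne
  have hi₀' := hF₁mem ⟨i₀, hi₀⟩
  simp only at hi₀'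
  set e₀ := e i₀ with he₀
  have hk₀ : 0 < k₀ := by rw [← hi₀'.1]; exact hk i₀
  have hk₀J : k₀ ≤ J := by rw [← hi₀'.1]; exact hkJ i₀
  have hcard₀ : ∀ i, Nat.card (G i) = k₀ * e₀ := by
    intro i
    rw [hcard i i₀, hke i₀, hi₀'.1]
  have hee : ∀ i : F₁, e i = e₀ := by
    intro i
    have h1 := hke i
    rw [hcard₀, (hF₁mem i).1] at h1
    exact (Nat.eq_of_mul_eq_mul_left hk₀ h1).symm
  have hcardF₁ : X < Fintype.card F₁ := by
    rw [Fintype.card_coe]
    exact lt_of_le_of_lt (Nat.le_add_left _ _) hfib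
  have hcardF₁' : Y * K₀ * X < Fintype.card F₁ := by
    rw [Fintype.card_coe]
    refine lt_of_le_of_lt ?_ hfib
    have h1 : K₀ ≤ N * (J * J) := by rw [← hi₀'.2.2]; exact hKle i₀
    calc Y * K₀ * X ≤ Y * (N * (J * J)) * X := by gcongr
      _ ≤ _ := Nat.le_add_right _ _
  by_cases he3 : 3 ≤ e₀
  · -- main case
    have hm : k₀ * Nat.gcd e₀ k₀ ≤ J * J + 2 * J := by
      have h1 : Nat.gcd e₀ k₀ ≤ J := (Nat.gcd_le_right _ hk₀).trans hk₀J
      have h2 : k₀ * Nat.gcd e₀ k₀ ≤ J * J := Nat.mul_le_mul hk₀J h1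
      omega
    have hm0 : 0 < k₀ * Nat.gcd e₀ k₀ :=
      Nat.mul_pos hk₀ (Nat.gcd_pos_of_pos_right _ hk₀)
    have hK₀ : 0 < K₀ := by rw [← hi₀'.2.2]; exact hKpos i₀
    have hA₀ : 1 ≤ A₀ := by rw [← hi₀'.2.1]; exact hA1 i₀
    obtain ⟨i, j, hij, hc⟩ := core N k₀ e₀ A₀ K₀ X Y hN hk₀ he3 hA₀ hK₀ (hXm _ hm0 hm)
      (hYm K₀ (N / 2 - A₀) (by rw [← hi₀'.2.2]; exact hKle i₀) (by omega)) F₁
      (fun i => G i) (fun i => hfree i) (fun i => hcard₀ i) (fun i j k => hiso i j k)
      (by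
        intro i g hg
        have h1 := hAle i g hg
        rw [hee i, (hF₁mem i).2.1] at h1
        exact h1)
      (by
        intro i
        have h1 := (hF₁mem i).2.2
        simp only [K] at h1
        rw [hee i, (hF₁mem i).2.1] at h1
        exact h1)
      (by
        intro i g hg hgζ
        have h1 := (hζ i (zet (e i)) (zet_prim (he i))).2.1 g hg
        rw [hee i, (hF₁mem i).1] at h1
        exact h1 hgζ) hcardF₁'
    exact ⟨i, j, fun h => hij (Subtype.ext h), hc⟩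
  · -- groups of bounded order
    have he0 : 0 < e₀ := he i₀
    have hm0 : 0 < k₀ * e₀ := Nat.mul_pos hk₀ he0
    have hm : k₀ * e₀ ≤ J * J + 2 * J := by
      have h1 : k₀ * e₀ ≤ J * 2 := Nat.mul_le_mul hk₀J (by omega)
      nlinarith
    obtain ⟨i, j, hij, hc⟩ := hXm _ hm0 hm (1 : Og N) F₁ (fun i => G i) IsOfFinOrder.one (by
      intro i
      refine ⟨one_mem _, hfree i, fun γ _ => ?_, ?_⟩
      · rw [mul_one, mul_inv_cancel]; exact one_mem _
      · rw [orderOf_one, mul_one]; exact hcard₀ i) hcardF₁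
    exact ⟨i, j, fun h => hij (Subtype.ext h), hc⟩

end Pool.Agent.Helper82.EB
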