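import Mathlib
import Pool.Agent.Helper82.EB.Gen

/-!
# Numerical bounds
-/

set_option autoImplicit false

namespace Pool.Agent.Helper82.EB

lemma le_two_pow (n : ℕ) : n ≤ 2 ^ n := Nat.lt_two_pow_self.le

lemma two_pow_add_one (n : ℕ) : 2 ^ n + 1 ≤ 2 ^ (n + 1) := by
  rw [pow_succ]
  have : 1 ≤ 2 ^ n := Nat.one_le_two_pow
  omega

lemma two_pow_mono {a b : ℕ} (h : a ≤ b) : 2 ^ a ≤ 2 ^ b := Nat.pow_le_pow_right (by norm_num) h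

lemma kk_le {K n R : ℕ} (hR : 2 ≤ R) (hK : K ≤ R) (hP : K * n ≤ R) : kk K n ≤ 2 ^ (6 * R) := by
  unfold kk
  have h1 : 2 * K * 16 ^ (K * n) ≤ 2 ^ (1 + R + 4 * R) := by
    have h2 : K ≤ 2 ^ R := hK.trans (le_two_pow R)
    have h3 : 16 ^ (K * n) ≤ 2 ^ (4 * R) := by
      calc 16 ^ (K * n) = 2 ^ (4 * (K * n)) := by rw [pow_mul 2 4 (K * n)]; norm_num
        _ ≤ 2 ^ (4 * R) := two_pow_mono (by omega)
    calc 2 * K * 16 ^ (K * n) ≤ 2 * 2 ^ R * 2 ^ (4 * R) := by gcongr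
      _ = 2 ^ (1 + R + 4 * R) := by rw [pow_add, pow_add, pow_one]
  calc 2 * K * 16 ^ (K * n) + 1 ≤ 2 ^ (1 + R + 4 * R) + 1 := by omega
    _ ≤ 2 ^ (1 + R + 4 * R + 1) := two_pow_add_one _
    _ ≤ 2 ^ (6 * R) := two_pow_mono (by omega)

lemma XX_le {K n R : ℕ} (hR : 2 ≤ R) (hK : K ≤ R) (hP : K * n ≤ R) :
    XX K n ≤ 2 ^ (27 * (R * R)) := by
  unfold XX
  have h1 : 2 * (2 * (K * n)) * kk K n + 1 ≤ 2 ^ (9 * R) := by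
    have h2 : K * n ≤ 2 ^ R := hP.trans (le_two_pow R)
    have h3 := kk_le hR hK hP
    calc 2 * (2 * (K * n)) * kk K n + 1 ≤ 2 * (2 * 2 ^ R) * 2 ^ (6 * R) + 1 := by gcongr
      _ = 2 ^ (2 + R + 6 * R) + 1 := by rw [pow_add, pow_add]; ring
      _ ≤ 2 ^ (2 + R + 6 * R + 1) := two_pow_add_one _
      _ ≤ 2 ^ (9 * R) := two_pow_mono (by omega)
  calc (2 * (2 * (K * n)) * kk K n + 1) ^ (2 * (K * n) + 1)
      ≤ (2 ^ (9 * R)) ^ (2 * (K * n) + 1) := Nat.pow_le_pow_left h1 _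
    _ ≤ (2 ^ (9 * R)) ^ (3 * R) := Nat.pow_le_pow_right (Nat.pow_pos (by norm_num)) (by omega)
    _ = 2 ^ (27 * (R * R)) := by rw [← pow_mul]; congr 1; ring

lemma DD_le {K n R : ℕ} (hP : K * n ≤ R) : DD K n ≤ 2 ^ (2 * (R * R)) := by
  unfold DD
  have h1 : (K * n).factorial ≤ 2 ^ (R * R) := by
    calc (K * n).factorial ≤ R.factorial := Nat.factorial_le hP
      _ ≤ R ^ R := Nat.factorial_le_pow R
      _ ≤ (2 ^ R) ^ R := Nat.pow_le_pow_left (le_two_pow R) R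
      _ = 2 ^ (R * R) := by rw [← pow_mul]
  have h2 : 2 ^ (K * n) ≤ 2 ^ (R * R) := two_pow_mono (hP.trans (Nat.le_mul_self R))
  calc (K * n).factorial * 2 ^ (K * n) ≤ 2 ^ (R * R) * 2 ^ (R * R) := Nat.mul_le_mul h1 h2
    _ = 2 ^ (2 * (R * R)) := by rw [← pow_add]; congr 1; ring

lemma BR_le {K n R : ℕ} (hR : 2 ≤ R) (hK : K ≤ R) (hP : K * n ≤ R) :
    BR K n ≤ 2 ^ (41 * (R * R) + 29 * (R * R) * n) := by
  unfold BR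
  have hX := XX_le hR hK hP
  have hk := kk_le hR hK hP
  have hD := DD_le hP
  have h1 : (kk K n * kk K n + K * n) ^ (K * n) ≤ 2 ^ (13 * (R * R)) := by
    have h2 : kk K n * kk K n + K * n ≤ 2 ^ (12 * R + 1) := by
      have h3 : kk K n * kk K n ≤ 2 ^ (12 * R) := by
        calc kk K n * kk K n ≤ 2 ^ (6 * R) * 2 ^ (6 * R) := Nat.mul_le_mul hk hk
          _ = 2 ^ (12 * R) := by rw [← pow_add]; congr 1; ring
      have h4 : K * n ≤ 2 ^ (12 * R) :=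
        (hP.trans (le_two_pow R)).trans (two_pow_mono (by omega))
      rw [pow_succ]
      omega
    calc (kk K n * kk K n + K * n) ^ (K * n) ≤ (2 ^ (12 * R + 1)) ^ (K * n) :=
          Nat.pow_le_pow_left h2 _
      _ ≤ (2 ^ (12 * R + 1)) ^ R := Nat.pow_le_pow_right (Nat.pow_pos (by norm_num)) hP
      _ = 2 ^ ((12 * R + 1) * R) := by rw [← pow_mul]
      _ ≤ 2 ^ (13 * (R * R)) := two_pow_mono (by nlinarith)
  have h2 : K ≤ 2 ^ (R * R) := (hK.trans (le_two_pow R)).trans (two_pow_mono (Nat.le_mul_self R))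
  have h3 : (XX K n * DD K n) ^ n ≤ 2 ^ (29 * (R * R) * n) := by
    rw [pow_mul]
    refine Nat.pow_le_pow_left ?_ n
    calc XX K n * DD K n ≤ 2 ^ (27 * (R * R)) * 2 ^ (2 * (R * R)) := Nat.mul_le_mul hX hD
      _ = 2 ^ (29 * (R * R)) := by rw [← pow_add]; congr 1; ring
  calc XX K n * (K * (kk K n * kk K n + K * n) ^ (K * n)) * (XX K n * DD K n) ^ n
      ≤ 2 ^ (27 * (R * R)) * (2 ^ (R * R) * 2 ^ (13 * (R * R))) * 2 ^ (29 * (R * R) * n) :=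
        Nat.mul_le_mul (Nat.mul_le_mul hX (Nat.mul_le_mul h2 h1)) h3
    _ = 2 ^ (41 * (R * R) + 29 * (R * R) * n) := by
      rw [← pow_add, ← pow_add, ← pow_add]; congr 1; ring

lemma JJ_le {N : ℕ} (hN : 2 ≤ N) : JJ N ≤ N ^ (5 * (N * N)) := by
  unfold JJ
  rw [pow_mul N 5 (N * N)]
  refine Nat.pow_le_pow_left ?_ _
  have h1 : 4 ≤ N * N := Nat.mul_le_mul hN hN
  have h2 : 8 ≤ N ^ 3 := by
    calc 8 = 2 ^ 3 := by norm_num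
      _ ≤ N ^ 3 := Nat.pow_le_pow_left hN 3
  calc 4 * (N * N) + 1 ≤ 8 * (N * N) := by omega
    _ ≤ N ^ 3 * (N * N) := Nat.mul_le_mul_right _ h2
    _ = N ^ 5 := by ring

lemma JJ_le_two {N : ℕ} (hN : 2 ≤ N) : JJ N ≤ 2 ^ (5 * N ^ 3) := by
  calc JJ N ≤ N ^ (5 * (N * N)) := JJ_le hN
    _ ≤ (2 ^ N) ^ (5 * (N * N)) := Nat.pow_le_pow_left (le_two_pow N) _
    _ = 2 ^ (5 * N ^ 3) := by rw [← pow_mul]; congr 1; ring

/-- comparison of monomials -/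
lemma mono_cmp {N κ : ℕ} (hN : 2 ≤ N) (hκ : 1 ≤ κ) :
    32 * κ ^ 6 ≤ N ^ 5 * κ ^ 6 ∧ 32 * κ ^ 4 ≤ N ^ 5 * κ ^ 6 ∧ 16 * (N * κ ^ 2) ≤ N ^ 5 * κ ^ 6 ∧
      4 * (N ^ 3 * κ ^ 2) ≤ N ^ 5 * κ ^ 6 ∧ N ^ 5 * κ ^ 4 ≤ N ^ 5 * κ ^ 6 := by
  have h5 : 32 ≤ N ^ 5 := by
    calc 32 = 2 ^ 5 := by norm_num
      _ ≤ N ^ 5 := Nat.pow_le_pow_left hN 5
  have h4 : 16 ≤ N ^ 4 := by
    calc 16 = 2 ^ 4 := by norm_num
      _ ≤ N ^ 4 := Nat.pow_le_pow_left hN 4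
  have h2 : 4 ≤ N ^ 2 := by
    calc 4 = 2 ^ 2 := by norm_num
      _ ≤ N ^ 2 := Nat.pow_le_pow_left hN 2
  have k4 : κ ^ 4 ≤ κ ^ 6 := Nat.pow_le_pow_right hκ (by norm_num)
  have k2 : κ ^ 2 ≤ κ ^ 6 := Nat.pow_le_pow_right hκ (by norm_num)
  refine ⟨Nat.mul_le_mul_right _ h5, Nat.mul_le_mul h5 k4, ?_, ?_, Nat.mul_le_mul_left _ k4⟩
  · calc 16 * (N * κ ^ 2) = (16 * N) * κ ^ 2 := by ring
      _ ≤ (N ^ 4 * N) * κ ^ 6 := Nat.mul_le_mul (Nat.mul_le_mul_right _ h4) k2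
      _ = N ^ 5 * κ ^ 6 := by ring
  · calc 4 * (N ^ 3 * κ ^ 2) = (4 * N ^ 3) * κ ^ 2 := by ring
      _ ≤ (N ^ 2 * N ^ 3) * κ ^ 6 := Nat.mul_le_mul (Nat.mul_le_mul_right _ h2) k2
      _ = N ^ 5 * κ ^ 6 := by ring

lemma XE_le {N κ : ℕ} (hN : 2 ≤ N) (hκ : 1 ≤ κ) : XE N κ ≤ 2 ^ (6 * (N ^ 5 * κ ^ 6)) := by
  unfold XE
  have hN0 : 0 < N := by omega
  set M := 3 * (κ * κ) with hM
  have hM0 : 0 < κ * κ + 2 * κ := by positivity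
  have hmM : κ * κ + 2 * κ ≤ M := by
    have : κ ≤ κ * κ := Nat.le_mul_self κ
    omega
  refine (BE_mono hN0 hM0 hmM).trans ?_
  unfold BE
  have h1 : M ^ M ≤ 2 ^ (M ^ 2) := by
    calc M ^ M ≤ (2 ^ M) ^ M := Nat.pow_le_pow_left (le_two_pow M) M
      _ = 2 ^ (M ^ 2) := by rw [← pow_mul, pow_two]
  have h2 : (M ^ M) ^ M ≤ 2 ^ (M ^ 3) := by
    calc (M ^ M) ^ M ≤ (2 ^ (M ^ 2)) ^ M := Nat.pow_le_pow_left h1 M
      _ = 2 ^ (M ^ 3) := by rw [← pow_mul, ← pow_succ]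
  have h3 : N ^ M ≤ 2 ^ (N * M) := by
    calc N ^ M ≤ (2 ^ N) ^ M := Nat.pow_le_pow_left (le_two_pow N) M
      _ = 2 ^ (N * M) := by rw [← pow_mul]
  have h4 : JJ N ^ M ≤ 2 ^ (5 * N ^ 3 * M) := by
    calc JJ N ^ M ≤ (2 ^ (5 * N ^ 3)) ^ M := Nat.pow_le_pow_left (JJ_le_two hN) M
      _ = 2 ^ (5 * N ^ 3 * M) := by rw [← pow_mul]
  obtain ⟨c1, c2, c3, c4, _⟩ := mono_cmp hN hκ
  calc (M ^ M) ^ M * (M ^ M * (N ^ M * ((M ^ M) ^ M * JJ N ^ M)))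
      ≤ 2 ^ (M ^ 3) * (2 ^ (M ^ 2) * (2 ^ (N * M) * (2 ^ (M ^ 3) * 2 ^ (5 * N ^ 3 * M)))) :=
        Nat.mul_le_mul h2 (Nat.mul_le_mul h1 (Nat.mul_le_mul h3 (Nat.mul_le_mul h2 h4)))
    _ = 2 ^ (54 * κ ^ 6 + 9 * κ ^ 4 + 3 * (N * κ ^ 2) + 15 * (N ^ 3 * κ ^ 2)) := by
      rw [← pow_add, ← pow_add, ← pow_add, ← pow_add, hM]
      congr 1
      ring
    _ ≤ 2 ^ (6 * (N ^ 5 * κ ^ 6)) := two_pow_mono (by omega)

lemma YR_le {N κ : ℕ} (hN : 2 ≤ N) (hκ : 1 ≤ κ) : YR N κ ≤ 2 ^ (9 * (N ^ 5 * κ ^ 6)) := by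
  unfold YR
  set n := N / 2 with hn
  set R := N * N * (κ * κ) / 2 with hR
  have hn2 : 2 * n ≤ N := Nat.mul_div_le N 2
  have hR2 : 2 * R ≤ N * N * (κ * κ) := Nat.mul_div_le _ 2
  have hKR : N * (κ * κ) ≤ R := by
    rw [hR, Nat.le_div_iff_mul_le (by norm_num)]
    calc N * (κ * κ) * 2 = N * 2 * (κ * κ) := by ring
      _ ≤ N * N * (κ * κ) := Nat.mul_le_mul_right _ (Nat.mul_le_mul_left N hN)
  have hPR : N * (κ * κ) * n ≤ R := by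
    rw [hR, Nat.le_div_iff_mul_le (by norm_num)]
    calc N * (κ * κ) * n * 2 = N * (κ * κ) * (2 * n) := by ring
      _ ≤ N * (κ * κ) * N := Nat.mul_le_mul_left _ hn2
      _ = N * N * (κ * κ) := by ring
  have hNK : N ≤ N * (κ * κ) := Nat.le_mul_of_pos_right _ (Nat.mul_pos hκ hκ)
  refine (BR_le ((hN.trans hNK).trans hKR) hKR hPR).trans (two_pow_mono ?_)
  have h3 : 4 * (R * R) ≤ N ^ 4 * κ ^ 4 := by
    calc 4 * (R * R) = (2 * R) * (2 * R) := by ring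
      _ ≤ (N * N * (κ * κ)) * (N * N * (κ * κ)) := Nat.mul_le_mul hR2 hR2
      _ = N ^ 4 * κ ^ 4 := by ring
  have h4 : 8 * (R * R * n) ≤ N ^ 5 * κ ^ 4 := by
    calc 8 * (R * R * n) = (4 * (R * R)) * (2 * n) := by ring
      _ ≤ (N ^ 4 * κ ^ 4) * N := Nat.mul_le_mul h3 hn2
      _ = N ^ 5 * κ ^ 4 := by ring
  have h5 : 2 * (N ^ 4 * κ ^ 4) ≤ N ^ 5 * κ ^ 4 := by
    calc 2 * (N ^ 4 * κ ^ 4) ≤ N * (N ^ 4 * κ ^ 4) := Nat.mul_le_mul_right _ hN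
      _ = N ^ 5 * κ ^ 4 := by ring
  obtain ⟨_, _, _, _, c5⟩ := mono_cmp hN hκ
  have h6 : 29 * (R * R) * n = 29 * (R * R * n) := by ring
  rw [h6]
  omega

/-- the bound for groups with a cyclic normal subgroup of index at most `κ` -/
theorem BG_le {N κ : ℕ} (hN : 2 ≤ N) (hκ : 1 ≤ κ) : BG N κ ≤ 2 ^ (16 * N ^ 5 * κ ^ 6) := by
  unfold BG
  have hX := XE_le hN hκ
  have hY := YR_le hN hκ
  obtain ⟨_, _, c3, _, _⟩ := mono_cmp hN hκ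
  set T := N ^ 5 * κ ^ 6 with hT
  have hsq : κ * κ = κ ^ 2 := by ring
  have hNk : N * (κ * κ) ≤ 2 ^ (N * κ ^ 2) := by rw [hsq]; exact le_two_pow _
  have h1 : YR N κ * (N * (κ * κ)) * XE N κ + XE N κ ≤ 2 ^ (15 * T + N * κ ^ 2 + 1) := by
    have h2 : YR N κ * (N * (κ * κ)) * XE N κ ≤ 2 ^ (15 * T + N * κ ^ 2) := by
      calc YR N κ * (N * (κ * κ)) * XE N κ ≤ 2 ^ (9 * T) * 2 ^ (N * κ ^ 2) * 2 ^ (6 * T) :=
            Nat.mul_le_mul (Nat.mul_le_mul hY hNk) hX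
        _ = 2 ^ (15 * T + N * κ ^ 2) := by rw [← pow_add, ← pow_add]; congr 1; ring
    have h3 : XE N κ ≤ 2 ^ (15 * T + N * κ ^ 2) := hX.trans (two_pow_mono (by omega))
    rw [pow_succ]
    omega
  have h4 : κ + 1 ≤ 2 ^ κ := Nat.lt_two_pow_self
  have h5 : N + 1 ≤ 2 ^ N := Nat.lt_two_pow_self
  have h6 : N * (κ * κ) + 1 ≤ 2 ^ (N * κ ^ 2) := by rw [hsq]; exact Nat.lt_two_pow_self
  have h7 : κ ≤ N * κ ^ 2 := by
    calc κ ≤ κ * κ := Nat.le_mul_self κ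
      _ = κ ^ 2 := hsq
      _ ≤ N * κ ^ 2 := Nat.le_mul_of_pos_left _ (by omega)
  have h8 : N ≤ N * κ ^ 2 := Nat.le_mul_of_pos_right _ (Nat.pow_pos hκ)
  calc (κ + 1) * ((N + 1) * (N * (κ * κ) + 1)) * (YR N κ * (N * (κ * κ)) * XE N κ + XE N κ)
      ≤ 2 ^ κ * (2 ^ N * 2 ^ (N * κ ^ 2)) * 2 ^ (15 * T + N * κ ^ 2 + 1) :=
        Nat.mul_le_mul (Nat.mul_le_mul h4 (Nat.mul_le_mul h5 h6)) h1
    _ = 2 ^ (κ + (N + N * κ ^ 2) + (15 * T + N * κ ^ 2 + 1)) := by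
      rw [← pow_add, ← pow_add, ← pow_add]
    _ ≤ 2 ^ (16 * T) := two_pow_mono (by omega)
    _ = 2 ^ (16 * N ^ 5 * κ ^ 6) := by congr 1; rw [hT]; ring

/-- the bound for all spherical space forms -/
theorem BG_JJ_le {N : ℕ} (hN : 2 ≤ N) : BG N (JJ N) ≤ 2 ^ (N ^ (33 * N ^ 2)) := by
  refine (BG_le hN (JJ_pos N)).trans (two_pow_mono ?_)
  have h4 : 16 ≤ N ^ 4 := by
    calc 16 = 2 ^ 4 := by norm_num
      _ ≤ N ^ 4 := Nat.pow_le_pow_left hN 4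
  have h2 : 4 ≤ N ^ 2 := by
    calc 4 = 2 ^ 2 := by norm_num
      _ ≤ N ^ 2 := Nat.pow_le_pow_left hN 2
  calc 16 * N ^ 5 * JJ N ^ 6 ≤ N ^ 4 * N ^ 5 * (N ^ (5 * (N * N))) ^ 6 :=
        Nat.mul_le_mul (Nat.mul_le_mul_right _ h4) (Nat.pow_le_pow_left (JJ_le hN) 6)
    _ = N ^ (30 * N ^ 2 + 9) := by
      rw [← pow_mul, ← pow_add, ← pow_add]; congr 1; ring
    _ ≤ N ^ (33 * N ^ 2) := Nat.pow_le_pow_right (by omega) (by omega)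

end Pool.Agent.Helper82.EB
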