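import Pool.Agent.Helper82.LS.Slim
import Pool.Agent.Helper82.EB.Num
import Pool.Agent.Helper82.EB.Cn

/-!
The upper bound for isospectral sets of lens spaces, with the short definitions.
-/

namespace Pool.Agent.Helper82.EB.Lens

open Pool.Agent.Helper82.LS.Slim Pool.Agent.Helper82.LS
open Pool.Agent.Helper78.Geom (encard_le_of_finite free_of_isSpaceFormGroup isometric_of_conj)
open Pool.Agent.Helper78.Sph Pool.Agent.Helper78.Harm

/-- `F` is a set of finite groups acting freely on `S^d` whose space forms are pairwise isospectral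
and pairwise not isometric. -/
def IsIsospectralSet {d : ℕ} (F : Set (Subgroup (O d))) : Prop :=
  (∀ Γ ∈ F, IsSpaceFormGroup Γ) ∧
    ∀ Γ ∈ F, ∀ Γ' ∈ F, Γ ≠ Γ' → Isospectral Γ Γ' ∧ ¬ Isometric Γ Γ'

theorem lens (d : ℕ) (hd : 1 ≤ d) (F : Set (Subgroup (O d))) (hF : IsIsospectralSet F)
    (hcyc : ∀ Γ ∈ F, IsCyclic Γ) : F.encard ≤ (2 ^ (16 * (d + 1) ^ 5) : ℕ) := by
  refine encard_le_of_finite F _ fun T hT => ?_
  by_contra hcon
  push Not at hcon
  have hB := Pool.Agent.Helper82.EB.BG_le (N := d + 1) (κ := 1) (by omega) le_rfl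
  rw [one_pow, mul_one] at hB
  obtain ⟨i, j, hij, hconj⟩ := Pool.Agent.Helper82.EB.gen_main (d + 1) 1 (Nat.succ_pos d) T
    (fun Γ => Γ.1) (fun Γ => (hF.1 _ (hT Γ.2)).1)
    (fun Γ => free_of_isSpaceFormGroup (d := d) (hF.1 _ (hT Γ.2)))
    (fun Γ => Pool.Agent.Helper82.EB.hasCN_of_cyclic (hcyc _ (hT Γ.2))) (by
      intro i j k
      by_cases h : i = j
      · rw [h]
      · have h1 := (hF.2 _ (hT i.2) _ (hT j.2) (fun h' => h (Subtype.ext h'))).1
          (Pool.Agent.Helper78.Sph.lam (d + 1) k)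
        rw [mult_eq, mult_eq] at h1
        exact (Space.mult_lam (d := d) hd i.1 k).symm.trans
          (h1.trans (Space.mult_lam (d := d) hd j.1 k))) (by
      rw [Fintype.card_coe]
      exact lt_of_le_of_lt hB hcon)
  exact (hF.2 _ (hT i.2) _ (hT j.2) (fun h' => hij (Subtype.ext h'))).2
    (isometric_of_conj (d := d) hconj)

end Pool.Agent.Helper82.EB.Lens
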